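import Mathlib
import Pool.Agent.Helper44.TC.Dz
import Pool.Agent.Helper44.TC.Z1
import Pool.Agent.Helper44.TC.Z2
import Pool.Agent.Helper44.TC.Z3
import Pool.Agent.Helper44.TC.Z4
import Pool.Agent.Helper44.TC.Z5

/-!
# PV, analytic part: the primes of degree one which do not split have a divergent sum

The proof is that of `exists_nonsplit` (helper44, Pool/Agent/Helper44/TC/Main.lean), with a set of
exceptional primes whose sum of inverse norms is bounded.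
-/

set_option autoImplicit false

open NumberField IsDedekindDomain Filter Topology

namespace Pool.Agent.Helper37.PV

open Pool.Agent.Helper45.TC Pool.Agent.Helper44.TC

section aux

variable {F : Type} [Field F] [NumberField F]

private lemma pv_nm_eq (q : HeightOneSpectrum (𝓞 F)) : nm q = Ideal.absNorm q.asIdeal :=
  (Ideal.absNorm_apply _).symm

private lemma pv_two_le_nm (q : HeightOneSpectrum (𝓞 F)) : 2 ≤ nm q := by
  have h0 : nm q ≠ 0 := by
    rw [pv_nm_eq, Ne, Ideal.absNorm_eq_zero_iff]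
    exact q.ne_bot
  have h1 : nm q ≠ 1 := by
    rw [pv_nm_eq, Ne, Ideal.absNorm_eq_one_iff]
    exact q.isPrime.ne_top
  omega

private lemma pv_wt_pos (x : ℝ) (q : HeightOneSpectrum (𝓞 F)) : 0 < wt x q := by
  have h := pv_two_le_nm q
  have h1 : (0 : ℝ) < nm q := by exact_mod_cast (by omega : 0 < nm q)
  exact Real.rpow_pos_of_pos h1 _

private lemma pv_wt_le_inv {x : ℝ} (hx : 1 < x) (q : HeightOneSpectrum (𝓞 F)) :
    wt x q ≤ (nm q : ℝ)⁻¹ := by
  have h := pv_two_le_nm q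
  have h1 : (1 : ℝ) ≤ nm q := by exact_mod_cast (by omega : 1 ≤ nm q)
  rw [wt, ← Real.rpow_neg_one]
  exact Real.rpow_le_rpow_of_exponent_le h1 (by linarith)

private lemma pv_wt_le_half {x : ℝ} (hx : 1 < x) (q : HeightOneSpectrum (𝓞 F)) :
    wt x q ≤ 1 / 2 := by
  have h := pv_two_le_nm q
  have h1 : (2 : ℝ) ≤ nm q := by exact_mod_cast h
  refine (pv_wt_le_inv hx q).trans ?_
  rw [one_div]
  exact inv_anti₀ (by norm_num) h1

private lemma pv_one_le_fac {x : ℝ} (hx : 1 < x) (q : HeightOneSpectrum (𝓞 F)) :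
    1 ≤ (1 - wt x q)⁻¹ := by
  have h1 := pv_wt_pos x q
  have h2 := pv_wt_le_half hx q
  exact one_le_inv₀ (by linarith) |>.2 (by linarith)

private lemma pv_fac_le_two {x : ℝ} (hx : 1 < x) (q : HeightOneSpectrum (𝓞 F)) :
    (1 - wt x q)⁻¹ ≤ 2 := by
  have h2 := pv_wt_le_half hx q
  have h3 : (1 / 2 : ℝ) ≤ 1 - wt x q := by linarith
  calc (1 - wt x q)⁻¹ ≤ (1 / 2 : ℝ)⁻¹ := inv_anti₀ (by norm_num) h3
    _ = 2 := by norm_num

private lemma pv_fac_le_exp {x : ℝ} (hx : 1 < x) (q : HeightOneSpectrum (𝓞 F)) :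
    (1 - wt x q)⁻¹ ≤ Real.exp (2 * (nm q : ℝ)⁻¹) := by
  have h1 := pv_wt_pos x q
  have h2 := pv_wt_le_half hx q
  have h3 := pv_wt_le_inv hx q
  have h4 : (1 - wt x q)⁻¹ ≤ 2 * wt x q + 1 := by
    rw [inv_le_iff_one_le_mul₀ (by linarith)]
    nlinarith
  refine h4.trans ((Real.add_one_le_exp _).trans (Real.exp_le_exp.2 (by linarith)))

end aux

theorem nonsplit_rec {E M : Type} [Field E] [NumberField E] [Field M] [NumberField M]
    [Algebra E M] [IsGalois E M] (h : 2 ≤ Module.finrank E M)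
    (B : Set (HeightOneSpectrum (𝓞 E))) (hB : B.Finite) (D : ℝ) :
    ∃ Q : Finset (HeightOneSpectrum (𝓞 E)), (∀ q ∈ Q, q ∉ B ∧ (nm q).Prime ∧
      ∀ P : HeightOneSpectrum (𝓞 M), P.asIdeal.comap (algebraMap (𝓞 E) (𝓞 M)) = q.asIdeal →
        nm P ≠ nm q) ∧ D < ∑ q ∈ Q, (nm q : ℝ)⁻¹ := by
  classical
  by_contra hcon
  push Not at hcon
  set ℓ := Module.finrank E M with hℓ
  have hℓ2 : 2 ≤ ℓ := h
  obtain ⟨B0, hB0⟩ := card_above (E := E) (M := M)
  obtain ⟨C, hC⟩ := sum_bdd E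
  set B' : Finset (HeightOneSpectrum (𝓞 E)) := hB.toFinset ∪ B0 with hB'
  obtain ⟨S, hS⟩ : ∃ S : Set (HeightOneSpectrum (𝓞 E)), ∀ q, q ∈ S ↔ q ∉ B ∧ (nm q).Prime ∧
      ∀ P : HeightOneSpectrum (𝓞 M), P.asIdeal.comap (algebraMap (𝓞 E) (𝓞 M)) = q.asIdeal →
        nm P ≠ nm q := ⟨_, fun _ => Iff.rfl⟩
  have hSs : ∀ Q : Finset (HeightOneSpectrum (𝓞 E)), (∀ q ∈ Q, q ∈ S) →
      ∑ q ∈ Q, (nm q : ℝ)⁻¹ ≤ D := fun Q hQ => hcon Q fun q hq => (hS q).1 (hQ q hq)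
  have hT : ∀ q : HeightOneSpectrum (𝓞 E), ∃ T : Finset (HeightOneSpectrum (𝓞 M)),
      (nm q).Prime → q ∉ B' → q ∉ S → T.card = ℓ ∧
        ∀ P ∈ T, P.asIdeal.comap (algebraMap (𝓞 E) (𝓞 M)) = q.asIdeal ∧ nm P = nm q := by
    intro q
    by_cases hq : (nm q).Prime ∧ q ∉ B' ∧ q ∉ S
    · obtain ⟨hq1, hq2, hq0⟩ := hq
      rw [hB', Finset.mem_union, not_or] at hq2
      have hq3 : q ∉ B := fun h3 => hq2.1 (hB.mem_toFinset.2 h3)
      rw [hS] at hq0
      push Not at hq0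
      obtain ⟨T, hT1, hT2⟩ := hB0 q hq2.2 (hq0 hq3 hq1)
      exact ⟨T, fun _ _ _ => ⟨hT1, hT2⟩⟩
    · exact ⟨∅, fun h1 h2 h3 => absurd ⟨h1, h2, h3⟩ hq⟩
  choose T hT using hT
  -- the product over the good primes
  have key1 : ∀ x : ℝ, 1 < x → ∀ Q : Finset (HeightOneSpectrum (𝓞 E)),
      (∀ q ∈ Q, (nm q).Prime ∧ q ∉ B' ∧ q ∉ S) → (∏ q ∈ Q, (1 - wt x q)⁻¹) ^ ℓ ≤ zt M x := by
    intro x hx Q hQ
    have h1 := prod_le_zt M hx (Q.biUnion T)
    have hdisj : ∀ q ∈ Q, ∀ q' ∈ Q, q ≠ q' → Disjoint (T q) (T q') := by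
      intro q hq q' hq' hne
      rw [Finset.disjoint_left]
      intro P hP hP'
      apply hne
      have e1 := ((hT q (hQ q hq).1 (hQ q hq).2.1 (hQ q hq).2.2).2 P hP).1
      have e2 := ((hT q' (hQ q' hq').1 (hQ q' hq').2.1 (hQ q' hq').2.2).2 P hP').1
      exact HeightOneSpectrum.ext (e1.symm.trans e2)
    rw [Finset.prod_biUnion hdisj] at h1
    have h2 : ∀ q ∈ Q, ∏ P ∈ T q, (1 - wt x P)⁻¹ = ((1 - wt x q)⁻¹) ^ ℓ := by
      intro q hq
      obtain ⟨e1, e2⟩ := hT q (hQ q hq).1 (hQ q hq).2.1 (hQ q hq).2.2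
      rw [← e1, ← Finset.prod_const]
      refine Finset.prod_congr rfl fun P hP => ?_
      rw [wt, wt, (e2 P hP).2]
    rw [Finset.prod_congr rfl h2, Finset.prod_pow] at h1
    exact h1
  -- the bad primes
  set K : ℝ := 2 ^ B'.card * (Real.exp (2 * D) * Real.exp (2 * C)) with hK
  have hK0 : 0 < K := by positivity
  have key2 : ∀ x : ℝ, 1 < x → ∀ Q : Finset (HeightOneSpectrum (𝓞 E)),
      ∏ q ∈ Q, (1 - wt x q)⁻¹ ≤
        K * ∏ q ∈ Q.filter (fun q => (nm q).Prime ∧ q ∉ B' ∧ q ∉ S), (1 - wt x q)⁻¹ := by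
    intro x hx Q
    have hfac : ∀ q : HeightOneSpectrum (𝓞 E), 0 ≤ (1 - wt x q)⁻¹ := fun q =>
      zero_le_one.trans (pv_one_le_fac hx q)
    rw [← Finset.prod_filter_mul_prod_filter_not Q
      (fun q => (nm q).Prime ∧ q ∉ B' ∧ q ∉ S), mul_comm]
    refine mul_le_mul_of_nonneg_right ?_ (Finset.prod_nonneg fun q _ => hfac q)
    rw [← Finset.prod_filter_mul_prod_filter_not
      (Q.filter (fun q => ¬ ((nm q).Prime ∧ q ∉ B' ∧ q ∉ S))) (fun q => q ∈ B'), hK]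
    refine mul_le_mul ?_ ?_ (Finset.prod_nonneg fun q _ => hfac q) (by positivity)
    · calc ∏ q ∈ (Q.filter (fun q => ¬ ((nm q).Prime ∧ q ∉ B' ∧ q ∉ S))).filter (fun q => q ∈ B'),
            (1 - wt x q)⁻¹
          ≤ ∏ q ∈ (Q.filter (fun q => ¬ ((nm q).Prime ∧ q ∉ B' ∧ q ∉ S))).filter
              (fun q => q ∈ B'),
            (2 : ℝ) := Finset.prod_le_prod (fun q _ => hfac q) fun q _ => pv_fac_le_two hx q
        _ = 2 ^ ((Q.filter (fun q => ¬ ((nm q).Prime ∧ q ∉ B' ∧ q ∉ S))).filter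
              (fun q => q ∈ B')).card := Finset.prod_const _
        _ ≤ 2 ^ B'.card := by
            refine pow_le_pow_right₀ (by norm_num) (Finset.card_le_card ?_)
            intro q hq
            exact (Finset.mem_filter.1 hq).2
    · rw [← Finset.prod_filter_mul_prod_filter_not
        ((Q.filter (fun q => ¬ ((nm q).Prime ∧ q ∉ B' ∧ q ∉ S))).filter (fun q => ¬ q ∈ B'))
        (fun q => q ∈ S)]
      refine mul_le_mul ?_ ?_ (Finset.prod_nonneg fun q _ => hfac q) (by positivity)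
      · refine (Finset.prod_le_prod (fun q _ => hfac q) fun q _ => pv_fac_le_exp hx q).trans ?_
        rw [← Real.exp_sum, ← Finset.mul_sum]
        refine Real.exp_le_exp.2 (mul_le_mul_of_nonneg_left ?_ (by norm_num))
        exact hSs _ fun q hq => (Finset.mem_filter.1 hq).2
      · have hbad : ∀ q ∈ ((Q.filter (fun q => ¬ ((nm q).Prime ∧ q ∉ B' ∧ q ∉ S))).filter
            (fun q => ¬ q ∈ B')).filter (fun q => ¬ q ∈ S), ¬ (nm q).Prime := by
          intro q hq hp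
          rw [Finset.mem_filter, Finset.mem_filter, Finset.mem_filter] at hq
          exact hq.1.1.2 ⟨hp, hq.1.2, hq.2⟩
        refine (Finset.prod_le_prod (fun q _ => hfac q) fun q _ => pv_fac_le_exp hx q).trans ?_
        rw [← Real.exp_sum, ← Finset.mul_sum]
        refine Real.exp_le_exp.2 (mul_le_mul_of_nonneg_left ?_ (by norm_num))
        refine le_trans (le_of_eq ?_) (hC (((Q.filter
          (fun q => ¬ ((nm q).Prime ∧ q ∉ B' ∧ q ∉ S))).filter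
            (fun q => ¬ q ∈ B')).filter (fun q => ¬ q ∈ S)))
        refine Finset.sum_congr rfl fun q hq => ?_
        rw [if_neg (hbad q hq)]
  -- comparison of the zeta functions
  have key3 : ∀ x : ℝ, 1 < x → 1 ≤ zt E x ∧ zt E x ^ ℓ ≤ K ^ ℓ * zt M x := by
    intro x hx
    have hM1 : 1 ≤ zt M x := by
      have h1 := key1 x hx ∅ (by simp)
      simpa using h1
    have hE1 : 1 ≤ zt E x := by
      have h1 := prod_le_zt E hx ∅
      simpa using h1
    refine ⟨hE1, ?_⟩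
    have hc0 : 0 ≤ K ^ ℓ * zt M x := by positivity
    have hℓ0 : (ℓ : ℝ) ≠ 0 := by exact_mod_cast (by omega : ℓ ≠ 0)
    have hpow : ((K ^ ℓ * zt M x) ^ (1 / (ℓ : ℝ))) ^ ℓ = K ^ ℓ * zt M x := by
      rw [← Real.rpow_natCast, ← Real.rpow_mul hc0, one_div_mul_cancel hℓ0, Real.rpow_one]
    have h2 : zt E x ≤ (K ^ ℓ * zt M x) ^ (1 / (ℓ : ℝ)) := by
      refine zt_le E hx _ fun S1 hS1 => ?_
      obtain ⟨Q, hQ⟩ := sum_le_prod E hx S1 hS1
      have h3 := hQ.trans (key2 x hx Q)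
      have h4 := key1 x hx (Q.filter (fun q => (nm q).Prime ∧ q ∉ B' ∧ q ∉ S))
        (fun q hq => (Finset.mem_filter.1 hq).2)
      refine h3.trans ?_
      refine le_of_pow_le_pow_left₀ (by omega : ℓ ≠ 0) (by positivity) ?_
      rw [hpow, mul_pow]
      exact mul_le_mul_of_nonneg_left h4 (by positivity)
    calc zt E x ^ ℓ ≤ ((K ^ ℓ * zt M x) ^ (1 / (ℓ : ℝ))) ^ ℓ :=
          pow_le_pow_left₀ (by linarith) h2 _
      _ = K ^ ℓ * zt M x := hpow
  -- the poles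
  obtain ⟨ρ, hρ, hlE⟩ := zt_tendsto E
  obtain ⟨ρ', -, hlM⟩ := zt_tendsto M
  have hlim1 : Tendsto (fun x : ℝ => ((x - 1) * zt E x) ^ 2) (𝓝[>] 1) (𝓝 (ρ ^ 2)) := hlE.pow 2
  have hlim2 : Tendsto (fun x : ℝ => K ^ ℓ * ((x - 1) * ((x - 1) * zt M x))) (𝓝[>] 1)
      (𝓝 (K ^ ℓ * (0 * ρ'))) := by
    refine Tendsto.const_mul _ (Tendsto.mul ?_ hlM)
    have h1 : Tendsto (fun x : ℝ => x - 1) (𝓝 1) (𝓝 (1 - 1)) :=
      (continuous_id.sub continuous_const).tendsto 1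
    rw [sub_self] at h1
    exact h1.mono_left nhdsWithin_le_nhds
  have hle : ρ ^ 2 ≤ K ^ ℓ * (0 * ρ') := by
    refine le_of_tendsto_of_tendsto hlim1 hlim2 ?_
    filter_upwards [self_mem_nhdsWithin] with x hx
    have hx1 : 1 < x := hx
    obtain ⟨h1, h2⟩ := key3 x hx1
    have h3 : zt E x ^ 2 ≤ zt E x ^ ℓ := pow_le_pow_right₀ h1 hℓ2
    have h4 : 0 ≤ (x - 1) ^ 2 := sq_nonneg _
    calc ((x - 1) * zt E x) ^ 2 = (x - 1) ^ 2 * zt E x ^ 2 := by ring
      _ ≤ (x - 1) ^ 2 * (K ^ ℓ * zt M x) := mul_le_mul_of_nonneg_left (h3.trans h2) h4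
      _ = K ^ ℓ * ((x - 1) * ((x - 1) * zt M x)) := by ring
  rw [zero_mul, mul_zero] at hle
  have : 0 < ρ ^ 2 := by positivity
  linarith

end Pool.Agent.Helper37.PV
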