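import Mathlib
import Pool.Agent.Helper44.TC.Dz
import Pool.Agent.Helper44.TC.Z1
import Pool.Agent.Helper44.TC.Z2
import Pool.Agent.Helper44.TC.Z3
import Pool.Agent.Helper44.TC.Z4
import Pool.Agent.Helper44.TC.Z5

/-!
# PV, analytic part, second form: at least half of the sum over the primes of degree one near `1`
comes from the primes which do not split
-/

set_option autoImplicit false

open NumberField IsDedekindDomain Filter Topology

namespace Pool.Agent.Helper37.PV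

open Pool.Agent.Helper45.TC Pool.Agent.Helper44.TC

section aux

variable {F : Type} [Field F] [NumberField F]

private lemma pv_nm_eq (q : HeightOneSpectrum (𝓞 F)) : nm q = Ideal.absNorm q.asIdeal :=
  (Ideal.absNorm_apply _).symm

private lemma pv_two_le_nm (q : HeightOneSpectrum (𝓞 F)) : 2 ≤ nm q := by
  have h0 : nm q ≠ 0 := by
    rw [pv_nm_eq, Ne, Ideal.absNorm_eq_zero_iff]
    exact q.ne_bot
  have h1 : nm q ≠ 1 := by
    rw [pv_nm_eq, Ne, Ideal.absNorm_eq_one_iff]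
    exact q.isPrime.ne_top
  omega

private lemma pv_wt_pos (x : ℝ) (q : HeightOneSpectrum (𝓞 F)) : 0 < wt x q := by
  have h := pv_two_le_nm q
  have h1 : (0 : ℝ) < nm q := by exact_mod_cast (by omega : 0 < nm q)
  exact Real.rpow_pos_of_pos h1 _

private lemma pv_wt_le_inv {x : ℝ} (hx : 1 < x) (q : HeightOneSpectrum (𝓞 F)) :
    wt x q ≤ (nm q : ℝ)⁻¹ := by
  have h := pv_two_le_nm q
  have h1 : (1 : ℝ) ≤ nm q := by exact_mod_cast (by omega : 1 ≤ nm q)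
  rw [wt, ← Real.rpow_neg_one]
  exact Real.rpow_le_rpow_of_exponent_le h1 (by linarith)

private lemma pv_wt_le_half {x : ℝ} (hx : 1 < x) (q : HeightOneSpectrum (𝓞 F)) :
    wt x q ≤ 1 / 2 := by
  have h := pv_two_le_nm q
  have h1 : (2 : ℝ) ≤ nm q := by exact_mod_cast h
  refine (pv_wt_le_inv hx q).trans ?_
  rw [one_div]
  exact inv_anti₀ (by norm_num) h1

private lemma pv_one_le_fac {x : ℝ} (hx : 1 < x) (q : HeightOneSpectrum (𝓞 F)) :
    1 ≤ (1 - wt x q)⁻¹ := by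
  have h1 := pv_wt_pos x q
  have h2 := pv_wt_le_half hx q
  exact one_le_inv₀ (by linarith) |>.2 (by linarith)

private lemma pv_fac_le_two {x : ℝ} (hx : 1 < x) (q : HeightOneSpectrum (𝓞 F)) :
    (1 - wt x q)⁻¹ ≤ 2 := by
  have h2 := pv_wt_le_half hx q
  have h3 : (1 / 2 : ℝ) ≤ 1 - wt x q := by linarith
  calc (1 - wt x q)⁻¹ ≤ (1 / 2 : ℝ)⁻¹ := inv_anti₀ (by norm_num) h3
    _ = 2 := by norm_num

private lemma pv_fac_le_exp {x : ℝ} (hx : 1 < x) (q : HeightOneSpectrum (𝓞 F)) :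
    (1 - wt x q)⁻¹ ≤ Real.exp (2 * (nm q : ℝ)⁻¹) := by
  have h1 := pv_wt_pos x q
  have h2 := pv_wt_le_half hx q
  have h3 := pv_wt_le_inv hx q
  have h4 : (1 - wt x q)⁻¹ ≤ 2 * wt x q + 1 := by
    rw [inv_le_iff_one_le_mul₀ (by linarith)]
    nlinarith
  refine h4.trans ((Real.add_one_le_exp _).trans (Real.exp_le_exp.2 (by linarith)))

private lemma pv_fac_le_exp2 {x : ℝ} (hx : 1 < x) (q : HeightOneSpectrum (𝓞 F)) :
    (1 - wt x q)⁻¹ ≤ Real.exp (wt x q + ((nm q : ℝ) ^ 2)⁻¹) := by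
  have h1 := pv_wt_pos x q
  have h2 := pv_wt_le_half hx q
  have h3 := pv_wt_le_inv hx q
  set w := wt x q with hw
  have h5 : (1 - w)⁻¹ ≤ Real.exp (w + w ^ 2) := by
    rw [inv_le_iff_one_le_mul₀ (by linarith)]
    have h6 := Real.quadratic_le_exp_of_nonneg (x := w + w ^ 2) (by positivity)
    have h7 : 1 ≤ (1 + (w + w ^ 2) + (w + w ^ 2) ^ 2 / 2) * (1 - w) := by
      have h8 : (1 + (w + w ^ 2) + (w + w ^ 2) ^ 2 / 2) * (1 - w) =
          1 + w ^ 2 / 2 * (1 - w - w ^ 2 - w ^ 3) := by ring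
      rw [h8]
      have h9 : w ^ 2 ≤ 1 / 4 := by nlinarith
      have h10 : w ^ 3 ≤ 1 / 8 := by
        have : w ^ 3 = w ^ 2 * w := by ring
        rw [this]
        nlinarith
      have h11 : 0 ≤ 1 - w - w ^ 2 - w ^ 3 := by linarith
      have : 0 ≤ w ^ 2 / 2 * (1 - w - w ^ 2 - w ^ 3) := by positivity
      linarith
    refine h7.trans (mul_le_mul_of_nonneg_right h6 (by linarith))
  refine h5.trans (Real.exp_le_exp.2 ?_)
  have h6 : w ^ 2 ≤ ((nm q : ℝ)⁻¹) ^ 2 := pow_le_pow_left₀ h1.le h3 2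
  rw [inv_pow] at h6
  linarith

end aux

theorem nonsplit_quant {E M : Type} [Field E] [NumberField E] [Field M] [NumberField M]
    [Algebra E M] [IsGalois E M] (h : 2 ≤ Module.finrank E M)
    (B : Set (HeightOneSpectrum (𝓞 E))) (hB : B.Finite) :
    ∃ C' δ : ℝ, 0 < δ ∧ ∀ x : ℝ, 1 < x → x < 1 + δ →
    ∃ Q : Finset (HeightOneSpectrum (𝓞 E)), (∀ q ∈ Q, q ∉ B ∧ (nm q).Prime ∧
      ∀ P : HeightOneSpectrum (𝓞 M), P.asIdeal.comap (algebraMap (𝓞 E) (𝓞 M)) = q.asIdeal →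
        nm P ≠ nm q) ∧ 1 / 2 * Real.log (1 / (x - 1)) - C' ≤ ∑ q ∈ Q, (nm q : ℝ) ^ (-x) := by
  classical
  set ℓ := Module.finrank E M with hℓ
  have hℓ2 : 2 ≤ ℓ := h
  obtain ⟨B0, hB0⟩ := card_above (E := E) (M := M)
  obtain ⟨C, hC⟩ := sum_bdd E
  set B' : Finset (HeightOneSpectrum (𝓞 E)) := hB.toFinset ∪ B0 with hB'
  obtain ⟨S, hS⟩ : ∃ S : Set (HeightOneSpectrum (𝓞 E)), ∀ q, q ∈ S ↔ q ∉ B ∧ (nm q).Prime ∧
      ∀ P : HeightOneSpectrum (𝓞 M), P.asIdeal.comap (algebraMap (𝓞 E) (𝓞 M)) = q.asIdeal →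
        nm P ≠ nm q := ⟨_, fun _ => Iff.rfl⟩
  have hT : ∀ q : HeightOneSpectrum (𝓞 E), ∃ T : Finset (HeightOneSpectrum (𝓞 M)),
      (nm q).Prime → q ∉ B' → q ∉ S → T.card = ℓ ∧
        ∀ P ∈ T, P.asIdeal.comap (algebraMap (𝓞 E) (𝓞 M)) = q.asIdeal ∧ nm P = nm q := by
    intro q
    by_cases hq : (nm q).Prime ∧ q ∉ B' ∧ q ∉ S
    · obtain ⟨hq1, hq2, hq0⟩ := hq
      rw [hB', Finset.mem_union, not_or] at hq2
      have hq3 : q ∉ B := fun h3 => hq2.1 (hB.mem_toFinset.2 h3)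
      rw [hS] at hq0
      push Not at hq0
      obtain ⟨T, hT1, hT2⟩ := hB0 q hq2.2 (hq0 hq3 hq1)
      exact ⟨T, fun _ _ _ => ⟨hT1, hT2⟩⟩
    · exact ⟨∅, fun h1 h2 h3 => absurd ⟨h1, h2, h3⟩ hq⟩
  choose T hT using hT
  -- the product over the good primes
  have key1 : ∀ x : ℝ, 1 < x → ∀ Q : Finset (HeightOneSpectrum (𝓞 E)),
      (∀ q ∈ Q, (nm q).Prime ∧ q ∉ B' ∧ q ∉ S) → (∏ q ∈ Q, (1 - wt x q)⁻¹) ^ ℓ ≤ zt M x := by
    intro x hx Q hQ
    have h1 := prod_le_zt M hx (Q.biUnion T)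
    have hdisj : ∀ q ∈ Q, ∀ q' ∈ Q, q ≠ q' → Disjoint (T q) (T q') := by
      intro q hq q' hq' hne
      rw [Finset.disjoint_left]
      intro P hP hP'
      apply hne
      have e1 := ((hT q (hQ q hq).1 (hQ q hq).2.1 (hQ q hq).2.2).2 P hP).1
      have e2 := ((hT q' (hQ q' hq').1 (hQ q' hq').2.1 (hQ q' hq').2.2).2 P hP').1
      exact HeightOneSpectrum.ext (e1.symm.trans e2)
    rw [Finset.prod_biUnion hdisj] at h1
    have h2 : ∀ q ∈ Q, ∏ P ∈ T q, (1 - wt x P)⁻¹ = ((1 - wt x q)⁻¹) ^ ℓ := by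
      intro q hq
      obtain ⟨e1, e2⟩ := hT q (hQ q hq).1 (hQ q hq).2.1 (hQ q hq).2.2
      rw [← e1, ← Finset.prod_const]
      refine Finset.prod_congr rfl fun P hP => ?_
      rw [wt, wt, (e2 P hP).2]
    rw [Finset.prod_congr rfl h2, Finset.prod_pow] at h1
    exact h1
  -- the bad primes
  set K : ℝ := 2 ^ B'.card * Real.exp (3 * C) with hK
  have hK0 : 0 < K := by positivity
  have key2 : ∀ x : ℝ, 1 < x → ∀ D : ℝ, (∀ Q : Finset (HeightOneSpectrum (𝓞 E)),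
      (∀ q ∈ Q, q ∈ S) → ∑ q ∈ Q, wt x q ≤ D) → ∀ Q : Finset (HeightOneSpectrum (𝓞 E)),
      ∏ q ∈ Q, (1 - wt x q)⁻¹ ≤
        (K * Real.exp D) *
          ∏ q ∈ Q.filter (fun q => (nm q).Prime ∧ q ∉ B' ∧ q ∉ S), (1 - wt x q)⁻¹ := by
    intro x hx D hD Q
    have hfac : ∀ q : HeightOneSpectrum (𝓞 E), 0 ≤ (1 - wt x q)⁻¹ := fun q =>
      zero_le_one.trans (pv_one_le_fac hx q)
    have hKD : K * Real.exp D = 2 ^ B'.card * ((Real.exp (D + C)) * Real.exp (2 * C)) := by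
      rw [hK, ← Real.exp_add, mul_assoc, ← Real.exp_add]
      congr 2
      ring
    rw [hKD, ← Finset.prod_filter_mul_prod_filter_not Q
      (fun q => (nm q).Prime ∧ q ∉ B' ∧ q ∉ S), mul_comm]
    refine mul_le_mul_of_nonneg_right ?_ (Finset.prod_nonneg fun q _ => hfac q)
    rw [← Finset.prod_filter_mul_prod_filter_not
      (Q.filter (fun q => ¬ ((nm q).Prime ∧ q ∉ B' ∧ q ∉ S))) (fun q => q ∈ B')]
    refine mul_le_mul ?_ ?_ (Finset.prod_nonneg fun q _ => hfac q) (by positivity)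
    · calc ∏ q ∈ (Q.filter (fun q => ¬ ((nm q).Prime ∧ q ∉ B' ∧ q ∉ S))).filter (fun q => q ∈ B'),
            (1 - wt x q)⁻¹
          ≤ ∏ q ∈ (Q.filter (fun q => ¬ ((nm q).Prime ∧ q ∉ B' ∧ q ∉ S))).filter
              (fun q => q ∈ B'),
            (2 : ℝ) := Finset.prod_le_prod (fun q _ => hfac q) fun q _ => pv_fac_le_two hx q
        _ = 2 ^ ((Q.filter (fun q => ¬ ((nm q).Prime ∧ q ∉ B' ∧ q ∉ S))).filter
              (fun q => q ∈ B')).card := Finset.prod_const _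
        _ ≤ 2 ^ B'.card := by
            refine pow_le_pow_right₀ (by norm_num) (Finset.card_le_card ?_)
            intro q hq
            exact (Finset.mem_filter.1 hq).2
    · rw [← Finset.prod_filter_mul_prod_filter_not
        ((Q.filter (fun q => ¬ ((nm q).Prime ∧ q ∉ B' ∧ q ∉ S))).filter (fun q => ¬ q ∈ B'))
        (fun q => q ∈ S)]
      refine mul_le_mul ?_ ?_ (Finset.prod_nonneg fun q _ => hfac q) (by positivity)
      · refine (Finset.prod_le_prod (fun q _ => hfac q) fun q _ => pv_fac_le_exp2 hx q).trans ?_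
        rw [← Real.exp_sum, Finset.sum_add_distrib]
        refine Real.exp_le_exp.2 (add_le_add ?_ ?_)
        · exact hD _ fun q hq => (Finset.mem_filter.1 hq).2
        · refine le_trans (le_of_eq ?_) (hC (((Q.filter
            (fun q => ¬ ((nm q).Prime ∧ q ∉ B' ∧ q ∉ S))).filter
              (fun q => ¬ q ∈ B')).filter (fun q => q ∈ S)))
          refine Finset.sum_congr rfl fun q hq => ?_
          rw [if_pos ((hS q).1 (Finset.mem_filter.1 hq).2).2.1]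
      · have hbad : ∀ q ∈ ((Q.filter (fun q => ¬ ((nm q).Prime ∧ q ∉ B' ∧ q ∉ S))).filter
            (fun q => ¬ q ∈ B')).filter (fun q => ¬ q ∈ S), ¬ (nm q).Prime := by
          intro q hq hp
          rw [Finset.mem_filter, Finset.mem_filter, Finset.mem_filter] at hq
          exact hq.1.1.2 ⟨hp, hq.1.2, hq.2⟩
        refine (Finset.prod_le_prod (fun q _ => hfac q) fun q _ => pv_fac_le_exp hx q).trans ?_
        rw [← Real.exp_sum, ← Finset.mul_sum]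
        refine Real.exp_le_exp.2 (mul_le_mul_of_nonneg_left ?_ (by norm_num))
        refine le_trans (le_of_eq ?_) (hC (((Q.filter
          (fun q => ¬ ((nm q).Prime ∧ q ∉ B' ∧ q ∉ S))).filter
            (fun q => ¬ q ∈ B')).filter (fun q => ¬ q ∈ S)))
        refine Finset.sum_congr rfl fun q hq => ?_
        rw [if_neg (hbad q hq)]
  -- comparison of the zeta functions
  have key3 : ∀ x : ℝ, 1 < x → ∀ D : ℝ, (∀ Q : Finset (HeightOneSpectrum (𝓞 E)),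
      (∀ q ∈ Q, q ∈ S) → ∑ q ∈ Q, wt x q ≤ D) →
      zt E x ^ ℓ ≤ (K * Real.exp D) ^ ℓ * zt M x := by
    intro x hx D hD
    have hM1 : 1 ≤ zt M x := by
      have h1 := key1 x hx ∅ (by simp)
      simpa using h1
    have hE1 : 1 ≤ zt E x := by
      have h1 := prod_le_zt E hx ∅
      simpa using h1
    have hc0 : 0 ≤ (K * Real.exp D) ^ ℓ * zt M x := by positivity
    have hℓ0 : (ℓ : ℝ) ≠ 0 := by exact_mod_cast (by omega : ℓ ≠ 0)
    have hpow : (((K * Real.exp D) ^ ℓ * zt M x) ^ (1 / (ℓ : ℝ))) ^ ℓ =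
        (K * Real.exp D) ^ ℓ * zt M x := by
      rw [← Real.rpow_natCast, ← Real.rpow_mul hc0, one_div_mul_cancel hℓ0, Real.rpow_one]
    have h2 : zt E x ≤ ((K * Real.exp D) ^ ℓ * zt M x) ^ (1 / (ℓ : ℝ)) := by
      refine zt_le E hx _ fun S1 hS1 => ?_
      obtain ⟨Q, hQ⟩ := sum_le_prod E hx S1 hS1
      have h3 := hQ.trans (key2 x hx D hD Q)
      have h4 := key1 x hx (Q.filter (fun q => (nm q).Prime ∧ q ∉ B' ∧ q ∉ S))
        (fun q hq => (Finset.mem_filter.1 hq).2)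
      refine h3.trans ?_
      refine le_of_pow_le_pow_left₀ (by omega : ℓ ≠ 0) (by positivity) ?_
      rw [hpow, mul_pow]
      exact mul_le_mul_of_nonneg_left h4 (by positivity)
    calc zt E x ^ ℓ ≤ (((K * Real.exp D) ^ ℓ * zt M x) ^ (1 / (ℓ : ℝ))) ^ ℓ :=
          pow_le_pow_left₀ (by linarith) h2 _
      _ = (K * Real.exp D) ^ ℓ * zt M x := hpow
  -- the poles
  obtain ⟨ρ, hρ, hlE⟩ := zt_tendsto E
  obtain ⟨ρ', hρ', hlM⟩ := zt_tendsto M
  have he1 : ∀ᶠ x in 𝓝[>] (1 : ℝ), ρ / 2 < (x - 1) * zt E x :=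
    hlE.eventually (lt_mem_nhds (by linarith))
  have he2 : ∀ᶠ x in 𝓝[>] (1 : ℝ), (x - 1) * zt M x < 2 * ρ' :=
    hlM.eventually (gt_mem_nhds (by linarith))
  obtain ⟨b, hb1, hb⟩ := (mem_nhdsGT_iff_exists_Ioo_subset).1 (he1.and he2)
  have hb1' : (1 : ℝ) < b := hb1
  set c : ℝ := (ρ / 2) ^ ℓ / (K ^ ℓ * (2 * ρ')) with hc
  have hc0 : 0 < c := by positivity
  refine ⟨|Real.log c| + 1, min (b - 1) 1, lt_min (by linarith) one_pos, fun x hx1 hx2 => ?_⟩
  have hxb : x < b := by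
    have := min_le_left (b - 1) 1
    linarith
  have hx2' : x < 2 := by
    have := min_le_right (b - 1) 1
    linarith
  obtain ⟨hz1, hz2⟩ : ρ / 2 < (x - 1) * zt E x ∧ (x - 1) * zt M x < 2 * ρ' := hb ⟨hx1, hxb⟩
  by_contra hcon
  push Not at hcon
  set D : ℝ := 1 / 2 * Real.log (1 / (x - 1)) - (|Real.log c| + 1) with hD
  have hDS : ∀ Q : Finset (HeightOneSpectrum (𝓞 E)),
      (∀ q ∈ Q, q ∈ S) → ∑ q ∈ Q, wt x q ≤ D := fun Q hQ =>
    (hcon Q fun q hq => (hS q).1 (hQ q hq)).le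
  have h3 := key3 x hx1 D hDS
  have hy : 0 < x - 1 := by linarith
  -- `c ≤ exp (ℓ D) (x - 1) ^ (ℓ - 1)`
  have h4 : (ρ / 2) ^ ℓ ≤ (x - 1) ^ (ℓ - 1) * (K ^ ℓ * Real.exp (ℓ * D) * (2 * ρ')) := by
    have h5 : (ρ / 2) ^ ℓ ≤ ((x - 1) * zt E x) ^ ℓ := pow_le_pow_left₀ (by positivity) hz1.le _
    have h6 : ((x - 1) * zt E x) ^ ℓ ≤ (x - 1) ^ ℓ * ((K * Real.exp D) ^ ℓ * zt M x) := by
      rw [mul_pow]
      exact mul_le_mul_of_nonneg_left h3 (by positivity)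
    have h7 : (x - 1) ^ ℓ = (x - 1) ^ (ℓ - 1) * (x - 1) := by
      rw [← pow_succ, Nat.sub_add_cancel (by omega)]
    have h8 : (K * Real.exp D) ^ ℓ = K ^ ℓ * Real.exp (ℓ * D) := by
      rw [mul_pow, ← Real.exp_nat_mul]
    rw [h7, h8] at h6
    refine h5.trans (h6.trans ?_)
    have h9 : (x - 1) ^ (ℓ - 1) * (x - 1) * (K ^ ℓ * Real.exp (ℓ * D) * zt M x) =
        (x - 1) ^ (ℓ - 1) * (K ^ ℓ * Real.exp (ℓ * D) * ((x - 1) * zt M x)) := by ring
    rw [h9]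
    refine mul_le_mul_of_nonneg_left ?_ (by positivity)
    exact mul_le_mul_of_nonneg_left hz2.le (by positivity)
  have h5 : c ≤ (x - 1) ^ (ℓ - 1) * Real.exp (ℓ * D) := by
    rw [hc, div_le_iff₀ (by positivity)]
    refine h4.trans (le_of_eq (by ring))
  have h6 : Real.log c ≤ (ℓ - 1 : ℕ) * Real.log (x - 1) + ℓ * D := by
    have h7 := Real.log_le_log hc0 h5
    rwa [Real.log_mul (by positivity) (Real.exp_ne_zero _), Real.log_pow, Real.log_exp] at h7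
  have hL : 0 ≤ Real.log (1 / (x - 1)) := Real.log_nonneg (by
    rw [le_div_iff₀ hy]
    linarith)
  have hLe : Real.log (x - 1) = -Real.log (1 / (x - 1)) := by
    rw [one_div, Real.log_inv, neg_neg]
  set Λ := Real.log (1 / (x - 1)) with hΛ
  have hl2 : (2 : ℝ) ≤ ℓ := by exact_mod_cast hℓ2
  have hl1 : ((ℓ - 1 : ℕ) : ℝ) = ℓ - 1 := by
    rw [Nat.cast_sub (by omega), Nat.cast_one]
  rw [hLe, hl1] at h6
  have h7 : -|Real.log c| ≤ Real.log c := neg_abs_le _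
  have h8 : (ℓ : ℝ) * D = ℓ / 2 * Λ - ℓ * (|Real.log c| + 1) := by
    rw [hD]
    ring
  have h9 : ((ℓ : ℝ) / 2 - 1) * Λ ≥ 0 := mul_nonneg (by linarith) hL
  have h10 : (ℓ : ℝ) * (|Real.log c| + 1) ≥ |Real.log c| + 1 := by
    have : 0 ≤ |Real.log c| := abs_nonneg _
    nlinarith
  nlinarith

end Pool.Agent.Helper37.PV
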