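import Mathlib
import Pool.Agent.Helper95.FC.Sieve2
import Pool.Agent.Helper12.LR.Div

/-!
# PV: the sieve upper bound and a finite set of shifts
-/

set_option autoImplicit false

namespace Pool.Agent.Helper37.PV

open Pool.Agent.Helper95.FC

theorem FF_le_exp (x : ℕ → ℝ) (Q : List ℕ) (hx : ∀ q ∈ Q, 0 ≤ x q ∧ x q ≤ 1 / 2) :
    FF x Q ≤ Real.exp (-LL x Q) := by
  induction Q with
  | nil => simp [FF_nil, LL_nil]
  | cons q Q ih =>
    obtain ⟨h1, h2⟩ := hx q List.mem_cons_self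
    have ih := ih fun q' h => hx q' (List.mem_cons_of_mem _ h)
    rw [FF_cons, LL_cons, neg_add, Real.exp_add]
    have h3 : 1 - x q ≤ Real.exp (-x q) := by
      have := Real.add_one_le_exp (-x q)
      linarith
    have h4 : 0 ≤ FF x Q := by
      have := (FF_bounds x Q fun q' h => hx q' (List.mem_cons_of_mem _ h)).1
      exact (Real.exp_pos _).le.trans this
    exact mul_le_mul h3 ih h4 (Real.exp_pos _).le

theorem sieve_upper (E : ℕ → Finset ℕ) (N : ℕ) (Q : List ℕ) (r : ℕ) (hr : Even r)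
    (hQ : ∀ q ∈ Q, 0 < q ∧ (∀ e ∈ E q, e < q) ∧ ((E q).card : ℝ) / q ≤ 1 / 2)
    (hP : Q.Pairwise Nat.Coprime) :
    ((good E N Q 1 0).card : ℝ) ≤
      N * (Real.exp (-LL (fun q => ((E q).card : ℝ) / q) Q) +
        LL (fun q => ((E q).card : ℝ) / q) Q ^ (r + 1) / (r + 1).factorial) +
      (1 + LL (fun q => ((E q).card : ℝ)) Q) ^ r := by
  set x : ℕ → ℝ := fun q => ((E q).card : ℝ) / q with hx
  have hx1 : ∀ q ∈ Q, 0 ≤ x q ∧ x q ≤ 1 / 2 := fun q h => ⟨by positivity, (hQ q h).2.2⟩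
  have b1 := (bonf E N Q r 1 0 one_pos
    (fun q h => ⟨(hQ q h).1, Nat.coprime_one_left q, (hQ q h).2.1⟩) hP).1 hr
  have b2 := (TT_bounds x Q hx1 r).1 hr
  have b3 := FF_le_exp x Q hx1
  have b4 := RR_bound (fun q => ((E q).card : ℝ)) Q (fun q => Nat.cast_nonneg _) r
  rw [Nat.cast_one, div_one] at b1
  refine b1.trans (add_le_add (mul_le_mul_of_nonneg_left ?_ (Nat.cast_nonneg _)) b4)
  linarith [b2.2]

theorem exists_fin (q : ℕ) (hq : q ≠ 0) (c : ZMod q) (hc : IsUnit c) (b : ℕ) (κ : ℝ) :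
    ∃ S : Finset ℕ, (∀ l ∈ S, b < l ∧ l.Prime ∧ (l : ZMod q) = c) ∧
      κ ≤ ∑ l ∈ S, (1 : ℝ) / l := by
  classical
  have hne : NeZero q := ⟨hq⟩
  have h1 := Pool.Agent.Helper12.LR.not_summable_prime hc
  by_contra hcon
  push Not at hcon
  apply h1
  refine summable_of_sum_le (c := κ + ∑ n ∈ Finset.range (b + 1), (1 : ℝ) / n) (fun n => ?_)
    fun u => ?_
  · split_ifs <;> positivity
  · have h2 : ∑ n ∈ u, (if n.Prime ∧ (n : ZMod q) = c then (1 : ℝ) / n else 0) =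
        ∑ n ∈ u.filter (fun n : ℕ => n.Prime ∧ (n : ZMod q) = c), (1 : ℝ) / n :=
      (Finset.sum_filter _ _).symm
    rw [h2, ← Finset.sum_filter_add_sum_filter_not
      (u.filter (fun n : ℕ => n.Prime ∧ (n : ZMod q) = c)) (fun n => b < n)]
    refine add_le_add ?_ ?_
    · refine (hcon _ fun l hl => ?_).le
      rw [Finset.mem_filter, Finset.mem_filter] at hl
      exact ⟨hl.2, hl.1.2⟩
    · refine Finset.sum_le_sum_of_subset_of_nonneg ?_ fun _ _ _ => by positivity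
      intro n hn
      rw [Finset.mem_filter] at hn
      rw [Finset.mem_range]
      omega

end Pool.Agent.Helper37.PV
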