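import Mathlib

/-!
# PV, elementary part: the choice of the parameters

`g` is irreducible with positive leading coefficient, `a ≥ 1`. There are `x₀` and primes `p₀`, `ℓ`
with `p₀ ∣ g(x₀) + ℓ`, `p₀ ∤ g'(x₀)` and `p₀ ^ k = -1 mod a ℓ` for some `k`.
-/

set_option autoImplicit false

namespace Pool.Agent.Helper37.PV

open Filter

theorem eval_large (g : Polynomial ℤ) (hd : 0 < g.natDegree) (hlc : 0 < g.leadingCoeff) (K : ℤ) :
    ∃ B : ℤ, ∀ x : ℤ, B ≤ x → K < g.eval x := by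
  have hinj : Function.Injective (Int.castRingHom ℝ) := Int.cast_injective
  have h1 : Tendsto (fun x : ℝ => (g.map (Int.castRingHom ℝ)).eval x) atTop atTop := by
    refine Polynomial.tendsto_atTop_of_leadingCoeff_nonneg _ ?_ ?_
    · rw [Polynomial.degree_map_eq_of_injective hinj]
      exact Polynomial.natDegree_pos_iff_degree_pos.1 hd
    · rw [Polynomial.leadingCoeff_map_of_injective hinj]
      simpa using hlc.le
  have h2 : Tendsto (fun x : ℤ => (g.map (Int.castRingHom ℝ)).eval (x : ℝ)) atTop atTop :=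
    h1.comp tendsto_intCast_atTop_atTop
  obtain ⟨B, hB⟩ := (h2.eventually_gt_atTop (K : ℝ)).exists_forall_of_atTop
  refine ⟨B, fun x hx => ?_⟩
  have h3 := hB x hx
  rw [Polynomial.eval_map, Polynomial.eval₂_at_intCast] at h3
  simpa using h3

/-- a polynomial which is irreducible over `ℚ` and its derivative have no common prime factor
outside a finite set -/
theorem exists_res (g : Polynomial ℤ) (hirr : Irreducible (g.map (Int.castRingHom ℚ))) :
    ∃ R : ℤ, R ≠ 0 ∧ ∀ (p n : ℤ), p ∣ g.eval n → p ∣ g.derivative.eval n → p ∣ R := by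
  have hsep : (g.map (Int.castRingHom ℚ)).Separable := hirr.separable
  obtain ⟨u, v, huv⟩ := hsep
  obtain ⟨b1, hb1m, hb1⟩ := IsLocalization.integerNormalization_spec (nonZeroDivisors ℤ) u
  obtain ⟨b2, hb2m, hb2⟩ := IsLocalization.integerNormalization_spec (nonZeroDivisors ℤ) v
  set U := IsLocalization.integerNormalization (nonZeroDivisors ℤ) u with hU
  set V := IsLocalization.integerNormalization (nonZeroDivisors ℤ) v with hV
  have hb1' : U.map (Int.castRingHom ℚ) = Polynomial.C (b1 : ℚ) * u := by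
    have h1 : (algebraMap ℤ ℚ) = Int.castRingHom ℚ := rfl
    rw [← h1, hb1, ← Int.cast_smul_eq_zsmul ℚ, Polynomial.smul_eq_C_mul]
  have hb2' : V.map (Int.castRingHom ℚ) = Polynomial.C (b2 : ℚ) * v := by
    have h1 : (algebraMap ℤ ℚ) = Int.castRingHom ℚ := rfl
    rw [← h1, hb2, ← Int.cast_smul_eq_zsmul ℚ, Polynomial.smul_eq_C_mul]
  have hinj : Function.Injective (Int.castRingHom ℚ) := Int.cast_injective
  have key : Polynomial.C b2 * U * g + Polynomial.C b1 * V * Polynomial.derivative g =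
      Polynomial.C (b1 * b2) := by
    apply Polynomial.map_injective _ hinj
    rw [Polynomial.map_add, Polynomial.map_mul, Polynomial.map_mul, Polynomial.map_mul,
      Polynomial.map_mul, Polynomial.map_C, Polynomial.map_C, Polynomial.map_C, hb1', hb2',
      ← Polynomial.derivative_map]
    have h2 : Polynomial.C ((Int.castRingHom ℚ) (b1 * b2)) =
        Polynomial.C (b1 : ℚ) * Polynomial.C (b2 : ℚ) := by
      rw [← Polynomial.C_mul]
      simp
    rw [h2]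
    have h3 : Polynomial.C ((Int.castRingHom ℚ) b2) = Polynomial.C (b2 : ℚ) := by simp
    have h4 : Polynomial.C ((Int.castRingHom ℚ) b1) = Polynomial.C (b1 : ℚ) := by simp
    rw [h3, h4]
    linear_combination (Polynomial.C (b1 : ℚ) * Polynomial.C (b2 : ℚ)) * huv
  refine ⟨b1 * b2, mul_ne_zero (nonZeroDivisors.ne_zero hb1m) (nonZeroDivisors.ne_zero hb2m),
    fun p n h1 h2 => ?_⟩
  have h3 := congrArg (Polynomial.eval n) key
  rw [Polynomial.eval_add, Polynomial.eval_mul, Polynomial.eval_mul, Polynomial.eval_mul,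
    Polynomial.eval_mul, Polynomial.eval_C, Polynomial.eval_C, Polynomial.eval_C] at h3
  rw [← h3]
  exact dvd_add (Dvd.dvd.mul_left h1 _) (Dvd.dvd.mul_left h2 _)

/-- a value with a prime factor of multiplicity one outside a given finite set of primes -/
theorem exists_val_one (g : Polynomial ℤ) (hirr : Irreducible (g.map (Int.castRingHom ℚ)))
    (hlc : 0 < g.leadingCoeff) (a : ℕ) (ha : 0 < a) :
    ∃ (r : ℕ) (x₀ : ℤ) (A : ℕ), r.Prime ∧ ¬ r ∣ 2 * a ∧ 0 < A ∧ ¬ r ∣ A ∧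
      g.eval x₀ = r * A ∧ g.derivative.eval x₀ ≠ 0 := by
  have hinj : Function.Injective (Int.castRingHom ℚ) := Int.cast_injective
  have hd : 0 < g.natDegree := by
    have h1 : 0 < (g.map (Int.castRingHom ℚ)).natDegree := hirr.natDegree_pos
    rwa [Polynomial.natDegree_map_eq_of_injective hinj] at h1
  obtain ⟨R, hR, hR1⟩ := exists_res g hirr
  obtain ⟨B, hB⟩ := eval_large g hd hlc 0
  -- a value `c`
  set b : ℤ := B with hb
  have hc : 0 < g.eval b := hB b le_rfl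
  set c : ℤ := g.eval b with hcd
  set P : ℤ := 2 * a * R ^ 2 with hP
  have hPpos : 0 < P := by
    have h1 : 0 < R ^ 2 := by positivity
    have h2 : (0 : ℤ) < a := by exact_mod_cast ha
    positivity
  obtain ⟨B', hB'⟩ := eval_large g hd hlc c
  -- a large argument
  obtain ⟨t, ht⟩ : ∃ t : ℤ, B' ≤ b + c * P * t := by
    refine ⟨|B' - b|, ?_⟩
    have h1 : 1 ≤ c * P := by
      have := mul_pos hc hPpos
      omega
    have h2 : B' - b ≤ |B' - b| := le_abs_self _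
    have h3 : 0 ≤ |B' - b| := abs_nonneg _
    nlinarith
  have h1 : c < g.eval (b + c * P * t) := hB' _ ht
  have h2 : c * P * t ∣ g.eval (b + c * P * t) - c := by
    have h3 := Polynomial.sub_dvd_eval_sub (b + c * P * t) b g
    rwa [add_sub_cancel_left] at h3
  obtain ⟨s, hs⟩ := h2
  have h3 : g.eval (b + c * P * t) = c * (1 + P * (t * s)) := by linear_combination hs
  have h4 : 1 < 1 + P * (t * s) := by
    rw [h3] at h1
    by_contra h5
    push Not at h5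
    nlinarith
  -- a prime factor `r` of the cofactor
  set q : ℕ := (1 + P * (t * s)).toNat with hq
  have hq1 : (q : ℤ) = 1 + P * (t * s) := Int.toNat_of_nonneg (by omega)
  have hq2 : q ≠ 1 := by omega
  set r := q.minFac with hr
  have hrp : r.Prime := Nat.minFac_prime hq2
  have hrq : (r : ℤ) ∣ 1 + P * (t * s) := by
    rw [← hq1]
    exact_mod_cast Nat.minFac_dvd q
  have hrz : Prime (r : ℤ) := Nat.prime_iff_prime_int.1 hrp
  have hrP : ¬ (r : ℤ) ∣ P := by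
    intro h5
    have h6 : (r : ℤ) ∣ 1 := by
      have h7 := dvd_sub hrq (Dvd.dvd.mul_right h5 (t * s))
      rwa [add_sub_cancel_right] at h7
    exact hrz.not_isUnit (isUnit_of_dvd_one h6)
  set x₁ := b + c * P * t with hx₁
  have hrx₁ : (r : ℤ) ∣ g.eval x₁ := by
    rw [h3]
    exact Dvd.dvd.mul_left hrq _
  have hr2a : ¬ r ∣ 2 * a := by
    intro h5
    apply hrP
    rw [hP]
    exact Dvd.dvd.mul_right (by exact_mod_cast h5) _
  have hrR : ¬ (r : ℤ) ∣ R := by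
    intro h5
    apply hrP
    rw [hP]
    exact Dvd.dvd.mul_left (Dvd.dvd.pow h5 two_ne_zero) _
  have hder : ∀ x : ℤ, (r : ℤ) ∣ g.eval x → ¬ (r : ℤ) ∣ g.derivative.eval x :=
    fun x h5 h6 => hrR (hR1 _ _ h5 h6)
  -- multiplicity one
  have hx2 : ∃ x₂ : ℤ, (r : ℤ) ∣ g.eval x₂ ∧ ¬ (r : ℤ) ^ 2 ∣ g.eval x₂ := by
    by_cases h5 : (r : ℤ) ^ 2 ∣ g.eval x₁
    · refine ⟨x₁ + r, ?_, ?_⟩
      · have h6 := Polynomial.sub_dvd_eval_sub (x₁ + r) x₁ g
        rw [add_sub_cancel_left] at h6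
        have h7 := dvd_add h6 hrx₁
        rwa [sub_add_cancel] at h7
      · intro h6
        apply hder x₁ hrx₁
        obtain ⟨k, hk⟩ := Polynomial.binomExpansion g x₁ (r : ℤ)
        obtain ⟨k1, hk1⟩ := h5
        obtain ⟨k2, hk2⟩ := h6
        refine ⟨k2 - k1 - k, ?_⟩
        have hr0 : (r : ℤ) ≠ 0 := hrz.ne_zero
        have h7 : g.derivative.eval x₁ * (r : ℤ) = (r : ℤ) * (k2 - k1 - k) * (r : ℤ) := by
          linear_combination hk2 - hk1 - hk
        exact mul_right_cancel₀ hr0 h7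
    · exact ⟨x₁, hrx₁, h5⟩
  obtain ⟨x₂, hx₂, hx₂'⟩ := hx2
  have hrpos : (0 : ℤ) < r := by exact_mod_cast hrp.pos
  obtain ⟨t', ht'⟩ : ∃ t' : ℤ, B ≤ x₂ + (r : ℤ) ^ 2 * t' := by
    refine ⟨|B - x₂|, ?_⟩
    have h5 : 1 ≤ (r : ℤ) ^ 2 := by
      have := pow_pos hrpos 2
      omega
    have h6 : B - x₂ ≤ |B - x₂| := le_abs_self _
    have h7 : 0 ≤ |B - x₂| := abs_nonneg _
    nlinarith
  set x₀ := x₂ + (r : ℤ) ^ 2 * t' with hx₀
  have h5 : (r : ℤ) ^ 2 ∣ g.eval x₀ - g.eval x₂ := by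
    have h6 := Polynomial.sub_dvd_eval_sub x₀ x₂ g
    rw [hx₀, add_sub_cancel_left] at h6
    exact (Dvd.intro _ rfl).trans h6
  have h6 : (r : ℤ) ∣ g.eval x₀ := by
    have h7 := dvd_add ((Dvd.intro_left _ (by rw [pow_succ, pow_one]) :
      (r : ℤ) ∣ (r : ℤ) ^ 2).trans h5) hx₂
    rwa [sub_add_cancel] at h7
  have h7 : ¬ (r : ℤ) ^ 2 ∣ g.eval x₀ := by
    intro h8
    apply hx₂'
    have h9 := dvd_sub h8 h5
    rwa [sub_sub_cancel] at h9
  have h8 : 0 < g.eval x₀ := hB _ ht'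
  obtain ⟨A, hA⟩ := h6
  have hA0 : 0 < A := by
    rw [hA] at h8
    exact (mul_pos_iff_of_pos_left hrpos).1 h8
  refine ⟨r, x₀, A.toNat, hrp, hr2a, by omega, ?_, ?_, ?_⟩
  · intro h9
    apply h7
    have h10 : (r : ℤ) ∣ A := by
      have h11 : (r : ℤ) ∣ (A.toNat : ℤ) := by exact_mod_cast h9
      rwa [Int.toNat_of_nonneg hA0.le] at h11
    rw [hA, pow_succ, pow_one]
    exact mul_dvd_mul_left _ h10
  · rw [Int.toNat_of_nonneg hA0.le]
    exact hA
  · intro h9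
    apply hder x₀ (Dvd.intro _ hA.symm)
    rw [h9]
    exact dvd_zero _

/-- Dirichlet for two coprime moduli -/
theorem dirichlet_two {m1 m2 : ℕ} (hm1 : m1 ≠ 0) (hm2 : m2 ≠ 0) (hcop : m1.Coprime m2)
    {a1 a2 : ℤ} (h1 : IsCoprime a1 (m1 : ℤ)) (h2 : IsCoprime a2 (m2 : ℤ)) (n : ℕ) :
    ∃ p : ℕ, n < p ∧ p.Prime ∧ (p : ℤ) ≡ a1 [ZMOD m1] ∧ (p : ℤ) ≡ a2 [ZMOD m2] := by
  obtain ⟨u, v, huv⟩ := Nat.isCoprime_iff_coprime.2 hcop
  set w : ℤ := a1 * (v * m2) + a2 * (u * m1) with hw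
  have hw1 : w ≡ a1 [ZMOD m1] := by
    refine (Int.modEq_iff_dvd.2 ⟨u * (a1 - a2), ?_⟩)
    rw [hw]
    linear_combination (-a1) * huv
  have hw2 : w ≡ a2 [ZMOD m2] := by
    refine (Int.modEq_iff_dvd.2 ⟨v * (a2 - a1), ?_⟩)
    rw [hw]
    linear_combination (-a2) * huv
  have hc1 : IsCoprime w (m1 : ℤ) := by
    obtain ⟨k, hk⟩ := Int.modEq_iff_dvd.1 hw1
    have h3 : w = a1 + (-k) * m1 := by linear_combination -hk
    rw [h3]
    exact h1.add_mul_right_left _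
  have hc2 : IsCoprime w (m2 : ℤ) := by
    obtain ⟨k, hk⟩ := Int.modEq_iff_dvd.1 hw2
    have h3 : w = a2 + (-k) * m2 := by linear_combination -hk
    rw [h3]
    exact h2.add_mul_right_left _
  have hc : IsCoprime w ((m1 * m2 : ℕ) : ℤ) := by
    rw [Nat.cast_mul]
    exact hc1.mul_right hc2
  obtain ⟨p, hp, hpp, hpw⟩ := Nat.forall_exists_prime_gt_and_zmodEq n (mul_ne_zero hm1 hm2) hc
  refine ⟨p, hp, hpp, ?_, ?_⟩
  · have h3 : (p : ℤ) ≡ w [ZMOD (m1 : ℤ)] := by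
      rw [Nat.cast_mul] at hpw
      exact hpw.of_mul_right _
    exact h3.trans hw1
  · have h3 : (p : ℤ) ≡ w [ZMOD (m2 : ℤ)] := by
      rw [Nat.cast_mul] at hpw
      exact hpw.of_mul_left _
    exact h3.trans hw2

open NumberTheorySymbols in
/-- the step with quadratic reciprocity -/
theorem jac_step {c d : ℕ} (hc : Odd c) (hd : d % 4 = 3) {t : ℤ} (ht : jacobiSym t c = -1)
    (h : (d : ℤ) ≡ -t [ZMOD c]) : jacobiSym (c : ℤ) d = -1 := by
  have h1 : jacobiSym (d : ℤ) c = jacobiSym (-t) c := jacobiSym.mod_left' h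
  rw [jacobiSym.neg _ hc, ht] at h1
  have hd' : Odd d := Nat.odd_iff.2 (by omega)
  have h2 : c % 4 = 1 ∨ c % 4 = 3 := by
    have := Nat.odd_iff.1 hc
    omega
  rcases h2 with h2 | h2
  · rw [jacobiSym.quadratic_reciprocity_one_mod_four h2 hd', h1, ZMod.χ₄_nat_one_mod_four h2]
    norm_num
  · rw [jacobiSym.quadratic_reciprocity_three_mod_four h2 hd, h1,
      ZMod.χ₄_nat_three_mod_four h2]
    norm_num

/-- `(A / d) = 1` for `d = -1 mod 4 A` -/
theorem jac_neg_one {A d : ℕ} (hA : 0 < A) (h : (d : ℤ) ≡ -1 [ZMOD (4 * A : ℕ)]) :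
    jacobiSym (A : ℤ) d = 1 := by
  have h1 : d % (4 * A) = 4 * A - 1 := by
    have h2 : ((d + 1 : ℕ) : ℤ) ≡ 0 [ZMOD (4 * A : ℕ)] := by
      have := h.add_right 1
      simpa using this
    have h3 : 4 * A ∣ d + 1 := by
      have := Int.modEq_zero_iff_dvd.1 h2
      exact_mod_cast this
    obtain ⟨k, hk⟩ := h3
    have hk0 : 0 < k := by
      rcases Nat.eq_zero_or_pos k with h4 | h4
      · rw [h4] at hk
        omega
      · exact h4
    obtain ⟨k', rfl⟩ : ∃ k', k = k' + 1 := ⟨k - 1, by omega⟩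
    have h5 : d = (4 * A - 1) + (4 * A) * k' := by
      have : (4 * A) * (k' + 1) = 4 * A * k' + 4 * A := by ring
      omega
    rw [h5, Nat.add_mul_mod_self_left, Nat.mod_eq_of_lt (by omega)]
  have hodd : Odd d := by
    rw [Nat.odd_iff]
    have h2 : d % (4 * A) % 2 = d % 2 := Nat.mod_mod_of_dvd _ ⟨2 * A, by ring⟩
    omega
  rw [jacobiSym.mod_right' A hodd, h1]
  have hodd' : Odd (4 * A - 1) := by
    rw [Nat.odd_iff]
    omega
  have h3 : jacobiSym ((4 * A : ℕ) : ℤ) (4 * A - 1) = 1 := by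
    have h4 : jacobiSym ((4 * A : ℕ) : ℤ) (4 * A - 1) = jacobiSym 1 (4 * A - 1) := by
      refine jacobiSym.mod_left' ?_
      have h5 : ((4 * A : ℕ) : ℤ) = 1 + ((4 * A - 1 : ℕ) : ℤ) := by
        rw [Nat.cast_sub (by omega)]
        push_cast
        ring
      rw [h5, Int.add_emod_right]
    rw [h4, jacobiSym.one_left]
  rw [Nat.cast_mul, jacobiSym.mul_left] at h3
  have h4 : jacobiSym ((4 : ℕ) : ℤ) (4 * A - 1) = 1 := jacobiSym.at_four hodd'
  rwa [h4, one_mul] at h3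

/-- the parameters -/
theorem exists_params (g : Polynomial ℤ) (hirr : Irreducible (g.map (Int.castRingHom ℚ)))
    (hlc : 0 < g.leadingCoeff) (a : ℕ) (ha : 0 < a) :
    ∃ (l p₀ k : ℕ) (x₀ : ℤ), 0 < l ∧ p₀.Prime ∧ ¬ p₀ ∣ a * l ∧
      (p₀ : ℤ) ∣ g.eval x₀ + l ∧ ¬ (p₀ : ℤ) ∣ g.derivative.eval x₀ ∧
      (p₀ : ZMod (a * l)) ^ k = -1 := by
  obtain ⟨r, x₀, A, hr, hr2a, hA, hrA, hgx, hgx'⟩ := exists_val_one g hirr hlc a ha
  have hrf : Fact r.Prime := ⟨hr⟩
  have hr2 : r ≠ 2 := by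
    rintro rfl
    exact hr2a (Dvd.intro _ rfl)
  have hrodd : Odd r := hr.odd_of_ne_two hr2
  -- a nonresidue mod `r`
  obtain ⟨t, ht⟩ : ∃ t : ℤ, jacobiSym t r = -1 := by
    obtain ⟨y, hy⟩ := FiniteField.exists_nonsquare (F := ZMod r) (by
      rw [ZMod.ringChar_zmod_n]
      exact hr2)
    refine ⟨(y.val : ℤ), ?_⟩
    rw [← jacobiSym.legendreSym.to_jacobiSym, legendreSym.eq_neg_one_iff]
    simpa using hy
  have htr : ¬ (r : ℤ) ∣ t := by
    intro h1
    have h2 : jacobiSym t r = 0 := by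
      rw [jacobiSym.eq_zero_iff]
      refine ⟨hr.ne_zero, fun h3 => ?_⟩
      have h4 : (r : ℤ) ∣ 1 := by
        have h5 := Int.dvd_coe_gcd h1 (dvd_refl (r : ℤ))
        rwa [h3, Nat.cast_one] at h5
      exact (Nat.prime_iff_prime_int.1 hr).not_isUnit (isUnit_of_dvd_one h4)
    rw [ht] at h2
    norm_num at h2
  have hrz : Prime (r : ℤ) := Nat.prime_iff_prime_int.1 hr
  -- the prime `p₀`
  have hcop : (4 * A * a).Coprime r := by
    rw [Nat.coprime_comm, Nat.Prime.coprime_iff_not_dvd hr]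
    intro h1
    rcases (Nat.Prime.dvd_mul hr).1 h1 with h2 | h2
    · rcases (Nat.Prime.dvd_mul hr).1 h2 with h3 | h3
      · have h4 : r ∣ 2 := by
          have h5 : r ∣ 2 ^ 2 := by
            rw [show (2 : ℕ) ^ 2 = 4 by norm_num]
            exact h3
          exact hr.dvd_of_dvd_pow h5
        exact hr2a (Dvd.dvd.mul_right h4 _)
      · exact hrA h3
    · exact hr2a (Dvd.dvd.mul_left h2 _)
  obtain ⟨p₀, hp₀b, hp₀, hp₁, hp₂⟩ := dirichlet_two (m1 := 4 * A * a) (m2 := r)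
    (a1 := -1) (a2 := -t) (by positivity) hr.ne_zero hcop (isCoprime_one_left.neg_left)
    (((Prime.coprime_iff_not_dvd hrz).2 htr).symm.neg_left)
    ((g.derivative.eval x₀).natAbs + r * A + a)
  have hp₀f : Fact p₀.Prime := ⟨hp₀⟩
  have hp₀z : Prime (p₀ : ℤ) := Nat.prime_iff_prime_int.1 hp₀
  have hp4A : (p₀ : ℤ) ≡ -1 [ZMOD (4 * A : ℕ)] := by
    have h1 : ((4 * A * a : ℕ) : ℤ) = ((4 * A : ℕ) : ℤ) * (a : ℤ) := by push_cast; ring
    rw [h1] at hp₁
    exact hp₁.of_mul_right _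
  have hpa : (p₀ : ℤ) ≡ -1 [ZMOD (a : ℕ)] := by
    have h1 : ((4 * A * a : ℕ) : ℤ) = ((4 * A : ℕ) : ℤ) * (a : ℤ) := by push_cast; ring
    rw [h1] at hp₁
    exact hp₁.of_mul_left _
  have hp4 : p₀ % 4 = 3 := by
    have h1 : (p₀ : ℤ) ≡ -1 [ZMOD 4] := by
      have h2 : ((4 * A : ℕ) : ℤ) = 4 * (A : ℤ) := by push_cast; ring
      rw [h2] at hp4A
      exact hp4A.of_mul_right _
    have h2 : (p₀ : ℤ) % 4 = (-1) % 4 := h1
    omega
  have hp₀odd : Odd p₀ := Nat.odd_iff.2 (by omega)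
  have hpr : p₀ ≠ r := by
    intro h1
    have h2 : r ≤ r * A := Nat.le_mul_of_pos_right _ hA
    omega
  -- `(g(x₀) / p₀) = -1`
  have hJ : jacobiSym (g.eval x₀) p₀ = -1 := by
    rw [hgx, jacobiSym.mul_left, jac_neg_one hA hp4A, mul_one]
    exact jac_step hrodd hp4 ht hp₂
  have hgnd : ¬ (p₀ : ℤ) ∣ g.eval x₀ := by
    rw [hgx]
    intro h1
    have h2 : p₀ ∣ r * A := by exact_mod_cast h1
    have h3 := Nat.le_of_dvd (Nat.mul_pos hr.pos hA) h2
    omega
  -- the prime `l`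
  have hcop4 : (4 : ℕ).Coprime p₀ := by
    rw [Nat.coprime_comm, Nat.Prime.coprime_iff_not_dvd hp₀]
    intro h1
    have h2 := Nat.le_of_dvd (by norm_num) h1
    interval_cases p₀ <;> simp_all
  obtain ⟨l, hlb, hl, hl1, hl2⟩ := dirichlet_two (m1 := 4) (m2 := p₀)
    (a1 := 3) (a2 := -(g.eval x₀)) (by norm_num) hp₀.ne_zero hcop4
    (by
      have : IsCoprime (3 : ℤ) ((4 : ℕ) : ℤ) := ⟨-1, 1, by norm_num⟩
      exact this)
    (((Prime.coprime_iff_not_dvd hp₀z).2 hgnd).symm.neg_left) (a + p₀)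
  have hlf : Fact l.Prime := ⟨hl⟩
  have hl4 : l % 4 = 3 := by
    have h2 : (l : ℤ) % 4 = 3 % 4 := hl1
    omega
  have hlJ : jacobiSym (p₀ : ℤ) l = -1 := jac_step hp₀odd hl4 hJ hl2
  have hpl : p₀ ≠ l := by omega
  refine ⟨l, p₀, l / 2, x₀, hl.pos, hp₀, ?_, ?_, ?_, ?_⟩
  · intro h1
    rcases (Nat.Prime.dvd_mul hp₀).1 h1 with h2 | h2
    · have h3 := Nat.le_of_dvd ha h2
      omega
    · exact hpl ((Nat.prime_dvd_prime_iff_eq hp₀ hl).1 h2)
  · have h1 := Int.modEq_iff_dvd.1 hl2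
    have h2 : -(g.eval x₀) - (l : ℤ) = -(g.eval x₀ + l) := by ring
    rw [h2, dvd_neg] at h1
    exact h1
  · intro h1
    have h2 := Int.le_of_dvd (abs_pos.2 hgx') ((dvd_abs _ _).2 h1)
    rw [Int.abs_eq_natAbs] at h2
    have h3 : p₀ ≤ (g.derivative.eval x₀).natAbs := by exact_mod_cast h2
    omega
  · -- `p₀ ^ (l / 2) = -1` modulo `a` and modulo `l`
    have hkodd : Odd (l / 2) := by
      rw [Nat.odd_iff]
      omega
    have h1 : (a : ℤ) ∣ (p₀ : ℤ) ^ (l / 2) + 1 := by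
      have h2 : (p₀ : ℤ) ^ (l / 2) ≡ (-1) ^ (l / 2) [ZMOD a] := hpa.pow _
      rw [hkodd.neg_one_pow] at h2
      have h3 := Int.modEq_iff_dvd.1 h2.symm
      rwa [sub_neg_eq_add] at h3
    have h2 : (l : ℤ) ∣ (p₀ : ℤ) ^ (l / 2) + 1 := by
      have h3 : legendreSym l (p₀ : ℤ) = -1 := by
        rw [jacobiSym.legendreSym.to_jacobiSym]
        exact hlJ
      have h4 := legendreSym.eq_pow l (p₀ : ℤ)
      rw [h3] at h4
      rw [← ZMod.intCast_zmod_eq_zero_iff_dvd]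
      push_cast
      push_cast at h4
      rw [← h4]
      ring
    have hal : IsCoprime (a : ℤ) (l : ℤ) := by
      rw [Nat.isCoprime_iff_coprime, Nat.coprime_comm, Nat.Prime.coprime_iff_not_dvd hl]
      intro h3
      have h4 := Nat.le_of_dvd ha h3
      omega
    have h3 : ((a * l : ℕ) : ℤ) ∣ (p₀ : ℤ) ^ (l / 2) + 1 := by
      rw [Nat.cast_mul]
      exact hal.mul_dvd h1 h2
    have h4 := (ZMod.intCast_zmod_eq_zero_iff_dvd _ (a * l)).2 h3
    push_cast at h4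
    exact eq_neg_of_add_eq_zero_left h4

end Pool.Agent.Helper37.PV
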