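import Mathlib
import Pool.Agent.Helper37.PV.An
import Pool.Agent.H96.TC.Fin

/-!
# PV, Galois part: the class of a prime with a simple root lies in every subgroup containing the
classes of all primes with a root, up to primes with a convergent sum

`F` is a polynomial with integer coefficients, `m` a modulus, `H` a subgroup of the units mod `m`.
If the primes `p` with a root of `F` mod `p` and class outside `H` have a bounded sum of `1/p`, then
every prime not dividing `m` with a simple root of `F` has its class in `H` (`class_mem`).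
Frobenius elements of the `m`-th cyclotomic extension of the field of a root, and `nonsplit_rec`.
-/

set_option autoImplicit false

open NumberField IsDedekindDomain

namespace Pool.Agent.Helper37.PV

open Pool.Agent.Helper45.TC

/-- Frobenius elements -/
theorem frob {E L : Type} [Field E] [NumberField E] [Field L] [NumberField L] [Algebra E L]
    [IsGalois E L] (q : HeightOneSpectrum (𝓞 E)) :
    ∃ (Q : HeightOneSpectrum (𝓞 L)) (σ : L ≃ₐ[E] L),
      Q.asIdeal.comap (algebraMap (𝓞 E) (𝓞 L)) = q.asIdeal ∧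
      (∀ x : 𝓞 L, σ • x - x ^ nm q ∈ Q.asIdeal) ∧
      ∀ (m : ℕ) (z : L), z ^ m = 1 → ¬ ((m : 𝓞 E) ∈ q.asIdeal) → σ z = z ^ nm q := by
  have hqp : q.asIdeal.IsPrime := q.isPrime
  have hqm : q.asIdeal.IsMaximal := q.isMaximal
  have hfd : FiniteDimensional E L := FiniteDimensional.right ℚ E L
  obtain ⟨Q, hQ, hQl⟩ := Ideal.exists_maximal_ideal_liesOver_of_isIntegral (S := 𝓞 L) q.asIdeal
  have hQb : Q ≠ ⊥ := Ideal.ne_bot_of_liesOver_of_ne_bot q.ne_bot Q
  have hfin : Finite (𝓞 L ⧸ Q) := Ideal.finiteQuotientOfFreeOfNeBot _ hQb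
  have hQp : Q.IsPrime := hQ.isPrime
  obtain ⟨σ, hσ⟩ := IsArithFrobAt.exists_of_isInvariant (𝓞 E) (L ≃ₐ[E] L) Q
  have hu : Q.under (𝓞 E) = q.asIdeal := hQl.over.symm
  have hc : Nat.card (𝓞 E ⧸ Q.under (𝓞 E)) = nm q := by
    rw [nm, hu]
  refine ⟨⟨Q, hQp, hQb⟩, σ, hu, fun x => ?_, fun m z hz hm => ?_⟩
  · have h1 := hσ x
    rw [hc] at h1
    exact h1
  · have hzi : IsIntegral ℤ z := by
      have hm0 : m ≠ 0 := by
        rintro rfl
        exact hm (by simp)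
      refine IsIntegral.of_pow (Nat.pos_of_ne_zero hm0) ?_
      rw [hz]
      exact isIntegral_one
    set z' : 𝓞 L := ⟨z, hzi⟩ with hz'
    have hz1 : z' ^ m = 1 := by
      apply RingOfIntegers.ext
      exact hz
    have hmQ : (m : 𝓞 L) ∉ Q := by
      intro h1
      apply hm
      rw [← hu]
      change algebraMap (𝓞 E) (𝓞 L) (m : 𝓞 E) ∈ Q
      rwa [map_natCast]
    have h2 := hσ.apply_of_pow_eq_one hz1 hmQ
    rw [hc] at h2
    have h3 := congrArg (fun x : 𝓞 L => (x : L)) h2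
    simp only [map_pow] at h3
    exact h3

theorem exists_prime_of_hom {E : Type} [Field E] [NumberField E] (p : ℕ) [Fact p.Prime]
    (f : E →+* ℚ_[p]) : ∃ q : HeightOneSpectrum (𝓞 E), nm q = p := by
  have hp : p.Prime := Fact.out
  have h1 : ∀ x : 𝓞 E, f (x : E) ∈ PadicInt.subring p := by
    intro x
    have h2 : IsIntegral ℤ (f (x : E)) := by
      have h3 := map_isIntegral_int f (RingOfIntegers.isIntegral_coe x)
      exact h3
    have h4 : IsIntegral ℤ_[p] (f (x : E)) := IsIntegral.tower_top h2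
    obtain ⟨y, hy⟩ := IsIntegrallyClosed.isIntegral_iff.1 h4
    rw [← hy]
    exact y.2
  let g : 𝓞 E →+* ℤ_[p] := (f.comp (algebraMap (𝓞 E) E)).codRestrict (PadicInt.subring p) h1
  let φ : 𝓞 E →+* ZMod p := PadicInt.toZMod.comp g
  have hs : Function.Surjective φ := by
    intro y
    refine ⟨(y.val : 𝓞 E), ?_⟩
    rw [map_natCast, ZMod.natCast_zmod_val]
  have e : (𝓞 E ⧸ RingHom.ker φ) ≃+* ZMod p := RingHom.quotientKerEquivOfSurjective hs
  have hcard : Nat.card (𝓞 E ⧸ RingHom.ker φ) = p := by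
    rw [Nat.card_congr e.toEquiv, Nat.card_zmod]
  refine ⟨⟨RingHom.ker φ, RingHom.ker_isPrime φ, ?_⟩, hcard⟩
  intro hb
  have h5 : (p : 𝓞 E) ∈ RingHom.ker φ := by
    rw [RingHom.mem_ker, map_natCast, ZMod.natCast_self]
  rw [hb, Ideal.mem_bot] at h5
  exact hp.ne_zero (by exact_mod_cast h5)

theorem exists_hom_of_simple {G : Polynomial ℤ} {p : ℕ} [Fact p.Prime] (n : ℤ)
    (h1 : (p : ℤ) ∣ G.eval n) (h2 : ¬ (p : ℤ) ∣ G.derivative.eval n)
    [Fact (Irreducible (G.map (Int.castRingHom ℚ)))] :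
    Nonempty (AdjoinRoot (G.map (Int.castRingHom ℚ)) →+* ℚ_[p]) := by
  have hev : ∀ P : Polynomial ℤ, P.aeval (n : ℤ_[p]) = ((P.eval n : ℤ) : ℤ_[p]) := by
    intro P
    have h3 := Polynomial.aeval_algebraMap_apply ℤ_[p] n P
    simpa using h3
  obtain ⟨z, hz, -⟩ := hensels_lemma (p := p) (F := G) (a := (n : ℤ_[p])) (by
      have hp : Prime (p : ℤ) := Nat.prime_iff_prime_int.1 Fact.out
      have h7 : ‖((G.derivative.eval n : ℤ) : ℤ_[p])‖ = 1 := by
        rw [PadicInt.norm_intCast_eq_one_iff, isCoprime_comm]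
        exact (Prime.coprime_iff_not_dvd hp).2 h2
      rw [hev, hev, h7, one_pow]
      exact (PadicInt.norm_int_lt_one_iff_dvd _).2 h1)
  refine ⟨AdjoinRoot.lift (Rat.castHom ℚ_[p]) (z : ℚ_[p]) ?_⟩
  rw [Polynomial.eval₂_map]
  have h4 : (Rat.castHom ℚ_[p]).comp (Int.castRingHom ℚ) =
      (PadicInt.Coe.ringHom (p := p)).comp (Int.castRingHom ℤ_[p]) := RingHom.ext_int _ _
  rw [h4]
  have h5 := Polynomial.hom_eval₂ G (Int.castRingHom ℤ_[p]) (PadicInt.Coe.ringHom (p := p)) z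
  have h6 : G.eval₂ (Int.castRingHom ℤ_[p]) z = 0 := by
    rw [Polynomial.aeval_def] at hz
    exact hz
  rw [h6, map_zero] at h5
  exact h5.symm

theorem exists_irred_factor {F : Polynomial ℤ} {p : ℕ} (hp : p.Prime) (n : ℤ)
    (h1 : (p : ℤ) ∣ F.eval n) (h2 : ¬ (p : ℤ) ∣ F.derivative.eval n) :
    ∃ G : Polynomial ℤ, G ∣ F ∧ Irreducible (G.map (Int.castRingHom ℚ)) ∧
      (p : ℤ) ∣ G.eval n ∧ ¬ (p : ℤ) ∣ G.derivative.eval n := by
  have hpz : Prime (p : ℤ) := Nat.prime_iff_prime_int.1 hp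
  have hF : F ≠ 0 := by
    rintro rfl
    simp at h2
  obtain ⟨f, hf, u, hu⟩ := UniqueFactorizationMonoid.exists_prime_factors F hF
  have h3 : (p : ℤ) ∣ (f.map (Polynomial.eval n)).prod := by
    have h4 : Polynomial.eval n f.prod = (f.map (Polynomial.eval n)).prod :=
      Polynomial.eval_multiset_prod f n
    have h5 : Polynomial.eval n F * Polynomial.eval n (↑u⁻¹ : Polynomial ℤ) =
        Polynomial.eval n f.prod := by
      rw [← Polynomial.eval_mul, ← hu, mul_assoc, Units.mul_inv, mul_one]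
    rw [← h4, ← h5]
    exact Dvd.dvd.mul_right h1 _
  obtain ⟨G, hG, hG1⟩ := hpz.exists_mem_multiset_map_dvd h3
  have hGF : G ∣ F := by
    rw [← hu]
    exact Dvd.dvd.mul_right (Multiset.dvd_prod hG) _
  have hG2 : ¬ (p : ℤ) ∣ G.derivative.eval n := by
    intro h6
    obtain ⟨K, hK⟩ := hGF
    apply h2
    rw [hK, Polynomial.derivative_mul, Polynomial.eval_add, Polynomial.eval_mul,
      Polynomial.eval_mul]
    exact dvd_add (Dvd.dvd.mul_right h6 _) (Dvd.dvd.mul_right hG1 _)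
  refine ⟨G, hGF, ?_, hG1, hG2⟩
  have hirr : Irreducible G := (hf G hG).irreducible
  have hdeg : G.natDegree ≠ 0 := by
    intro h0
    apply hG2
    rw [Polynomial.natDegree_eq_zero] at h0
    obtain ⟨c, rfl⟩ := h0
    simp
  have hprim : G.IsPrimitive := hirr.isPrimitive hdeg
  exact (Polynomial.IsPrimitive.Int.irreducible_iff_irreducible_map_cast hprim).1 hirr

/-- a prime of degree one of a subfield fixed by the Frobenius -/
theorem prime_of_fixed {E L : Type} [Field E] [NumberField E] [Field L] [NumberField L]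
    [Algebra E L] (M : IntermediateField E L) [NumberField M] (q : HeightOneSpectrum (𝓞 E))
    (Q : HeightOneSpectrum (𝓞 L)) (σ : L ≃ₐ[E] L)
    (h1 : Q.asIdeal.comap (algebraMap (𝓞 E) (𝓞 L)) = q.asIdeal)
    (h2 : ∀ x : 𝓞 L, σ • x - x ^ nm q ∈ Q.asIdeal) (h3 : ∀ x ∈ M, σ x = x) :
    ∃ P : HeightOneSpectrum (𝓞 M), P.asIdeal.comap (algebraMap (𝓞 E) (𝓞 M)) = q.asIdeal ∧
      nm P = nm q := by
  classical
  have hQp : Q.asIdeal.IsPrime := Q.isPrime
  have hcomp : (algebraMap (𝓞 M) (𝓞 L)).comp (algebraMap (𝓞 E) (𝓞 M)) =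
      algebraMap (𝓞 E) (𝓞 L) := by
    ext x
    rfl
  set P : Ideal (𝓞 M) := Q.asIdeal.comap (algebraMap (𝓞 M) (𝓞 L)) with hP
  have hPq : P.comap (algebraMap (𝓞 E) (𝓞 M)) = q.asIdeal := by
    rw [hP, Ideal.comap_comap, hcomp, h1]
  have hPp : P.IsPrime := Ideal.comap_isPrime _ _
  have hqp : q.asIdeal.IsPrime := q.isPrime
  have hqm : q.asIdeal.IsMaximal := q.isMaximal
  have hlo : P.LiesOver q.asIdeal := ⟨hPq.symm⟩
  have hPb : P ≠ ⊥ := Ideal.ne_bot_of_liesOver_of_ne_bot q.ne_bot P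
  refine ⟨⟨P, hPp, hPb⟩, hPq, ?_⟩
  have hPm : P.IsMaximal := hPp.isMaximal hPb
  have hfin : Finite (𝓞 M ⧸ P) := Ideal.finiteQuotientOfFreeOfNeBot _ hPb
  let _ : Field (𝓞 M ⧸ P) := Ideal.Quotient.field P
  change Nat.card (𝓞 M ⧸ P) = nm q
  have hle : nm q ≤ Nat.card (𝓞 M ⧸ P) := by
    have h4 : Function.Injective (algebraMap (𝓞 E ⧸ q.asIdeal) (𝓞 M ⧸ P)) :=
      FaithfulSMul.algebraMap_injective _ _
    exact Nat.card_le_card_of_injective _ h4
  have hq1 : 1 < nm q := by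
    have hfin : Finite (𝓞 E ⧸ q.asIdeal) := Ideal.finiteQuotientOfFreeOfNeBot _ q.ne_bot
    exact Finite.one_lt_card
  refine le_antisymm ?_ hle
  have h5 : ∀ x : 𝓞 M ⧸ P, x ^ nm q = x := by
    intro x
    obtain ⟨y, rfl⟩ := Ideal.Quotient.mk_surjective x
    rw [← map_pow, eq_comm, Ideal.Quotient.eq]
    change algebraMap (𝓞 M) (𝓞 L) (y - y ^ nm q) ∈ Q.asIdeal
    have h6 := h2 (algebraMap (𝓞 M) (𝓞 L) y)
    have h7 : σ • (algebraMap (𝓞 M) (𝓞 L) y) = algebraMap (𝓞 M) (𝓞 L) y := by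
      apply RingOfIntegers.ext
      exact h3 _ (y : M).2
    rw [h7] at h6
    rw [map_sub, map_pow]
    exact h6
  have hfty : Fintype (𝓞 M ⧸ P) := Fintype.ofFinite _
  have h8 : (Finset.univ : Finset (𝓞 M ⧸ P)).val ⊆
      (Polynomial.X ^ nm q - Polynomial.X : Polynomial (𝓞 M ⧸ P)).roots := by
    intro x _
    rw [Polynomial.mem_roots (FiniteField.X_pow_card_sub_X_ne_zero _ hq1)]
    simp [h5 x]
  have h9 := Polynomial.card_roots' (Polynomial.X ^ nm q - Polynomial.X : Polynomial (𝓞 M ⧸ P))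
  rw [FiniteField.X_pow_card_sub_X_natDegree_eq _ hq1] at h9
  rw [Nat.card_eq_fintype_card]
  have h10 : (Finset.univ : Finset (𝓞 M ⧸ P)) ⊆
      (Polynomial.X ^ nm q - Polynomial.X : Polynomial (𝓞 M ⧸ P)).roots.toFinset := by
    intro x hx
    rw [Multiset.mem_toFinset]
    exact h8 hx
  exact (Finset.card_le_card h10).trans ((Multiset.toFinset_card_le _).trans h9)

/-- a class of norms outside a subgroup gives a divergent sum outside the subgroup -/
theorem class_mem_field {E : Type} [Field E] [NumberField E] (m : ℕ) (hm : m ≠ 0)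
    (H : Subgroup (ZMod m)ˣ) (B : Set (HeightOneSpectrum (𝓞 E))) (hB : B.Finite) (C : ℝ)
    (hC : ∀ Q : Finset (HeightOneSpectrum (𝓞 E)), (∀ q ∈ Q, q ∉ B ∧ (nm q).Prime ∧
      ∀ u ∈ H, ((u : (ZMod m)ˣ) : ZMod m) ≠ (nm q : ZMod m)) → ∑ q ∈ Q, (nm q : ℝ)⁻¹ ≤ C)
    (q₀ : HeightOneSpectrum (𝓞 E)) (hq₀ : (m : 𝓞 E) ∉ q₀.asIdeal) :
    ∃ u ∈ H, ((u : (ZMod m)ˣ) : ZMod m) = (nm q₀ : ZMod m) := by
  classical
  have hne : NeZero m := ⟨hm⟩
  let L := CyclotomicField m E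
  have hNL : NumberField L := inferInstance
  have hG : IsAbelianGalois E L := IsCyclotomicExtension.isAbelianGalois {m} E L
  have hfd : FiniteDimensional E L := inferInstance
  have hζ := IsCyclotomicExtension.zeta_spec m E L
  set ζ : L := IsCyclotomicExtension.zeta m E L with hζd
  set χ := hζ.autToPow E with hχ
  -- the value of the character at a Frobenius element
  have hval : ∀ (k : ℕ) (σ : L ≃ₐ[E] L), σ ζ = ζ ^ k → ((χ σ : (ZMod m)ˣ) : ZMod m) = k := by
    intro k σ hσ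
    have h1 := hζ.autToPow_spec E σ
    rw [hσ] at h1
    have h4 : ζ ^ k = ζ ^ (k % m) := by
      have h5 := pow_mod_orderOf ζ k
      rw [← hζ.eq_orderOf] at h5
      exact h5.symm
    have h2 : ((χ σ : (ZMod m)ˣ) : ZMod m).val ≡ k [MOD m] := by
      have h6 := hζ.pow_inj (ZMod.val_lt _) (Nat.mod_lt _ (Nat.pos_of_ne_zero hm)) (h1.trans h4)
      rw [h6]
      exact Nat.mod_modEq _ _
    have h3 : (((χ σ : (ZMod m)ˣ) : ZMod m).val : ZMod m) = (k : ZMod m) := by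
      rw [ZMod.natCast_eq_natCast_iff]
      exact h2
    rw [← h3, ZMod.natCast_zmod_val]
  by_contra hcon
  push Not at hcon
  obtain ⟨Q₀, σ₀, -, -, hσ₀⟩ := frob (E := E) (L := L) q₀
  have hv0 := hval (nm q₀) σ₀ (hσ₀ m ζ hζ.pow_eq_one hq₀)
  have hσ₀H : σ₀ ∉ H.comap χ := fun h => hcon _ (Subgroup.mem_comap.1 h) hv0
  set M := IntermediateField.fixedField (H.comap χ) with hM
  have hNM : NumberField M := NumberField.of_module_finite E M
  have hGM : IsGalois E M := inferInstance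
  have hrank : 2 ≤ Module.finrank E M := by
    by_contra h1
    have h2 : Module.finrank E M = 1 := by
      have h3 : 0 < Module.finrank E M := Module.finrank_pos
      omega
    have h3 : M = ⊥ := IntermediateField.finrank_eq_one_iff.1 h2
    have h4 : H.comap χ = M.fixingSubgroup := (IntermediateField.fixingSubgroup_fixedField _).symm
    apply hσ₀H
    rw [h4, h3, IntermediateField.fixingSubgroup_bot]
    exact Subgroup.mem_top _
  have hfm : {q : HeightOneSpectrum (𝓞 E) | (m : 𝓞 E) ∈ q.asIdeal}.Finite :=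
    Pool.Agent.H96.TC.finite_mem (by exact_mod_cast hm)
  obtain ⟨Q, hQ, hQC⟩ := nonsplit_rec (E := E) (M := M) hrank
    (B ∪ {q : HeightOneSpectrum (𝓞 E) | (m : 𝓞 E) ∈ q.asIdeal}) (hB.union hfm) C
  refine absurd (hC Q fun q hq => ?_) (not_le.2 hQC)
  obtain ⟨h1, h2, h3⟩ := hQ q hq
  rw [Set.mem_union, not_or] at h1
  refine ⟨h1.1, h2, fun u hu hun => ?_⟩
  obtain ⟨Q', σ, hQ1, hQ2, hQ3⟩ := frob (E := E) (L := L) q
  have hv := hval (nm q) σ (hQ3 m ζ hζ.pow_eq_one h1.2)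
  have hσH : σ ∈ H.comap χ := by
    rw [Subgroup.mem_comap]
    have h4 : χ σ = u := Units.ext (hv.trans hun.symm)
    rw [h4]
    exact hu
  obtain ⟨P, hP1, hP2⟩ := prime_of_fixed M q Q' σ hQ1 hQ2 fun x hx => by
    exact (IntermediateField.mem_fixedField_iff _ _).1 hx σ hσH
  exact h3 P hP1 hP2

/-- the number of the primes above `p` -/
theorem pv_card {F : Type} [Field F] [NumberField F] {p : ℕ} (hp : p.Prime)
    (S : Finset (HeightOneSpectrum (𝓞 F)))
    (hS : ∀ q ∈ S, ((p : ℕ) : 𝓞 F) ∈ q.asIdeal ∧ p ≤ nm q) :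
    S.card ≤ Module.finrank ℚ F := by
  classical
  have hinj : Set.InjOn (fun q : HeightOneSpectrum (𝓞 F) => q.asIdeal) S := fun a _ b _ h =>
    HeightOneSpectrum.ext h
  have h1 : ∏ q ∈ S, q.asIdeal ∣ Ideal.span {((p : ℕ) : 𝓞 F)} := by
    have h2 : ∏ I ∈ S.image (fun q => q.asIdeal), I ∣ Ideal.span {((p : ℕ) : 𝓞 F)} := by
      refine Finset.prod_primes_dvd _ ?_ ?_
      · intro I hI
        obtain ⟨q, -, rfl⟩ := Finset.mem_image.1 hI
        exact q.prime
      · intro I hI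
        obtain ⟨q, hq, rfl⟩ := Finset.mem_image.1 hI
        rw [Ideal.dvd_span_singleton]
        exact (hS q hq).1
    rwa [Finset.prod_image hinj] at h2
  have h3 : ∏ q ∈ S, nm q ∣ p ^ Module.finrank ℚ F := by
    have h4 := map_dvd (Ideal.absNorm (S := 𝓞 F)) h1
    rw [map_prod, Ideal.absNorm_span_singleton] at h4
    have h5 : (Algebra.norm ℤ ((p : ℕ) : 𝓞 F)).natAbs = p ^ Module.finrank ℚ F := by
      have h6 : ((p : ℕ) : 𝓞 F) = algebraMap ℤ (𝓞 F) (p : ℤ) := by simp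
      rw [h6, Algebra.norm_algebraMap, RingOfIntegers.rank, Int.natAbs_pow, Int.natAbs_natCast]
    rw [h5] at h4
    refine dvd_trans (dvd_of_eq ?_) h4
    refine Finset.prod_congr rfl fun q _ => ?_
    rw [Ideal.absNorm_apply, Submodule.cardQuot_apply, nm]
  have h6 : p ^ S.card ≤ p ^ Module.finrank ℚ F :=
    calc p ^ S.card = ∏ _q ∈ S, p := by rw [Finset.prod_const]
      _ ≤ ∏ q ∈ S, nm q := Finset.prod_le_prod' fun q hq => (hS q hq).2
      _ ≤ _ := Nat.le_of_dvd (pow_pos hp.pos _) h3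
  exact (Nat.pow_le_pow_iff_right hp.one_lt).1 h6

/-- clearing the denominator of a root -/
theorem pv_clear {R : Type} [CommRing R] (G : Polynomial ℤ) (c x : R) :
    ∑ i ∈ Finset.range (G.natDegree + 1),
      (Int.castRingHom R (G.coeff i)) * (c * x) ^ i * c ^ (G.natDegree - i) =
      c ^ G.natDegree * G.eval₂ (Int.castRingHom R) x := by
  rw [Polynomial.eval₂_eq_sum_range, Finset.mul_sum]
  refine Finset.sum_congr rfl fun i hi => ?_
  have h1 : i ≤ G.natDegree := Nat.lt_succ_iff.1 (Finset.mem_range.1 hi)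
  have h2 : c ^ G.natDegree = c ^ i * c ^ (G.natDegree - i) := by
    rw [← pow_add, Nat.add_sub_cancel' h1]
  rw [h2, mul_pow]
  ring

/-- a field with `p` elements and a homogenized root -/
theorem pv_root_aux {R K : Type} [CommRing R] [Field K] (ψ : R →+* K)
    (G : Polynomial ℤ) (b c : R) {p : ℕ} (hp : p.Prime) (hK : Nat.card K = p)
    (h : ∑ i ∈ Finset.range (G.natDegree + 1),
      (Int.castRingHom R (G.coeff i)) * b ^ i * c ^ (G.natDegree - i) = 0) (hc : ψ c ≠ 0) :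
    ∃ n : ℤ, (p : ℤ) ∣ G.eval n := by
  have hfact : Fact p.Prime := ⟨hp⟩
  have hfin : Finite K := Nat.finite_of_card_ne_zero (by rw [hK]; exact hp.ne_zero)
  have hfty : Fintype K := Fintype.ofFinite _
  have hcard : Fintype.card K = p := by
    rw [← Nat.card_eq_fintype_card, hK]
  have hchar : CharP K p := charP_of_card_eq_prime hcard
  have hbij : Function.Bijective (ZMod.castHom dvd_rfl K : ZMod p →+* K) :=
    ZMod.castHom_bijective K hcard
  obtain ⟨y, hy⟩ := hbij.2 (ψ b / ψ c)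
  refine ⟨(y.val : ℤ), ?_⟩
  have hn : Int.castRingHom K (y.val : ℤ) = ψ b / ψ c := by
    rw [← hy]
    have h1 : (ZMod.castHom dvd_rfl K : ZMod p →+* K) ((y.val : ℕ) : ZMod p) = ((y.val : ℕ) : K) :=
      map_natCast _ _
    rw [ZMod.natCast_zmod_val] at h1
    rw [h1]
    simp
  have h3 := congrArg ψ h
  have h4 : ψ b = ψ c * Int.castRingHom K (y.val : ℤ) := by
    rw [hn, mul_div_cancel₀ _ hc]
  have h5 := pv_clear G (ψ c) (Int.castRingHom K (y.val : ℤ))
  rw [← h4] at h5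
  rw [map_sum, map_zero] at h3
  have h6 : ∑ i ∈ Finset.range (G.natDegree + 1),
      ψ ((Int.castRingHom R (G.coeff i)) * b ^ i * c ^ (G.natDegree - i)) =
      ∑ i ∈ Finset.range (G.natDegree + 1),
      (Int.castRingHom K (G.coeff i)) * ψ b ^ i * ψ c ^ (G.natDegree - i) := by
    refine Finset.sum_congr rfl fun i _ => ?_
    rw [map_mul, map_mul, map_pow, map_pow]
    simp
  rw [h6, h5] at h3
  have h7 : G.eval₂ (Int.castRingHom K) (Int.castRingHom K (y.val : ℤ)) = 0 :=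
    (mul_eq_zero.1 h3).resolve_left (pow_ne_zero _ hc)
  rw [Polynomial.eval₂_at_apply] at h7
  have h8 : ((G.eval (y.val : ℤ) : ℤ) : K) = 0 := h7
  exact (CharP.intCast_eq_zero_iff K p _).1 h8

/-- a prime of degree one gives a root modulo `p` -/
theorem pv_root {E : Type} [Field E] [NumberField E] (G : Polynomial ℤ) (α : E)
    (hα : G.eval₂ (Int.castRingHom E) α = 0)
    (q : HeightOneSpectrum (𝓞 E)) (hq : ((G.leadingCoeff : ℤ) : 𝓞 E) ∉ q.asIdeal)
    (hp : (nm q).Prime) : ∃ n : ℤ, ((nm q : ℕ) : ℤ) ∣ G.eval n := by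
  have hqp : q.asIdeal.IsPrime := q.isPrime
  have hqm : q.asIdeal.IsMaximal := q.isMaximal
  have hint : IsIntegral ℤ ((G.leadingCoeff : E) * α) := by
    have h1 := isIntegral_leadingCoeff_smul G α (by rw [Polynomial.aeval_def]; exact hα)
    rwa [zsmul_eq_mul] at h1
  obtain ⟨b, hb⟩ : ∃ b : 𝓞 E, (b : E) = (G.leadingCoeff : E) * α := ⟨⟨_, hint⟩, rfl⟩
  have h2 : ∑ i ∈ Finset.range (G.natDegree + 1),
      (Int.castRingHom (𝓞 E) (G.coeff i)) * b ^ i *
        ((G.leadingCoeff : ℤ) : 𝓞 E) ^ (G.natDegree - i) = 0 := by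
    have h3 := pv_clear G ((G.leadingCoeff : ℤ) : E) α
    rw [hα, mul_zero, ← hb] at h3
    have hinj : Function.Injective (algebraMap (𝓞 E) E) := RingOfIntegers.coe_injective
    apply hinj
    rw [map_zero, map_sum, ← h3]
    refine Finset.sum_congr rfl fun i _ => ?_
    rw [map_mul, map_mul, map_pow, map_pow]
    simp
  exact @pv_root_aux (𝓞 E) (𝓞 E ⧸ q.asIdeal) _ (Ideal.Quotient.field q.asIdeal)
    (Ideal.Quotient.mk q.asIdeal) G b _ (nm q) hp rfl h2
    (fun h => hq (Ideal.Quotient.eq_zero_iff_mem.1 h))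

/-- If the primes with a root of `F` whose class lies outside the subgroup `H` have a bounded sum
of inverses, then the class of a prime with a simple root of `F` lies in `H`. -/
theorem class_mem (F : Polynomial ℤ) (m : ℕ) (hm : m ≠ 0) (H : Subgroup (ZMod m)ˣ) (C : ℝ)
    (hC : ∀ S : Finset ℕ, (∀ p ∈ S, p.Prime ∧ ¬ p ∣ m ∧ (∃ n : ℤ, (p : ℤ) ∣ F.eval n) ∧
      ∀ u ∈ H, ((u : (ZMod m)ˣ) : ZMod m) ≠ (p : ZMod m)) → ∑ p ∈ S, (p : ℝ)⁻¹ ≤ C)
    {p : ℕ} (hp : p.Prime) (hpm : ¬ p ∣ m) (n : ℤ) (h1 : (p : ℤ) ∣ F.eval n)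
    (h2 : ¬ (p : ℤ) ∣ F.derivative.eval n) :
    ∃ u ∈ H, ((u : (ZMod m)ˣ) : ZMod m) = (p : ZMod m) := by
  classical
  obtain ⟨G, hGF, hirr, hG1, hG2⟩ := exists_irred_factor hp n h1 h2
  have hfp : Fact p.Prime := ⟨hp⟩
  have hfi : Fact (Irreducible (G.map (Int.castRingHom ℚ))) := ⟨hirr⟩
  let E := AdjoinRoot (G.map (Int.castRingHom ℚ))
  have hfd : FiniteDimensional ℚ E := (AdjoinRoot.powerBasis hirr.ne_zero).finite
  have hNE : NumberField E := ⟨⟩
  obtain ⟨f⟩ := exists_hom_of_simple (G := G) n hG1 hG2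
  obtain ⟨q₀, hq₀⟩ := exists_prime_of_hom (E := E) p f
  have hlc : G.leadingCoeff ≠ 0 := by
    intro h3
    rw [Polynomial.leadingCoeff_eq_zero] at h3
    rw [h3, Polynomial.map_zero] at hirr
    exact hirr.ne_zero rfl
  have hα : G.eval₂ (Int.castRingHom E) (AdjoinRoot.root (G.map (Int.castRingHom ℚ)) : E) = 0 := by
    have h3 := AdjoinRoot.eval₂_root (G.map (Int.castRingHom ℚ))
    rw [Polynomial.eval₂_map] at h3
    have h4 : (AdjoinRoot.of (G.map (Int.castRingHom ℚ))).comp (Int.castRingHom ℚ) =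
      Int.castRingHom E := RingHom.ext_int _ _
    rw [h4] at h3
    exact h3
  have hmem : ∀ q : HeightOneSpectrum (𝓞 E), ((nm q : ℕ) : 𝓞 E) ∈ q.asIdeal := by
    intro q
    have h3 := Ideal.absNorm_mem q.asIdeal
    rwa [Ideal.absNorm_apply, Submodule.cardQuot_apply] at h3
  have hmq₀ : (m : 𝓞 E) ∉ q₀.asIdeal := by
    intro h3
    have h4 := hmem q₀
    rw [hq₀] at h4
    obtain ⟨a, b, hab⟩ := Nat.isCoprime_iff_coprime.2 ((Nat.Prime.coprime_iff_not_dvd hp).2 hpm)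
    apply q₀.isPrime.ne_top
    rw [Ideal.eq_top_iff_one]
    have h5 : (1 : 𝓞 E) = (a : 𝓞 E) * (p : 𝓞 E) + (b : 𝓞 E) * (m : 𝓞 E) := by
      have h6 := congrArg (fun z : ℤ => (z : 𝓞 E)) hab
      push_cast at h6
      exact h6.symm
    rw [h5]
    exact Ideal.add_mem _ (Ideal.mul_mem_left _ _ h4) (Ideal.mul_mem_left _ _ h3)
  have hfc : {q : HeightOneSpectrum (𝓞 E) | ((G.leadingCoeff : ℤ) : 𝓞 E) ∈ q.asIdeal}.Finite :=
    Pool.Agent.H96.TC.finite_mem (by exact_mod_cast hlc)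
  have hfm : {q : HeightOneSpectrum (𝓞 E) | (m : 𝓞 E) ∈ q.asIdeal}.Finite :=
    Pool.Agent.H96.TC.finite_mem (by exact_mod_cast hm)
  have hCnn : 0 ≤ C := by
    have h3 := hC ∅ (by simp)
    simpa using h3
  have hmain := class_mem_field (E := E) m hm H _ (hfc.union hfm)
    ((Module.finrank ℚ E : ℝ) * C) (fun Q hQ => ?_) q₀ hmq₀
  · rw [hq₀] at hmain
    exact hmain
  have h3 : ∑ q ∈ Q, (nm q : ℝ)⁻¹ = ∑ p' ∈ Q.image nm, ∑ q ∈ Q with nm q = p', (nm q : ℝ)⁻¹ :=
    (Finset.sum_fiberwise_of_maps_to (fun q hq => Finset.mem_image_of_mem _ hq) _).symm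
  rw [h3]
  have h4 : ∀ p' ∈ Q.image nm, ∑ q ∈ Q with nm q = p', (nm q : ℝ)⁻¹ ≤
      (Module.finrank ℚ E : ℝ) * (p' : ℝ)⁻¹ := by
    intro p' hp'
    obtain ⟨q1, hq1, hq1'⟩ := Finset.mem_image.1 hp'
    have hpr : p'.Prime := hq1' ▸ (hQ q1 hq1).2.1
    have h5 : ∑ q ∈ Q with nm q = p', (nm q : ℝ)⁻¹ = ∑ q ∈ Q with nm q = p', (p' : ℝ)⁻¹ :=
      Finset.sum_congr rfl fun q hq => by rw [(Finset.mem_filter.1 hq).2]
    rw [h5, Finset.sum_const, nsmul_eq_mul]
    refine mul_le_mul_of_nonneg_right ?_ (by positivity)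
    have h6 := pv_card hpr (Q.filter fun q => nm q = p') (fun q hq => by
      have h7 := (Finset.mem_filter.1 hq).2
      refine ⟨?_, h7.ge⟩
      rw [← h7]
      exact hmem q)
    exact_mod_cast h6
  refine (Finset.sum_le_sum h4).trans ?_
  rw [← Finset.mul_sum]
  refine mul_le_mul_of_nonneg_left ?_ (by positivity)
  refine hC _ fun p' hp' => ?_
  obtain ⟨q, hq, rfl⟩ := Finset.mem_image.1 hp'
  obtain ⟨h5, h6, h7⟩ := hQ q hq
  rw [Set.mem_union, not_or] at h5
  refine ⟨h6, fun h8 => ?_, ?_, h7⟩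
  · apply h5.2
    obtain ⟨t, ht⟩ := h8
    have h9 : (m : 𝓞 E) = ((nm q : ℕ) : 𝓞 E) * (t : 𝓞 E) := by
      rw [← Nat.cast_mul, ← ht]
    change (m : 𝓞 E) ∈ q.asIdeal
    rw [h9]
    exact Ideal.mul_mem_right _ _ (hmem q)
  · obtain ⟨n', hn'⟩ := pv_root G _ hα q h5.1 h6
    refine ⟨n', hn'.trans ?_⟩
    obtain ⟨K, hK⟩ := hGF
    rw [hK, Polynomial.eval_mul]
    exact Dvd.intro _ rfl

end Pool.Agent.Helper37.PV
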