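import Mathlib

/-!
# PV, sieve part: divisors of polynomial values in given classes

`Good F m u`: for all `y` and `ε` there is `z` such that for all but at most `ε N` of the `n < N`
(`N` large) the value `F(n)` has a divisor `= u mod m` with all its prime factors in `(y, z]`.
The set of the good classes is closed under multiplication (`good_mul`), and a class with
a divergent sum of `1/p` over its primes with a root of `F` is good (`good_of_div`).
-/

set_option autoImplicit false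

namespace Pool.Agent.Helper37.PV

/-- `F(n)` has a divisor `= u mod m` with all prime factors in `(y, z]` -/
def HasDiv (F : Polynomial ℤ) (m : ℕ) (u : ZMod m) (y z n : ℕ) : Prop :=
  ∃ d : ℕ, 0 < d ∧ (d : ZMod m) = u ∧ (d : ℤ) ∣ F.eval (n : ℤ) ∧
    ∀ p : ℕ, p.Prime → p ∣ d → y < p ∧ p ≤ z

open Classical in
/-- almost all values have a divisor in the class `u` -/
def Good (F : Polynomial ℤ) (m : ℕ) (u : ZMod m) : Prop :=
  ∀ (y : ℕ) (ε : ℝ), 0 < ε → ∃ z N₀ : ℕ, ∀ N : ℕ, N₀ ≤ N →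
    (((Finset.range N).filter fun n => ¬ HasDiv F m u y z n).card : ℝ) ≤ ε * N

theorem good_one (F : Polynomial ℤ) (m : ℕ) : Good F m 1 := by
  classical
  intro y ε hε
  refine ⟨0, 0, fun N _ => ?_⟩
  have h1 : (Finset.range N).filter (fun n => ¬ HasDiv F m 1 y 0 n) = ∅ := by
    refine Finset.filter_eq_empty_iff.2 fun n _ => ?_
    rw [not_not]
    refine ⟨1, one_pos, by simp, by simp, fun p hp hd => ?_⟩
    exact absurd (Nat.dvd_one.1 hd) hp.one_lt.ne'
  rw [h1]
  simp only [Finset.card_empty, Nat.cast_zero]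
  positivity

theorem good_mul {F : Polynomial ℤ} {m : ℕ} {u v : ZMod m} (hu : Good F m u)
    (hv : Good F m v) : Good F m (u * v) := by
  classical
  intro y ε hε
  obtain ⟨z1, N1, h1⟩ := hu y (ε / 2) (by positivity)
  obtain ⟨z2, N2, h2⟩ := hv (max y z1) (ε / 2) (by positivity)
  refine ⟨max z1 z2, max N1 N2, fun N hN => ?_⟩
  have h3 := h1 N (le_trans (le_max_left _ _) hN)
  have h4 := h2 N (le_trans (le_max_right _ _) hN)
  have h5 : (Finset.range N).filter (fun n => ¬ HasDiv F m (u * v) y (max z1 z2) n) ⊆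
      (Finset.range N).filter (fun n => ¬ HasDiv F m u y z1 n) ∪
      (Finset.range N).filter (fun n => ¬ HasDiv F m v (max y z1) z2 n) := by
    intro n hn
    rw [Finset.mem_filter] at hn
    rw [Finset.mem_union, Finset.mem_filter, Finset.mem_filter]
    by_contra hcon
    rw [not_or] at hcon
    have h6 : HasDiv F m u y z1 n := by
      by_contra h7
      exact hcon.1 ⟨hn.1, h7⟩
    have h7 : HasDiv F m v (max y z1) z2 n := by
      by_contra h8
      exact hcon.2 ⟨hn.1, h8⟩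
    apply hn.2
    obtain ⟨d1, hd1, hd1u, hd1F, hd1p⟩ := h6
    obtain ⟨d2, hd2, hd2u, hd2F, hd2p⟩ := h7
    have hcop : Nat.Coprime d1 d2 := by
      refine Nat.Coprime.symm (Nat.coprime_of_dvd fun p hp hpd2 hpd1 => ?_)
      have h8 := (hd1p p hp hpd1).2
      have h9 := (hd2p p hp hpd2).1
      exact absurd (lt_of_le_of_lt (le_max_right y z1) h9) (not_lt.2 h8)
    refine ⟨d1 * d2, Nat.mul_pos hd1 hd2, by rw [Nat.cast_mul, hd1u, hd2u], ?_, ?_⟩
    · rw [Nat.cast_mul]
      exact (Nat.isCoprime_iff_coprime.2 hcop).mul_dvd hd1F hd2F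
    · intro p hp hpd
      rcases (Nat.Prime.dvd_mul hp).1 hpd with h8 | h8
      · obtain ⟨h9, h10⟩ := hd1p p hp h8
        exact ⟨h9, h10.trans (le_max_left _ _)⟩
      · obtain ⟨h9, h10⟩ := hd2p p hp h8
        exact ⟨lt_of_le_of_lt (le_max_left _ _) h9, h10.trans (le_max_right _ _)⟩
  have h6 := (Finset.card_le_card h5).trans (Finset.card_union_le _ _)
  have h7 : (((Finset.range N).filter
      fun n => ¬ HasDiv F m (u * v) y (max z1 z2) n).card : ℝ) ≤
      (((Finset.range N).filter fun n => ¬ HasDiv F m u y z1 n).card : ℝ) +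
      (((Finset.range N).filter fun n => ¬ HasDiv F m v (max y z1) z2 n).card : ℝ) := by
    exact_mod_cast h6
  linarith

/-- counting over a product of two coprime periods -/
private theorem pv_count_mul {a b : ℕ} (ha : 0 < a) (hb : 0 < b) (hab : Nat.Coprime a b)
    (P Q : ℕ → Prop) [DecidablePred P] [DecidablePred Q]
    (hP : ∀ n, P n → P (n % a)) (hQ : ∀ n, Q n → Q (n % b)) :
    ((Finset.range (a * b)).filter fun n => P n ∧ Q n).card ≤
      ((Finset.range a).filter P).card * ((Finset.range b).filter Q).card := by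
  classical
  rw [← Finset.card_product]
  refine Finset.card_le_card_of_injOn (fun n => (n % a, n % b)) ?_ ?_
  · intro n hn
    rw [Finset.mem_coe, Finset.mem_filter] at hn
    rw [Finset.mem_coe, Finset.mem_product, Finset.mem_filter, Finset.mem_filter,
      Finset.mem_range, Finset.mem_range]
    exact ⟨⟨Nat.mod_lt _ ha, hP _ hn.2.1⟩, ⟨Nat.mod_lt _ hb, hQ _ hn.2.2⟩⟩
  · intro n hn n' hn' h
    rw [Finset.mem_coe, Finset.mem_filter, Finset.mem_range] at hn hn'
    have h1 : n % a = n' % a := congrArg Prod.fst h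
    have h2 : n % b = n' % b := congrArg Prod.snd h
    have h3 : n ≡ n' [MOD a * b] := (Nat.modEq_and_modEq_iff_modEq_mul hab).1 ⟨h1, h2⟩
    exact Nat.ModEq.eq_of_lt_of_lt h3 hn.1 hn'.1

/-- the sieve over one period -/
private theorem pv_count_period (S : Finset ℕ) (hS : ∀ p ∈ S, p.Prime) (Q : ℕ → ℕ → Prop)
    [∀ p, DecidablePred (Q p)] (hQ : ∀ p ∈ S, ∀ n, Q p n → Q p (n % p))
    (hQ' : ∀ p ∈ S, ∀ n n', n % p = n' % p → Q p n → Q p n')
    (hc : ∀ p ∈ S, ∃ r, r < p ∧ ¬ Q p r) :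
    ((Finset.range (∏ p ∈ S, p)).filter fun n => ∀ p ∈ S, Q p n).card ≤ ∏ p ∈ S, (p - 1) := by
  classical
  induction S using Finset.induction_on with
  | empty => simp
  | insert p S hpS ih =>
    rw [Finset.prod_insert hpS, Finset.prod_insert hpS]
    have hp : p.Prime := hS p (Finset.mem_insert_self _ _)
    have hS' : ∀ q ∈ S, q.Prime := fun q hq => hS q (Finset.mem_insert_of_mem hq)
    have hcop : Nat.Coprime p (∏ q ∈ S, q) := by
      refine Nat.Coprime.prod_right fun q hq => ?_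
      exact (Nat.coprime_primes hp (hS' q hq)).2 (fun h => hpS (h ▸ hq))
    have hpos : 0 < ∏ q ∈ S, q := Finset.prod_pos fun q hq => (hS' q hq).pos
    have h1 := pv_count_mul (a := p) (b := ∏ q ∈ S, q) hp.pos hpos hcop (Q p)
      (fun n => ∀ q ∈ S, Q q n) (hQ p (Finset.mem_insert_self _ _)) (fun n hn q hq => by
        refine hQ' q (Finset.mem_insert_of_mem hq) n _ ?_ (hn q hq)
        rw [Nat.mod_mod_of_dvd _ (Finset.dvd_prod_of_mem (fun q => q) hq)])
    have h2 := ih hS' (fun q hq => hQ q (Finset.mem_insert_of_mem hq))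
      (fun q hq => hQ' q (Finset.mem_insert_of_mem hq))
      (fun q hq => hc q (Finset.mem_insert_of_mem hq))
    have h3 : ((Finset.range p).filter (Q p)).card ≤ p - 1 := by
      obtain ⟨r, hr, hrQ⟩ := hc p (Finset.mem_insert_self _ _)
      have h4 : (Finset.range p).filter (Q p) ⊆ (Finset.range p).erase r := by
        intro n hn
        rw [Finset.mem_filter] at hn
        rw [Finset.mem_erase]
        exact ⟨fun h => hrQ (h ▸ hn.2), hn.1⟩
      refine (Finset.card_le_card h4).trans ?_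
      rw [Finset.card_erase_of_mem (Finset.mem_range.2 hr), Finset.card_range]
    refine le_trans (Finset.card_le_card ?_) (h1.trans (Nat.mul_le_mul h3 h2))
    intro n hn
    rw [Finset.mem_filter] at hn ⊢
    exact ⟨hn.1, hn.2 p (Finset.mem_insert_self _ _),
      fun q hq => hn.2 q (Finset.mem_insert_of_mem hq)⟩

/-- the sieve -/
private theorem pv_count (S : Finset ℕ) (hS : ∀ p ∈ S, p.Prime) (Q : ℕ → ℕ → Prop)
    [∀ p, DecidablePred (Q p)]
    (hQ' : ∀ p ∈ S, ∀ n n', n % p = n' % p → Q p n → Q p n')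
    (hc : ∀ p ∈ S, ∃ r, r < p ∧ ¬ Q p r) (N : ℕ) :
    (((Finset.range N).filter fun n => ∀ p ∈ S, Q p n).card : ℝ) ≤
      N * ∏ p ∈ S, (1 - (p : ℝ)⁻¹) + ∏ p ∈ S, (p : ℝ) := by
  classical
  have hpos : 0 < ∏ q ∈ S, q := Finset.prod_pos fun q hq => (hS q hq).pos
  set P := ∏ q ∈ S, q with hP
  have h1 := pv_count_period S hS Q (fun p hp n hn => hQ' p hp n _ (Nat.mod_mod _ _).symm hn)
    hQ' hc
  set c := ((Finset.range P).filter fun n => ∀ p ∈ S, Q p n).card with hcd
  have h2 : ((Finset.range N).filter fun n => ∀ p ∈ S, Q p n).card ≤ (N / P + 1) * c := by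
    have h3 : (N / P + 1) * c = ((Finset.range (N / P + 1)) ×ˢ
        ((Finset.range P).filter fun n => ∀ p ∈ S, Q p n)).card := by
      rw [Finset.card_product, Finset.card_range]
    rw [h3]
    refine Finset.card_le_card_of_injOn (fun n => (n / P, n % P)) ?_ ?_
    · intro n hn
      rw [Finset.mem_coe, Finset.mem_filter, Finset.mem_range] at hn
      rw [Finset.mem_coe, Finset.mem_product, Finset.mem_filter, Finset.mem_range,
        Finset.mem_range]
      refine ⟨?_, Nat.mod_lt _ hpos, fun p hp => ?_⟩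
      · exact Nat.lt_succ_of_le (Nat.div_le_div_right hn.1.le)
      · refine hQ' p hp n _ ?_ (hn.2 p hp)
        change n % p = (n % P) % p
        rw [Nat.mod_mod_of_dvd _ (Finset.dvd_prod_of_mem (fun q => q) hp)]
    · intro n hn n' hn' h
      have h4 : n / P = n' / P := congrArg Prod.fst h
      have h5 : n % P = n' % P := congrArg Prod.snd h
      rw [← Nat.div_add_mod n P, ← Nat.div_add_mod n' P, h4, h5]
  have hPr : (0 : ℝ) < (P : ℝ) := by exact_mod_cast hpos
  have h3 : ((N / P + 1 : ℕ) : ℝ) ≤ (N : ℝ) / P + 1 := by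
    rw [Nat.cast_add, Nat.cast_one]
    exact add_le_add_left Nat.cast_div_le 1
  have h4 : (c : ℝ) ≤ ∏ p ∈ S, ((p : ℝ) - 1) := by
    have h5 : ((∏ p ∈ S, (p - 1) : ℕ) : ℝ) = ∏ p ∈ S, ((p : ℝ) - 1) := by
      rw [Nat.cast_prod]
      refine Finset.prod_congr rfl fun p hp => ?_
      rw [Nat.cast_sub (hS p hp).one_lt.le, Nat.cast_one]
    rw [← h5]
    exact_mod_cast h1
  have hPc : (P : ℝ) = ∏ p ∈ S, (p : ℝ) := by rw [hP, Nat.cast_prod]
  have h6 : ∏ p ∈ S, ((p : ℝ) - 1) = P * ∏ p ∈ S, (1 - (p : ℝ)⁻¹) := by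
    rw [hPc, ← Finset.prod_mul_distrib]
    refine Finset.prod_congr rfl fun p hp => ?_
    have h7 : (p : ℝ) ≠ 0 := by exact_mod_cast (hS p hp).ne_zero
    field_simp
  have h7 : (c : ℝ) ≤ P := by
    have h8 : c ≤ P := by
      rw [hcd]
      refine (Finset.card_filter_le _ _).trans ?_
      rw [Finset.card_range]
    exact_mod_cast h8
  calc (((Finset.range N).filter fun n => ∀ p ∈ S, Q p n).card : ℝ)
      ≤ (((N / P + 1) * c : ℕ) : ℝ) := by exact_mod_cast h2
    _ = ((N / P + 1 : ℕ) : ℝ) * c := by rw [Nat.cast_mul]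
    _ ≤ ((N : ℝ) / P + 1) * c := mul_le_mul_of_nonneg_right h3 (Nat.cast_nonneg _)
    _ = (N : ℝ) / P * c + c := by ring
    _ ≤ (N : ℝ) / P * (P * ∏ p ∈ S, (1 - (p : ℝ)⁻¹)) + P := by
        refine add_le_add (mul_le_mul_of_nonneg_left ?_ (by positivity)) h7
        rw [← h6]
        exact h4
    _ = N * ∏ p ∈ S, (1 - (p : ℝ)⁻¹) + ∏ p ∈ S, (p : ℝ) := by
        rw [hPc]
        have h8 : (∏ p ∈ S, (p : ℝ)) ≠ 0 := by
          rw [← hPc]
          exact hPr.ne'
        field_simp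

theorem good_of_div {F : Polynomial ℤ} {m : ℕ} {u : ZMod m}
    (h : ∀ C : ℝ, ∃ S : Finset ℕ, (∀ p ∈ S, p.Prime ∧ (p : ZMod m) = u ∧
      ∃ n : ℤ, (p : ℤ) ∣ F.eval n) ∧ C < ∑ p ∈ S, (p : ℝ)⁻¹) : Good F m u := by
  classical
  intro y ε hε
  obtain ⟨S, hS, hSC⟩ := h (Real.log (2 / ε) + ∑ p ∈ Finset.range (y + 1), (p : ℝ)⁻¹)
  set S' := S.filter fun p => y < p with hS'
  have h1 : Real.log (2 / ε) < ∑ p ∈ S', (p : ℝ)⁻¹ := by
    have h2 : ∑ p ∈ S, (p : ℝ)⁻¹ = ∑ p ∈ S', (p : ℝ)⁻¹ +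
        ∑ p ∈ S.filter (fun p => ¬ y < p), (p : ℝ)⁻¹ :=
      (Finset.sum_filter_add_sum_filter_not S _ _).symm
    have h3 : ∑ p ∈ S.filter (fun p => ¬ y < p), (p : ℝ)⁻¹ ≤
        ∑ p ∈ Finset.range (y + 1), (p : ℝ)⁻¹ := by
      refine Finset.sum_le_sum_of_subset_of_nonneg ?_ (fun _ _ _ => by positivity)
      intro p hp
      rw [Finset.mem_filter] at hp
      rw [Finset.mem_range]
      omega
    linarith
  have hprime : ∀ p ∈ S', p.Prime := fun p hp => (hS p (Finset.mem_filter.1 hp).1).1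
  have h2 : ∏ p ∈ S', (1 - (p : ℝ)⁻¹) ≤ ε / 2 := by
    have h3 : ∏ p ∈ S', (1 - (p : ℝ)⁻¹) ≤ ∏ p ∈ S', Real.exp (-(p : ℝ)⁻¹) := by
      refine Finset.prod_le_prod (fun p hp => ?_) (fun p hp => ?_)
      · have h4 : (1 : ℝ) ≤ p := by exact_mod_cast (hprime p hp).one_lt.le
        rw [sub_nonneg]
        exact inv_le_one_of_one_le₀ h4
      · have h4 := Real.add_one_le_exp (-(p : ℝ)⁻¹)
        linarith
    refine h3.trans ?_
    rw [← Real.exp_sum, Finset.sum_neg_distrib]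
    have h4 : Real.exp (-∑ p ∈ S', (p : ℝ)⁻¹) ≤ Real.exp (-Real.log (2 / ε)) :=
      Real.exp_le_exp.2 (by linarith)
    refine h4.trans ?_
    rw [← Real.log_inv, Real.exp_log (by positivity), inv_div]
  set z := S.sup id with hz
  obtain ⟨N₀, hN₀⟩ := exists_nat_ge (2 * (∏ p ∈ S', (p : ℝ)) / ε)
  refine ⟨z, N₀, fun N hN => ?_⟩
  have hsub : (Finset.range N).filter (fun n => ¬ HasDiv F m u y z n) ⊆
      (Finset.range N).filter (fun n : ℕ => ∀ p ∈ S', ¬ (p : ℤ) ∣ F.eval (n : ℤ)) := by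
    intro n hn
    rw [Finset.mem_filter] at hn ⊢
    refine ⟨hn.1, fun p hp hd => hn.2 ?_⟩
    rw [hS', Finset.mem_filter] at hp
    obtain ⟨h4, h5, -⟩ := hS p hp.1
    refine ⟨p, h4.pos, h5, hd, fun q hq hqp => ?_⟩
    rw [(Nat.prime_dvd_prime_iff_eq hq h4).1 hqp]
    exact ⟨hp.2, Finset.le_sup (f := id) hp.1⟩
  have hmod : ∀ (p : ℕ) (n n' : ℤ), n ≡ n' [ZMOD p] → (p : ℤ) ∣ F.eval n → (p : ℤ) ∣ F.eval n' := by
    intro p n n' h4 h5
    have h6 : (p : ℤ) ∣ n - n' := (Int.modEq_iff_dvd.1 h4.symm)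
    have h7 : n - n' ∣ F.eval n - F.eval n' := Polynomial.sub_dvd_eval_sub n n' F
    have h8 := dvd_sub h5 (h6.trans h7)
    rwa [sub_sub_cancel] at h8
  have h3 := pv_count S' hprime (fun p n => ¬ (p : ℤ) ∣ F.eval (n : ℤ)) (fun p hp n n' h4 h5 h6 => by
      refine h5 (hmod p n' n ?_ h6)
      exact Int.natCast_modEq_iff.2 h4.symm) (fun p hp => by
      obtain ⟨h4, h5, n, hn⟩ := hS p (Finset.mem_filter.1 hp).1
      refine ⟨(n % p).toNat, ?_, ?_⟩
      · have h6 : 0 ≤ n % p := Int.emod_nonneg _ (by exact_mod_cast h4.ne_zero)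
        have h7 : n % p < p := Int.emod_lt_of_pos _ (by exact_mod_cast h4.pos)
        omega
      · rw [not_not]
        have h6 : 0 ≤ n % p := Int.emod_nonneg _ (by exact_mod_cast h4.ne_zero)
        rw [Int.toNat_of_nonneg h6]
        exact hmod p n _ (Int.mod_modEq n p).symm hn) N
  have h4 : (((Finset.range N).filter (fun n => ¬ HasDiv F m u y z n)).card : ℝ) ≤
      (((Finset.range N).filter
        (fun n : ℕ => ∀ p ∈ S', ¬ (p : ℤ) ∣ F.eval (n : ℤ))).card : ℝ) := by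
    exact_mod_cast Finset.card_le_card hsub
  refine h4.trans (h3.trans ?_)
  have h5 : 2 * (∏ p ∈ S', (p : ℝ)) / ε ≤ (N : ℝ) := hN₀.trans (by exact_mod_cast hN)
  rw [div_le_iff₀ hε] at h5
  have h6 : (N : ℝ) * ∏ p ∈ S', (1 - (p : ℝ)⁻¹) ≤ N * (ε / 2) :=
    mul_le_mul_of_nonneg_left h2 (Nat.cast_nonneg _)
  linarith

end Pool.Agent.Helper37.PV
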