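import Mathlib
import Pool.Agent.Helper37.PV.Ga
import Pool.Agent.Helper37.PV.Sv

/-!
# PV: the class of a prime with a simple root is good
-/

set_option autoImplicit false

namespace Pool.Agent.Helper37.PV

theorem good_pow {F : Polynomial ℤ} {m : ℕ} {u : ZMod m} (hu : Good F m u) (k : ℕ) :
    Good F m (u ^ k) := by
  induction k with
  | zero =>
    rw [pow_zero]
    exact good_one F m
  | succ k ih =>
    rw [pow_succ]
    exact good_mul ih hu

theorem good_of_root (F : Polynomial ℤ) (m : ℕ) (hm : m ≠ 0) {p : ℕ} (hp : p.Prime)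
    (hpm : ¬ p ∣ m) (n : ℤ) (h1 : (p : ℤ) ∣ F.eval n)
    (h2 : ¬ (p : ℤ) ∣ F.derivative.eval n) : Good F m (p : ZMod m) := by
  classical
  have hne : NeZero m := ⟨hm⟩
  let H : Subgroup (ZMod m)ˣ :=
    { carrier := {u | Good F m (u : ZMod m)}
      mul_mem' := by
        intro a b ha hb
        change Good F m ((a * b : (ZMod m)ˣ) : ZMod m)
        rw [Units.val_mul]
        exact good_mul ha hb
      one_mem' := by
        change Good F m ((1 : (ZMod m)ˣ) : ZMod m)
        rw [Units.val_one]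
        exact good_one F m
      inv_mem' := by
        intro a ha
        change Good F m ((a⁻¹ : (ZMod m)ˣ) : ZMod m)
        have h3 : a⁻¹ = a ^ (orderOf a - 1) := by
          rw [inv_eq_iff_mul_eq_one, ← pow_succ', Nat.sub_add_cancel (orderOf_pos a),
            pow_orderOf_eq_one]
        rw [h3, Units.val_pow_eq_pow_val]
        exact good_pow ha _ }
  have hH : ∀ u : (ZMod m)ˣ, u ∈ H ↔ Good F m (u : ZMod m) := fun u => Iff.rfl
  have hb : ∀ u : (ZMod m)ˣ, ∃ C : ℝ, 0 ≤ C ∧ (u ∉ H → ∀ S : Finset ℕ, (∀ p ∈ S, p.Prime ∧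
      (p : ZMod m) = u ∧ ∃ n : ℤ, (p : ℤ) ∣ F.eval n) → ∑ p ∈ S, (p : ℝ)⁻¹ ≤ C) := by
    intro u
    by_cases hu : u ∈ H
    · exact ⟨0, le_rfl, fun h => absurd hu h⟩
    · have h3 : ¬ Good F m (u : ZMod m) := hu
      have h4 : ∃ C : ℝ, ∀ S : Finset ℕ, (∀ p ∈ S, p.Prime ∧ (p : ZMod m) = u ∧
          ∃ n : ℤ, (p : ℤ) ∣ F.eval n) → ∑ p ∈ S, (p : ℝ)⁻¹ ≤ C := by
        by_contra hcon
        push Not at hcon
        exact h3 (good_of_div hcon)
      obtain ⟨C, hC⟩ := h4
      exact ⟨max C 0, le_max_right _ _, fun _ S hS => (hC S hS).trans (le_max_left _ _)⟩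
  choose C hC0 hC using hb
  have hmain := class_mem F m hm H (∑ u, C u) (fun S hS => ?_) hp hpm n h1 h2
  · obtain ⟨u, hu, hup⟩ := hmain
    rw [← hup]
    exact hu
  · let g : ℕ → (ZMod m)ˣ := fun p => if h : p.Coprime m then ZMod.unitOfCoprime p h else 1
    have hg : ∀ p ∈ S, ((g p : (ZMod m)ˣ) : ZMod m) = (p : ZMod m) := by
      intro p hp
      obtain ⟨h3, h4, -⟩ := hS p hp
      have h5 : p.Coprime m := (Nat.Prime.coprime_iff_not_dvd h3).2 h4
      simp only [g]
      rw [dif_pos h5]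
      exact ZMod.coe_unitOfCoprime _ _
    rw [← Finset.sum_fiberwise S g]
    refine Finset.sum_le_sum fun u _ => ?_
    by_cases hu : u ∈ H
    · have h4 : S.filter (fun p => g p = u) = ∅ := by
        refine Finset.filter_eq_empty_iff.2 fun p hp h5 => ?_
        exact (hS p hp).2.2.2 u hu (by rw [← h5]; exact hg p hp)
      rw [h4, Finset.sum_empty]
      exact hC0 u
    · refine hC u hu _ fun p hp => ?_
      rw [Finset.mem_filter] at hp
      obtain ⟨h5, h6, h7, -⟩ := hS p hp.1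
      exact ⟨h5, by rw [← hp.2]; exact (hg p hp.1).symm, h7⟩

end Pool.Agent.Helper37.PV
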