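import Mathlib
import Pool.Agent.Helper37.PV.Rc
import Pool.Agent.Helper37.PV.El

/-!
# PV: polynomial values, the main theorem
-/

set_option autoImplicit false

namespace Pool.Agent.Helper37.PV

open Filter Topology

/-- the divisor criterion: `b = D h`, `D + l = d e`, `d + 1 = a l s` -/
theorem rep_of_div {a l s d e D h : ℕ} (hl : 0 < l) (hD : 0 < D) (hh : 0 < h)
    (hd : 0 < d) (h1 : D + l = d * e) (h2 : d + 1 = a * l * s) :
    ∃ x y z : ℕ, 0 < x ∧ 0 < y ∧ 0 < z ∧
      (a : ℚ) / ((D * h : ℕ) : ℚ) = 1 / (x : ℚ) + 1 / (y : ℚ) + 1 / (z : ℚ) := by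
  have he : 0 < e := by
    rcases Nat.eq_zero_or_pos e with h3 | h3
    · rw [h3] at h1
      omega
    · exact h3
  have hs : 0 < s := by
    rcases Nat.eq_zero_or_pos s with h3 | h3
    · rw [h3] at h2
      omega
    · exact h3
  refine ⟨D * h * (l * s), e * (h * (l * s)), e * (D * h * s), by positivity, by positivity,
    by positivity, ?_⟩
  have q1 : (D : ℚ) + l = d * e := by exact_mod_cast h1
  have q2 : (d : ℚ) + 1 = a * l * s := by exact_mod_cast h2
  have p1 : (D : ℚ) ≠ 0 := by exact_mod_cast hD.ne'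
  have p2 : (h : ℚ) ≠ 0 := by exact_mod_cast hh.ne'
  have p3 : (l : ℚ) ≠ 0 := by exact_mod_cast hl.ne'
  have p4 : (s : ℚ) ≠ 0 := by exact_mod_cast hs.ne'
  have p5 : (e : ℚ) ≠ 0 := by exact_mod_cast he.ne'
  push_cast
  field_simp
  linear_combination (-(e : ℚ)) * q2 - q1

/-- an irreducible factor with positive leading coefficient -/
theorem exists_factor (f : Polynomial ℤ) (hd : 0 < f.natDegree) :
    ∃ g h : Polynomial ℤ, f = g * h ∧ Irreducible (g.map (Int.castRingHom ℚ)) ∧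
      0 < g.leadingCoeff := by
  have hf : f ≠ 0 := by
    rintro rfl
    simp at hd
  obtain ⟨s, hs, u, hu⟩ := UniqueFactorizationMonoid.exists_prime_factors f hf
  have hex : ∃ g ∈ s, g.natDegree ≠ 0 := by
    by_contra hcon
    push Not at hcon
    have h1 : (s.prod).natDegree = 0 := by
      have h2 := Polynomial.natDegree_multiset_prod_le s
      have h3 : (s.map Polynomial.natDegree).sum = 0 := by
        refine Multiset.sum_eq_zero fun x hx => ?_
        obtain ⟨g, hg, rfl⟩ := Multiset.mem_map.1 hx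
        exact hcon g hg
      omega
    have h2 : (u : Polynomial ℤ).natDegree = 0 := Polynomial.natDegree_coe_units u
    have h3 : f.natDegree ≤ s.prod.natDegree + (u : Polynomial ℤ).natDegree := by
      rw [← hu]
      exact Polynomial.natDegree_mul_le
    omega
  obtain ⟨g, hg, hgd⟩ := hex
  have hirr : Irreducible g := (hs g hg).irreducible
  have hgf : g ∣ f := by
    rw [← hu]
    exact Dvd.dvd.mul_right (Multiset.dvd_prod hg) _
  have hprim : g.IsPrimitive := hirr.isPrimitive hgd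
  have hQ := (Polynomial.IsPrimitive.Int.irreducible_iff_irreducible_map_cast hprim).1 hirr
  have hlc : g.leadingCoeff ≠ 0 := by
    rw [Ne, Polynomial.leadingCoeff_eq_zero]
    rintro rfl
    simp at hgd
  rcases lt_or_gt_of_ne hlc with h1 | h1
  · obtain ⟨h, hh⟩ := hgf
    refine ⟨-g, -h, by rw [hh]; ring, ?_, ?_⟩
    · rw [Polynomial.map_neg]
      exact (Associated.irreducible_iff (Associated.neg_left (Associated.refl _))).2 hQ
    · rw [Polynomial.leadingCoeff_neg]
      omega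
  · obtain ⟨h, hh⟩ := hgf
    exact ⟨g, h, hh, hQ, h1⟩

open Classical in
theorem main (a : ℕ) (ha : 0 < a) (f : Polynomial ℤ) (hd : 0 < f.natDegree)
    (hlc : 0 < f.leadingCoeff) :
    Tendsto (fun N : ℕ => (((Finset.range N).filter fun n : ℕ =>
      ¬ (0 < f.eval (n : ℤ) ∧ ∃ x y z : ℕ, 0 < x ∧ 0 < y ∧ 0 < z ∧
        (a : ℚ) / ((f.eval (n : ℤ) : ℤ) : ℚ) = 1 / (x : ℚ) + 1 / (y : ℚ) + 1 / (z : ℚ))).card : ℝ) / N)
      atTop (𝓝 0) := by
  obtain ⟨g, h, hgh, hirr, hglc⟩ := exists_factor f hd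
  have hgd : 0 < g.natDegree := by
    have hinj : Function.Injective (Int.castRingHom ℚ) := Int.cast_injective
    have h1 : 0 < (g.map (Int.castRingHom ℚ)).natDegree := hirr.natDegree_pos
    rwa [Polynomial.natDegree_map_eq_of_injective hinj] at h1
  obtain ⟨l, p₀, k, x₀, hl, hp₀, hpal, hr1, hr2, hk⟩ := exists_params g hirr hglc a ha
  set F : Polynomial ℤ := g + Polynomial.C (l : ℤ) with hF
  have hev : ∀ x : ℤ, F.eval x = g.eval x + l := by
    intro x
    rw [hF, Polynomial.eval_add, Polynomial.eval_C]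
  have hgood : Good F (a * l) (-1) := by
    rw [← hk]
    refine good_pow (good_of_root F (a * l) (Nat.mul_pos ha hl).ne' hp₀ hpal x₀ ?_ ?_) k
    · rw [hev]
      exact hr1
    · rw [hF, Polynomial.derivative_add, Polynomial.derivative_C, add_zero]
      exact hr2
  obtain ⟨B1, hB1⟩ := eval_large g hgd hglc 0
  obtain ⟨B2, hB2⟩ := eval_large f hd hlc 0
  set B : ℕ := (max B1 B2).toNat with hB
  rw [Metric.tendsto_atTop]
  intro ε hε
  obtain ⟨z, N₀, hN₀⟩ := hgood 0 (ε / 4) (by positivity)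
  obtain ⟨N₁, hN₁⟩ := exists_nat_gt ((B : ℝ) / (ε / 4))
  refine ⟨max (max N₀ N₁) 1, fun N hN => ?_⟩
  have hNN₀ : N₀ ≤ N := (le_max_left _ _).trans ((le_max_left _ _).trans hN)
  have hNN₁ : N₁ ≤ N := (le_max_right _ _).trans ((le_max_left _ _).trans hN)
  have hN1 : 1 ≤ N := (le_max_right _ _).trans hN
  have hNpos : (0 : ℝ) < N := by exact_mod_cast hN1
  have hsub : ((Finset.range N).filter fun n : ℕ =>
      ¬ (0 < f.eval (n : ℤ) ∧ ∃ x y z : ℕ, 0 < x ∧ 0 < y ∧ 0 < z ∧
        (a : ℚ) / ((f.eval (n : ℤ) : ℤ) : ℚ) = 1 / (x : ℚ) + 1 / (y : ℚ) + 1 / (z : ℚ))) ⊆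
      Finset.range B ∪ (Finset.range N).filter fun n => ¬ HasDiv F (a * l) (-1) 0 z n := by
    intro n hn
    rw [Finset.mem_filter] at hn
    rw [Finset.mem_union, Finset.mem_range, Finset.mem_filter]
    by_contra hcon
    rw [not_or] at hcon
    obtain ⟨hnB, hnH⟩ := hcon
    have hn1 : B1 ≤ (n : ℤ) := by omega
    have hn2 : B2 ≤ (n : ℤ) := by omega
    have hH : HasDiv F (a * l) (-1) 0 z n := by
      by_contra h3
      exact hnH ⟨hn.1, h3⟩
    apply hn.2
    have hg0 := hB1 n hn1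
    have hf0 := hB2 n hn2
    have hh0 : 0 < h.eval (n : ℤ) := by
      rw [hgh, Polynomial.eval_mul] at hf0
      exact (mul_pos_iff_of_pos_left hg0).1 hf0
    refine ⟨hf0, ?_⟩
    obtain ⟨d, hd0, hdu, hdF, -⟩ := hH
    obtain ⟨D, hD⟩ : ∃ D : ℕ, g.eval (n : ℤ) = D := ⟨(g.eval (n : ℤ)).toNat, by omega⟩
    obtain ⟨h', hh'⟩ : ∃ h' : ℕ, h.eval (n : ℤ) = h' := ⟨(h.eval (n : ℤ)).toNat, by omega⟩
    rw [hev, hD] at hdF
    have hdF' : d ∣ D + l := by exact_mod_cast hdF
    obtain ⟨e, he⟩ := hdF'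
    have hds : (a * l) ∣ d + 1 := by
      rw [← ZMod.natCast_eq_zero_iff]
      push_cast
      rw [hdu]
      ring
    obtain ⟨s, hs⟩ := hds
    have hfe : ((f.eval (n : ℤ) : ℤ) : ℚ) = ((D * h' : ℕ) : ℚ) := by
      rw [hgh, Polynomial.eval_mul, hD, hh']
      push_cast
      ring
    rw [hfe]
    exact rep_of_div hl (by omega) (by omega) hd0 he hs
  have hcard := (Finset.card_le_card hsub).trans (Finset.card_union_le _ _)
  rw [Finset.card_range] at hcard
  have hc2 := hN₀ N hNN₀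
  have hB' : (B : ℝ) ≤ ε / 4 * N := by
    have h3 : (B : ℝ) / (ε / 4) < N := hN₁.trans_le (by exact_mod_cast hNN₁)
    rw [div_lt_iff₀ (by positivity)] at h3
    linarith
  rw [Real.dist_eq, sub_zero, abs_of_nonneg (by positivity), div_lt_iff₀ hNpos]
  have hcard' : (((Finset.range N).filter fun n : ℕ =>
      ¬ (0 < f.eval (n : ℤ) ∧ ∃ x y z : ℕ, 0 < x ∧ 0 < y ∧ 0 < z ∧
        (a : ℚ) / ((f.eval (n : ℤ) : ℤ) : ℚ) =
          1 / (x : ℚ) + 1 / (y : ℚ) + 1 / (z : ℚ))).card : ℝ) ≤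
      B + (((Finset.range N).filter fun n => ¬ HasDiv F (a * l) (-1) 0 z n).card : ℝ) := by
    exact_mod_cast hcard
  nlinarith

end Pool.Agent.Helper37.PV
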