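import Mathlib
import Pool.Agent.Helper37.PV.El

/-!
# PV, elementary part: infinitely many parameters
-/

set_option autoImplicit false

namespace Pool.Agent.Helper37.PV

open Filter

/-- the parameters: the primes `l` of a class `c` mod `q` are suitable -/
theorem exists_params2 (g : Polynomial ℤ) (hirr : Irreducible (g.map (Int.castRingHom ℚ)))
    (hlc : 0 < g.leadingCoeff) (a : ℕ) (ha : 0 < a) :
    ∃ (p₀ : ℕ) (x₀ : ℤ) (q : ℕ) (c : ZMod q) (b : ℕ), p₀.Prime ∧ q ≠ 0 ∧ IsUnit c ∧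
      ¬ (p₀ : ℤ) ∣ g.derivative.eval x₀ ∧ ∀ l : ℕ, b < l → l.Prime → (l : ZMod q) = c →
        ¬ p₀ ∣ a * l ∧ (p₀ : ℤ) ∣ g.eval x₀ + l ∧ (p₀ : ZMod (a * l)) ^ (l / 2) = -1 := by
  obtain ⟨r, x₀, A, hr, hr2a, hA, hrA, hgx, hgx'⟩ := exists_val_one g hirr hlc a ha
  have hrf : Fact r.Prime := ⟨hr⟩
  have hr2 : r ≠ 2 := by
    rintro rfl
    exact hr2a (Dvd.intro _ rfl)
  have hrodd : Odd r := hr.odd_of_ne_two hr2
  -- a nonresidue mod `r`
  obtain ⟨t, ht⟩ : ∃ t : ℤ, jacobiSym t r = -1 := by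
    obtain ⟨y, hy⟩ := FiniteField.exists_nonsquare (F := ZMod r) (by
      rw [ZMod.ringChar_zmod_n]
      exact hr2)
    refine ⟨(y.val : ℤ), ?_⟩
    rw [← jacobiSym.legendreSym.to_jacobiSym, legendreSym.eq_neg_one_iff]
    simpa using hy
  have htr : ¬ (r : ℤ) ∣ t := by
    intro h1
    have h2 : jacobiSym t r = 0 := by
      rw [jacobiSym.eq_zero_iff]
      refine ⟨hr.ne_zero, fun h3 => ?_⟩
      have h4 : (r : ℤ) ∣ 1 := by
        have h5 := Int.dvd_coe_gcd h1 (dvd_refl (r : ℤ))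
        rwa [h3, Nat.cast_one] at h5
      exact (Nat.prime_iff_prime_int.1 hr).not_isUnit (isUnit_of_dvd_one h4)
    rw [ht] at h2
    norm_num at h2
  have hrz : Prime (r : ℤ) := Nat.prime_iff_prime_int.1 hr
  -- the prime `p₀`
  have hcop : (4 * A * a).Coprime r := by
    rw [Nat.coprime_comm, Nat.Prime.coprime_iff_not_dvd hr]
    intro h1
    rcases (Nat.Prime.dvd_mul hr).1 h1 with h2 | h2
    · rcases (Nat.Prime.dvd_mul hr).1 h2 with h3 | h3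
      · have h4 : r ∣ 2 := by
          have h5 : r ∣ 2 ^ 2 := by
            rw [show (2 : ℕ) ^ 2 = 4 by norm_num]
            exact h3
          exact hr.dvd_of_dvd_pow h5
        exact hr2a (Dvd.dvd.mul_right h4 _)
      · exact hrA h3
    · exact hr2a (Dvd.dvd.mul_left h2 _)
  obtain ⟨p₀, hp₀b, hp₀, hp₁, hp₂⟩ := dirichlet_two (m1 := 4 * A * a) (m2 := r)
    (a1 := -1) (a2 := -t) (by positivity) hr.ne_zero hcop (isCoprime_one_left.neg_left)
    (((Prime.coprime_iff_not_dvd hrz).2 htr).symm.neg_left)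
    ((g.derivative.eval x₀).natAbs + r * A + a)
  have hp₀f : Fact p₀.Prime := ⟨hp₀⟩
  have hp₀z : Prime (p₀ : ℤ) := Nat.prime_iff_prime_int.1 hp₀
  have hp4A : (p₀ : ℤ) ≡ -1 [ZMOD (4 * A : ℕ)] := by
    have h1 : ((4 * A * a : ℕ) : ℤ) = ((4 * A : ℕ) : ℤ) * (a : ℤ) := by push_cast; ring
    rw [h1] at hp₁
    exact hp₁.of_mul_right _
  have hpa : (p₀ : ℤ) ≡ -1 [ZMOD (a : ℕ)] := by
    have h1 : ((4 * A * a : ℕ) : ℤ) = ((4 * A : ℕ) : ℤ) * (a : ℤ) := by push_cast; ring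
    rw [h1] at hp₁
    exact hp₁.of_mul_left _
  have hp4 : p₀ % 4 = 3 := by
    have h1 : (p₀ : ℤ) ≡ -1 [ZMOD 4] := by
      have h2 : ((4 * A : ℕ) : ℤ) = 4 * (A : ℤ) := by push_cast; ring
      rw [h2] at hp4A
      exact hp4A.of_mul_right _
    have h2 : (p₀ : ℤ) % 4 = (-1) % 4 := h1
    omega
  have hp₀odd : Odd p₀ := Nat.odd_iff.2 (by omega)
  have hpr : p₀ ≠ r := by
    intro h1
    have h2 : r ≤ r * A := Nat.le_mul_of_pos_right _ hA
    omega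
  -- `(g(x₀) / p₀) = -1`
  have hJ : jacobiSym (g.eval x₀) p₀ = -1 := by
    rw [hgx, jacobiSym.mul_left, jac_neg_one hA hp4A, mul_one]
    exact jac_step hrodd hp4 ht hp₂
  have hgnd : ¬ (p₀ : ℤ) ∣ g.eval x₀ := by
    rw [hgx]
    intro h1
    have h2 : p₀ ∣ r * A := by exact_mod_cast h1
    have h3 := Nat.le_of_dvd (Nat.mul_pos hr.pos hA) h2
    omega
  -- the prime `l`
  have hcop4 : (4 : ℕ).Coprime p₀ := by
    rw [Nat.coprime_comm, Nat.Prime.coprime_iff_not_dvd hp₀]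
    intro h1
    have h2 := Nat.le_of_dvd (by norm_num) h1
    interval_cases p₀ <;> simp_all
  obtain ⟨l₀, hl₀b, hl₀, hl₀1, hl₀2⟩ := dirichlet_two (m1 := 4) (m2 := p₀)
    (a1 := 3) (a2 := -(g.eval x₀)) (by norm_num) hp₀.ne_zero hcop4
    (by
      have : IsCoprime (3 : ℤ) ((4 : ℕ) : ℤ) := ⟨-1, 1, by norm_num⟩
      exact this)
    (((Prime.coprime_iff_not_dvd hp₀z).2 hgnd).symm.neg_left) (a + p₀ + 4)
  have hl₀4 : ¬ l₀ ∣ 4 * p₀ := by
    intro h1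
    rcases (Nat.Prime.dvd_mul hl₀).1 h1 with h2 | h2
    · have := Nat.le_of_dvd (by norm_num) h2
      omega
    · have := Nat.le_of_dvd hp₀.pos h2
      omega
  refine ⟨p₀, x₀, 4 * p₀, (l₀ : ZMod (4 * p₀)), a + p₀, hp₀, by
    have := hp₀.pos
    omega, ?_, ?_, fun l hlb hl hlc => ?_⟩
  · rw [ZMod.isUnit_iff_coprime]
    exact (Nat.Prime.coprime_iff_not_dvd hl₀).2 hl₀4
  · intro h1
    have h2 := Int.le_of_dvd (abs_pos.2 hgx') ((dvd_abs _ _).2 h1)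
    rw [Int.abs_eq_natAbs] at h2
    have h3 : p₀ ≤ (g.derivative.eval x₀).natAbs := by exact_mod_cast h2
    omega
  have hlm : l ≡ l₀ [MOD 4 * p₀] := (ZMod.natCast_eq_natCast_iff _ _ _).1 hlc
  have hl1 : (l : ℤ) ≡ 3 [ZMOD ((4 : ℕ) : ℤ)] :=
    (Int.natCast_modEq_iff.2 (Nat.ModEq.of_mul_right p₀ hlm)).trans hl₀1
  have hl2 : (l : ℤ) ≡ -(g.eval x₀) [ZMOD ((p₀ : ℕ) : ℤ)] :=
    (Int.natCast_modEq_iff.2 (Nat.ModEq.of_mul_left 4 hlm)).trans hl₀2
  have hlf : Fact l.Prime := ⟨hl⟩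
  have hl4 : l % 4 = 3 := by
    have h2 : (l : ℤ) % 4 = 3 % 4 := hl1
    omega
  have hlJ : jacobiSym (p₀ : ℤ) l = -1 := jac_step hp₀odd hl4 hJ hl2
  have hpl : p₀ ≠ l := by omega
  refine ⟨?_, ?_, ?_⟩
  · intro h1
    rcases (Nat.Prime.dvd_mul hp₀).1 h1 with h2 | h2
    · have h3 := Nat.le_of_dvd ha h2
      omega
    · exact hpl ((Nat.prime_dvd_prime_iff_eq hp₀ hl).1 h2)
  · have h1 := Int.modEq_iff_dvd.1 hl2
    have h2 : -(g.eval x₀) - (l : ℤ) = -(g.eval x₀ + l) := by ring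
    rw [h2, dvd_neg] at h1
    exact h1
  · -- `p₀ ^ (l / 2) = -1` modulo `a` and modulo `l`
    have hkodd : Odd (l / 2) := by
      rw [Nat.odd_iff]
      omega
    have h1 : (a : ℤ) ∣ (p₀ : ℤ) ^ (l / 2) + 1 := by
      have h2 : (p₀ : ℤ) ^ (l / 2) ≡ (-1) ^ (l / 2) [ZMOD a] := hpa.pow _
      rw [hkodd.neg_one_pow] at h2
      have h3 := Int.modEq_iff_dvd.1 h2.symm
      rwa [sub_neg_eq_add] at h3
    have h2 : (l : ℤ) ∣ (p₀ : ℤ) ^ (l / 2) + 1 := by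
      have h3 : legendreSym l (p₀ : ℤ) = -1 := by
        rw [jacobiSym.legendreSym.to_jacobiSym]
        exact hlJ
      have h4 := legendreSym.eq_pow l (p₀ : ℤ)
      rw [h3] at h4
      rw [← ZMod.intCast_zmod_eq_zero_iff_dvd]
      push_cast
      push_cast at h4
      rw [← h4]
      ring
    have hal : IsCoprime (a : ℤ) (l : ℤ) := by
      rw [Nat.isCoprime_iff_coprime, Nat.coprime_comm, Nat.Prime.coprime_iff_not_dvd hl]
      intro h3
      have h4 := Nat.le_of_dvd ha h3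
      omega
    have h3 : ((a * l : ℕ) : ℤ) ∣ (p₀ : ℤ) ^ (l / 2) + 1 := by
      rw [Nat.cast_mul]
      exact hal.mul_dvd h1 h2
    have h4 := (ZMod.intCast_zmod_eq_zero_iff_dvd _ (a * l)).2 h3
    push_cast at h4
    exact eq_neg_of_add_eq_zero_left h4

end Pool.Agent.Helper37.PV
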