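import Mathlib
import Pool.Agent.Helper37.PV.Ga
import Pool.Agent.Helper37.PV.An2

/-!
# PV, Galois part, second form: the primes `= -1 mod m` with a root have a logarithmic sum
-/

set_option autoImplicit false

open NumberField IsDedekindDomain

namespace Pool.Agent.Helper37.PV

open Pool.Agent.Helper45.TC

/-- a prime with trivial Frobenius has relative degree one -/
theorem nm_eq_of_frob {E M : Type} [Field E] [NumberField E] [Field M] [NumberField M]
    [Algebra E M] (q : HeightOneSpectrum (𝓞 E)) (P : HeightOneSpectrum (𝓞 M))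
    (hPq : P.asIdeal.comap (algebraMap (𝓞 E) (𝓞 M)) = q.asIdeal)
    (h : ∀ y : 𝓞 M, y - y ^ nm q ∈ P.asIdeal) : nm P = nm q := by
  classical
  have hPp : P.asIdeal.IsPrime := P.isPrime
  have hqp : q.asIdeal.IsPrime := q.isPrime
  have hqm : q.asIdeal.IsMaximal := q.isMaximal
  have hlo : P.asIdeal.LiesOver q.asIdeal := ⟨hPq.symm⟩
  have hPm : P.asIdeal.IsMaximal := P.isMaximal
  have hfin : Finite (𝓞 M ⧸ P.asIdeal) := Ideal.finiteQuotientOfFreeOfNeBot _ P.ne_bot
  let _ : Field (𝓞 M ⧸ P.asIdeal) := Ideal.Quotient.field P.asIdeal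
  change Nat.card (𝓞 M ⧸ P.asIdeal) = nm q
  have hle : nm q ≤ Nat.card (𝓞 M ⧸ P.asIdeal) := by
    have h4 : Function.Injective (algebraMap (𝓞 E ⧸ q.asIdeal) (𝓞 M ⧸ P.asIdeal)) :=
      FaithfulSMul.algebraMap_injective _ _
    exact Nat.card_le_card_of_injective _ h4
  have hq1 : 1 < nm q := by
    have hfin : Finite (𝓞 E ⧸ q.asIdeal) := Ideal.finiteQuotientOfFreeOfNeBot _ q.ne_bot
    exact Finite.one_lt_card
  refine le_antisymm ?_ hle
  have h5 : ∀ x : 𝓞 M ⧸ P.asIdeal, x ^ nm q = x := by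
    intro x
    obtain ⟨y, rfl⟩ := Ideal.Quotient.mk_surjective x
    rw [← map_pow, eq_comm, Ideal.Quotient.eq]
    exact h y
  have hfty : Fintype (𝓞 M ⧸ P.asIdeal) := Fintype.ofFinite _
  have h8 : (Finset.univ : Finset (𝓞 M ⧸ P.asIdeal)).val ⊆
      (Polynomial.X ^ nm q - Polynomial.X : Polynomial (𝓞 M ⧸ P.asIdeal)).roots := by
    intro x _
    rw [Polynomial.mem_roots (FiniteField.X_pow_card_sub_X_ne_zero _ hq1)]
    simp [h5 x]
  have h9 := Polynomial.card_roots'
    (Polynomial.X ^ nm q - Polynomial.X : Polynomial (𝓞 M ⧸ P.asIdeal))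
  rw [FiniteField.X_pow_card_sub_X_natDegree_eq _ hq1] at h9
  rw [Nat.card_eq_fintype_card]
  have h10 : (Finset.univ : Finset (𝓞 M ⧸ P.asIdeal)) ⊆
      (Polynomial.X ^ nm q - Polynomial.X : Polynomial (𝓞 M ⧸ P.asIdeal)).roots.toFinset := by
    intro x hx
    rw [Multiset.mem_toFinset]
    exact h8 hx
  exact (Finset.card_le_card h10).trans ((Multiset.toFinset_card_le _).trans h9)

theorem neg_one_sum {K : Type} [Field K] [NumberField K] (G : Polynomial ℤ) (α : K)
    (hα : G.eval₂ (Int.castRingHom K) α = 0) (hG : G.leadingCoeff ≠ 0) (m : ℕ) (hm : 3 ≤ m)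
    (q₀ : HeightOneSpectrum (𝓞 K)) (hq₀ : (m : 𝓞 K) ∉ q₀.asIdeal) (k : ℕ)
    (hk : ((nm q₀ : ℕ) : ZMod m) ^ k = -1) :
    ∃ C δ : ℝ, 0 < δ ∧ ∀ x : ℝ, 1 < x → x < 1 + δ → ∃ S : Finset ℕ,
      (∀ p ∈ S, p.Prime ∧ ((p : ℕ) : ZMod m) = -1 ∧ ∃ n : ℤ, (p : ℤ) ∣ G.eval n) ∧
      1 / (2 * (Module.finrank ℚ K * m : ℕ)) * Real.log (1 / (x - 1)) - C ≤
        ∑ p ∈ S, (p : ℝ) ^ (-x) := by
  classical
  have hne : NeZero m := ⟨by omega⟩
  let L := CyclotomicField m K
  have hNL : NumberField L := inferInstance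
  have hGL : IsAbelianGalois K L := IsCyclotomicExtension.isAbelianGalois {m} K L
  have hfd : FiniteDimensional K L := inferInstance
  have hζ := IsCyclotomicExtension.zeta_spec m K L
  set ζ : L := IsCyclotomicExtension.zeta m K L with hζd
  set χ := hζ.autToPow K with hχ
  have hχinj : Function.Injective χ := hζ.autToPow_injective K
  -- the value of the character
  have hval : ∀ (j : ℕ) (σ : L ≃ₐ[K] L), σ ζ = ζ ^ j → ((χ σ : (ZMod m)ˣ) : ZMod m) = j := by
    intro j σ hσ
    have h1 := hζ.autToPow_spec K σ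
    rw [hσ] at h1
    have h4 : ζ ^ j = ζ ^ (j % m) := by
      have h5 := pow_mod_orderOf ζ j
      rw [← hζ.eq_orderOf] at h5
      exact h5.symm
    have h2 : ((χ σ : (ZMod m)ˣ) : ZMod m).val ≡ j [MOD m] := by
      have h6 := hζ.pow_inj (ZMod.val_lt _) (Nat.mod_lt _ (by omega)) (h1.trans h4)
      rw [h6]
      exact Nat.mod_modEq _ _
    have h3 : (((χ σ : (ZMod m)ˣ) : ZMod m).val : ZMod m) = (j : ZMod m) := by
      rw [ZMod.natCast_eq_natCast_iff]
      exact h2
    rw [← h3, ZMod.natCast_zmod_val]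
  obtain ⟨Q₀, σ₀, -, -, hσ₀⟩ := frob (E := K) (L := L) q₀
  have hv0 := hval (nm q₀) σ₀ (hσ₀ m ζ hζ.pow_eq_one hq₀)
  set τ : L ≃ₐ[K] L := σ₀ ^ k with hτ
  have hτv : χ τ = -1 := by
    apply Units.ext
    rw [hτ, map_pow, Units.val_pow_eq_pow_val, hv0, hk, Units.val_neg, Units.val_one]
  have hone : (1 : (ZMod m)ˣ) ≠ -1 := by
    intro h1
    have h2 := congrArg (fun u : (ZMod m)ˣ => (u : ZMod m)) h1
    simp only [Units.val_one, Units.val_neg] at h2
    have h3 : ((2 : ℕ) : ZMod m) = 0 := by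
      have : (1 : ZMod m) + 1 = 0 := by
        nth_rewrite 1 [h2]
        ring
      push_cast
      linear_combination this
    rw [ZMod.natCast_eq_zero_iff] at h3
    have := Nat.le_of_dvd (by norm_num) h3
    omega
  have hτ1 : τ ≠ 1 := by
    intro h1
    rw [h1, map_one] at hτv
    exact hone hτv
  set Kp := IntermediateField.fixedField (Subgroup.zpowers τ) with hKp
  have hNKp : NumberField Kp := NumberField.of_module_finite K Kp
  have hGKp : IsGalois Kp L := inferInstance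
  have hrank : 2 ≤ Module.finrank Kp L := by
    rw [hKp, IntermediateField.finrank_fixedField_eq_card]
    rw [Nat.card_zpowers]
    have h1 : orderOf τ ≠ 1 := fun h => hτ1 (orderOf_eq_one_iff.1 h)
    have h2 : 0 < orderOf τ := orderOf_pos τ
    omega
  have hfc : {q : HeightOneSpectrum (𝓞 Kp) | ((G.leadingCoeff : ℤ) : 𝓞 Kp) ∈ q.asIdeal}.Finite :=
    Pool.Agent.H96.TC.finite_mem (by exact_mod_cast hG)
  have hfm : {q : HeightOneSpectrum (𝓞 Kp) | (m : 𝓞 Kp) ∈ q.asIdeal}.Finite :=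
    Pool.Agent.H96.TC.finite_mem (by exact_mod_cast hne.ne)
  obtain ⟨C, δ, hδ, hmain⟩ := nonsplit_quant (E := Kp) (M := L) hrank _ (hfc.union hfm)
  have hα' : G.eval₂ (Int.castRingHom Kp) (algebraMap K Kp α) = 0 := by
    have h1 := Polynomial.hom_eval₂ G (Int.castRingHom K) (algebraMap K Kp) α
    rw [hα, map_zero] at h1
    have h2 : (algebraMap K Kp).comp (Int.castRingHom K) = Int.castRingHom Kp :=
      RingHom.ext_int _ _
    rw [h2] at h1
    exact h1.symm
  refine ⟨|C|, min δ 1, lt_min hδ one_pos, fun x hx1 hx2 => ?_⟩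
  have hxδ : x < 1 + δ := by
    have := min_le_left δ 1
    linarith
  have hx2' : x < 2 := by
    have := min_le_right δ 1
    linarith
  obtain ⟨Q, hQ, hQs⟩ := hmain x hx1 hxδ
  refine ⟨Q.image nm, ?_, ?_⟩
  · intro p hp
    obtain ⟨q, hq, rfl⟩ := Finset.mem_image.1 hp
    obtain ⟨h1, h2, h3⟩ := hQ q hq
    rw [Set.mem_union, not_or] at h1
    refine ⟨h2, ?_, pv_root G _ hα' q h1.1 h2⟩
    obtain ⟨Q', σ, hσ1, hσ2, hσ3⟩ := frob (E := Kp) (L := L) q
    have hσζ := hσ3 m ζ hζ.pow_eq_one h1.2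
    have hv := hval (nm q) (σ.restrictScalars K) hσζ
    have hmem : σ.restrictScalars K ∈ Kp.fixingSubgroup := by
      intro y
      exact σ.commutes y
    have hfix : Kp.fixingSubgroup = Subgroup.zpowers τ :=
      IntermediateField.fixingSubgroup_fixedField _
    have hmem' : σ.restrictScalars K ∈ Subgroup.zpowers τ := by
      rw [← hfix]
      exact hmem
    obtain ⟨i, hi⟩ := Subgroup.mem_zpowers_iff.1 hmem'
    have hτ2 : (χ τ) * (χ τ) = 1 := by
      rw [hτv]
      simp
    have hχi : χ (σ.restrictScalars K) = (χ τ) ^ i := by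
      rw [← hi, map_zpow]
    rcases Int.even_or_odd i with ⟨j, hj⟩ | ⟨j, hj⟩
    · exfalso
      have h4 : χ (σ.restrictScalars K) = 1 := by
        rw [hχi, hj, ← two_mul, zpow_mul]
        have h5 : (χ τ) ^ (2 : ℤ) = 1 := by
          rw [zpow_two]
          exact hτ2
        rw [h5, one_zpow]
      have h5 : σ.restrictScalars K = 1 := hχinj (h4.trans (map_one χ).symm)
      have h6 : ∀ y : L, σ y = y := fun y => by
        have := congrArg (fun e : L ≃ₐ[K] L => e y) h5
        exact this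
      apply h3 Q' hσ1
      refine nm_eq_of_frob q Q' hσ1 fun y => ?_
      have h7 := hσ2 y
      have h8 : σ • y = y := by
        apply RingOfIntegers.ext
        exact h6 _
      rw [h8] at h7
      exact h7
    · have h4 : χ (σ.restrictScalars K) = -1 := by
        rw [hχi, hj, zpow_add, zpow_one, zpow_mul]
        have h5 : (χ τ) ^ (2 : ℤ) = 1 := by
          rw [zpow_two]
          exact hτ2
        rw [h5, one_zpow, one_mul, hτv]
      rw [← hv, h4, Units.val_neg, Units.val_one]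
  · have hmem : ∀ q : HeightOneSpectrum (𝓞 Kp), ((nm q : ℕ) : 𝓞 Kp) ∈ q.asIdeal := by
      intro q
      have h3 := Ideal.absNorm_mem q.asIdeal
      rwa [Ideal.absNorm_apply, Submodule.cardQuot_apply] at h3
    set D : ℕ := Module.finrank ℚ K * m with hD
    have hrk : Module.finrank ℚ Kp ≤ D := by
      have h1 : Module.finrank ℚ Kp ≤ Module.finrank ℚ L := by
        have h2 := Module.finrank_mul_finrank ℚ Kp L
        rw [← h2]
        exact Nat.le_mul_of_pos_right _ (by omega)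
      have h2 := Module.finrank_mul_finrank ℚ K L
      have h3 : Module.finrank K L ≤ m := by
        rw [← IsGalois.card_aut_eq_finrank]
        have h4 : Nat.card (L ≃ₐ[K] L) ≤ Nat.card (ZMod m)ˣ :=
          Nat.card_le_card_of_injective _ hχinj
        have h5 : Nat.card (ZMod m)ˣ ≤ Nat.card (ZMod m) :=
          Nat.card_le_card_of_injective _ Units.val_injective
        rw [Nat.card_zmod] at h5
        exact h4.trans h5
      rw [hD]
      calc Module.finrank ℚ Kp ≤ Module.finrank ℚ L := h1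
        _ = Module.finrank ℚ K * Module.finrank K L := h2.symm
        _ ≤ _ := Nat.mul_le_mul_left _ h3
    have hD0 : 0 < D := lt_of_lt_of_le Module.finrank_pos hrk
    have h3 : ∑ q ∈ Q, (nm q : ℝ) ^ (-x) =
        ∑ p' ∈ Q.image nm, ∑ q ∈ Q with nm q = p', (nm q : ℝ) ^ (-x) :=
      (Finset.sum_fiberwise_of_maps_to (fun q hq => Finset.mem_image_of_mem _ hq) _).symm
    have h4 : ∀ p' ∈ Q.image nm, ∑ q ∈ Q with nm q = p', (nm q : ℝ) ^ (-x) ≤
        (D : ℝ) * (p' : ℝ) ^ (-x) := by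
      intro p' hp'
      obtain ⟨q1, hq1, hq1'⟩ := Finset.mem_image.1 hp'
      have hpr : p'.Prime := hq1' ▸ (hQ q1 hq1).2.1
      have h5 : ∑ q ∈ Q with nm q = p', (nm q : ℝ) ^ (-x) =
          ∑ q ∈ Q with nm q = p', (p' : ℝ) ^ (-x) :=
        Finset.sum_congr rfl fun q hq => by rw [(Finset.mem_filter.1 hq).2]
      rw [h5, Finset.sum_const, nsmul_eq_mul]
      refine mul_le_mul_of_nonneg_right ?_ (by positivity)
      have h6 := pv_card hpr (Q.filter fun q => nm q = p') (fun q hq => by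
        have h7 := (Finset.mem_filter.1 hq).2
        refine ⟨?_, h7.ge⟩
        rw [← h7]
        exact hmem q)
      exact_mod_cast h6.trans hrk
    have h5 : ∑ q ∈ Q, (nm q : ℝ) ^ (-x) ≤ D * ∑ p ∈ Q.image nm, (p : ℝ) ^ (-x) := by
      rw [h3, Finset.mul_sum]
      exact Finset.sum_le_sum h4
    have hD1 : (1 : ℝ) ≤ D := by exact_mod_cast hD0
    have h6 : 1 / 2 * Real.log (1 / (x - 1)) - C ≤ D * ∑ p ∈ Q.image nm, (p : ℝ) ^ (-x) :=
      hQs.trans h5
    have h7 : (1 / 2 * Real.log (1 / (x - 1)) - C) / D ≤ ∑ p ∈ Q.image nm, (p : ℝ) ^ (-x) := by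
      rw [div_le_iff₀ (by linarith)]
      linarith
    refine le_trans ?_ h7
    have h8 : C / D ≤ |C| := by
      rw [div_le_iff₀ (by linarith)]
      have := le_abs_self C
      have := abs_nonneg C
      nlinarith
    have h9 : 1 / (2 * (D : ℝ)) * Real.log (1 / (x - 1)) =
        1 / 2 * Real.log (1 / (x - 1)) / D := by
      field_simp
    rw [h9, sub_div]
    linarith

end Pool.Agent.Helper37.PV
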