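import Mathlib
import Pool.Agent.Helper37.PV.Ga2

/-!
# PV: truncated sums over the primes `= -1 mod m` with a root
-/

set_option autoImplicit false

open NumberField IsDedekindDomain

namespace Pool.Agent.Helper37.PV

open Pool.Agent.Helper45.TC

theorem neg_one_poly (F : Polynomial ℤ) (m : ℕ) (hm : 3 ≤ m) {p₀ : ℕ} (hp₀ : p₀.Prime)
    (hpm : ¬ p₀ ∣ m) (n₀ : ℤ) (h1 : (p₀ : ℤ) ∣ F.eval n₀)
    (h2 : ¬ (p₀ : ℤ) ∣ F.derivative.eval n₀) (k : ℕ) (hk : (p₀ : ZMod m) ^ k = -1) :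
    ∃ C δ : ℝ, 0 < δ ∧ ∀ x : ℝ, 1 < x → x < 1 + δ → ∃ S : Finset ℕ,
      (∀ p ∈ S, p.Prime ∧ ((p : ℕ) : ZMod m) = -1 ∧ ∃ n : ℤ, (p : ℤ) ∣ F.eval n) ∧
      1 / (2 * (F.natDegree * m : ℕ)) * Real.log (1 / (x - 1)) - C ≤
        ∑ p ∈ S, (p : ℝ) ^ (-x) := by
  classical
  obtain ⟨G, hGF, hirr, hG1, hG2⟩ := exists_irred_factor hp₀ n₀ h1 h2
  have hfp : Fact p₀.Prime := ⟨hp₀⟩
  have hfi : Fact (Irreducible (G.map (Int.castRingHom ℚ))) := ⟨hirr⟩
  let E := AdjoinRoot (G.map (Int.castRingHom ℚ))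
  have hfd : FiniteDimensional ℚ E := (AdjoinRoot.powerBasis hirr.ne_zero).finite
  have hNE : NumberField E := ⟨⟩
  obtain ⟨f⟩ := exists_hom_of_simple (G := G) n₀ hG1 hG2
  obtain ⟨q₀, hq₀⟩ := exists_prime_of_hom (E := E) p₀ f
  have hlc : G.leadingCoeff ≠ 0 := by
    intro h3
    rw [Polynomial.leadingCoeff_eq_zero] at h3
    rw [h3, Polynomial.map_zero] at hirr
    exact hirr.ne_zero rfl
  have hα : G.eval₂ (Int.castRingHom E) (AdjoinRoot.root (G.map (Int.castRingHom ℚ)) : E) = 0 := by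
    have h3 := AdjoinRoot.eval₂_root (G.map (Int.castRingHom ℚ))
    rw [Polynomial.eval₂_map] at h3
    have h4 : (AdjoinRoot.of (G.map (Int.castRingHom ℚ))).comp (Int.castRingHom ℚ) =
      Int.castRingHom E := RingHom.ext_int _ _
    rw [h4] at h3
    exact h3
  have hmem : ∀ q : HeightOneSpectrum (𝓞 E), ((nm q : ℕ) : 𝓞 E) ∈ q.asIdeal := by
    intro q
    have h3 := Ideal.absNorm_mem q.asIdeal
    rwa [Ideal.absNorm_apply, Submodule.cardQuot_apply] at h3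
  have hmq₀ : (m : 𝓞 E) ∉ q₀.asIdeal := by
    intro h3
    have h4 := hmem q₀
    rw [hq₀] at h4
    obtain ⟨a, b, hab⟩ := Nat.isCoprime_iff_coprime.2 ((Nat.Prime.coprime_iff_not_dvd hp₀).2 hpm)
    apply q₀.isPrime.ne_top
    rw [Ideal.eq_top_iff_one]
    have h5 : (1 : 𝓞 E) = (a : 𝓞 E) * (p₀ : 𝓞 E) + (b : 𝓞 E) * (m : 𝓞 E) := by
      have h6 := congrArg (fun z : ℤ => (z : 𝓞 E)) hab
      push_cast at h6
      exact h6.symm
    rw [h5]
    exact Ideal.add_mem _ (Ideal.mul_mem_left _ _ h4) (Ideal.mul_mem_left _ _ h3)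
  obtain ⟨C, δ, hδ, hmain⟩ := neg_one_sum G _ hα hlc m hm q₀ hmq₀ k (by rw [hq₀]; exact hk)
  have hF : F ≠ 0 := by
    rintro rfl
    simp at h2
  have hrk : Module.finrank ℚ E ≤ F.natDegree := by
    have h3 : Module.finrank ℚ E = G.natDegree := by
      rw [(AdjoinRoot.powerBasis hirr.ne_zero).finrank, AdjoinRoot.powerBasis_dim,
        Polynomial.natDegree_map_eq_of_injective Int.cast_injective]
    rw [h3]
    exact Polynomial.natDegree_le_of_dvd hGF hF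
  have hrk0 : 0 < Module.finrank ℚ E := Module.finrank_pos
  refine ⟨C, min δ 1, lt_min hδ one_pos, fun x hx1 hx2 => ?_⟩
  have hxδ : x < 1 + δ := by
    have := min_le_left δ 1
    linarith
  have hx2' : x < 2 := by
    have := min_le_right δ 1
    linarith
  obtain ⟨S, hS, hSs⟩ := hmain x hx1 hxδ
  refine ⟨S, fun p hp => ?_, le_trans ?_ hSs⟩
  · obtain ⟨h3, h4, n, hn⟩ := hS p hp
    refine ⟨h3, h4, n, hn.trans ?_⟩
    obtain ⟨K, hK⟩ := hGF
    rw [hK, Polynomial.eval_mul]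
    exact Dvd.intro _ rfl
  · have hy : 0 < x - 1 := by linarith
    have hL : 0 ≤ Real.log (1 / (x - 1)) := Real.log_nonneg (by
      rw [le_div_iff₀ hy]
      linarith)
    have h3 : 1 / (2 * ((F.natDegree * m : ℕ) : ℝ)) ≤
        1 / (2 * ((Module.finrank ℚ E * m : ℕ) : ℝ)) := by
      have h4 : 0 < Module.finrank ℚ E * m := Nat.mul_pos hrk0 (by omega)
      have h5 : (0 : ℝ) < ((Module.finrank ℚ E * m : ℕ) : ℝ) := by exact_mod_cast h4
      have h6 : ((Module.finrank ℚ E * m : ℕ) : ℝ) ≤ ((F.natDegree * m : ℕ) : ℝ) := by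
        exact_mod_cast Nat.mul_le_mul_right m hrk
      exact one_div_le_one_div_of_le (by linarith) (by linarith)
    have h4 := mul_le_mul_of_nonneg_right h3 hL
    linarith

/-- the tail of the zeta function -/
theorem tail_le {x : ℝ} (hx : 1 < x) {a : ℕ} (ha : 1 ≤ a) (M : ℕ) :
    ∑ n ∈ Finset.Ioc a M, (n : ℝ) ^ (-x) ≤ (a : ℝ) ^ (1 - x) / (x - 1) := by
  have hx1 : 0 < x - 1 := by linarith
  have key : ∀ j : ℕ, ∑ n ∈ Finset.Ioc a (a + j), (n : ℝ) ^ (-x) ≤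
      ((a : ℝ) ^ (1 - x) - ((a + j : ℕ) : ℝ) ^ (1 - x)) / (x - 1) := by
    intro j
    induction j with
    | zero => simp
    | succ j ih =>
      rw [← add_assoc, Finset.sum_Ioc_succ_top (by omega)]
      have h1 : (((a + j + 1 : ℕ)) : ℝ) ^ (-x) ≤
          (((a + j : ℕ) : ℝ) ^ (1 - x) - ((a + j + 1 : ℕ) : ℝ) ^ (1 - x)) / (x - 1) := by
        rw [le_div_iff₀ hx1]
        set n : ℝ := ((a + j + 1 : ℕ) : ℝ) with hn
        have hn1 : ((a + j : ℕ) : ℝ) = n - 1 := by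
          rw [hn]
          push_cast
          ring
        have hn2 : 2 ≤ n := by
          rw [hn]
          exact_mod_cast (by omega : 2 ≤ a + j + 1)
        have hn0 : 0 < n := by linarith
        rw [hn1]
        have h2 : (n - 1) ^ (1 - x) = n ^ (1 - x) * (1 - n⁻¹) ^ (1 - x) := by
          rw [← Real.mul_rpow hn0.le (by
            rw [sub_nonneg]
            exact inv_le_one_of_one_le₀ (by linarith))]
          congr 1
          field_simp
        have h3 : 1 + (x - 1) * n⁻¹ ≤ (1 - n⁻¹) ^ (1 - x) := by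
          have h4 : 0 < 1 - n⁻¹ := by
            have : n⁻¹ ≤ 2⁻¹ := inv_anti₀ (by norm_num) hn2
            linarith
          rw [Real.rpow_def_of_pos h4]
          have h5 : Real.log (1 - n⁻¹) ≤ -n⁻¹ := by
            have := Real.log_le_sub_one_of_pos h4
            linarith
          have h6 : (x - 1) * n⁻¹ ≤ Real.log (1 - n⁻¹) * (1 - x) := by nlinarith
          have h7 := Real.add_one_le_exp (Real.log (1 - n⁻¹) * (1 - x))
          linarith
        have h4 : n ^ (-x) = n ^ (1 - x) * n⁻¹ := by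
          rw [← Real.rpow_neg_one n, ← Real.rpow_add hn0]
          congr 1
          ring
        rw [h2, h4]
        have h5 : 0 < n ^ (1 - x) := Real.rpow_pos_of_pos hn0 _
        have h6 := mul_le_mul_of_nonneg_left h3 h5.le
        linarith
      refine (add_le_add ih h1).trans (le_of_eq ?_)
      rw [← add_div]
      congr 1
      ring
  rcases Nat.lt_or_ge M a with hM | hM
  · rw [Finset.Ioc_eq_empty (by omega), Finset.sum_empty]
    positivity
  · obtain ⟨j, rfl⟩ := Nat.exists_eq_add_of_le hM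
    refine (key j).trans ?_
    refine div_le_div_of_nonneg_right ?_ hx1.le
    have : 0 ≤ ((a + j : ℕ) : ℝ) ^ (1 - x) := by positivity
    linarith

open Classical in
theorem neg_one_trunc (F : Polynomial ℤ) (m : ℕ) (hm : 3 ≤ m) {p₀ : ℕ} (hp₀ : p₀.Prime)
    (hpm : ¬ p₀ ∣ m) (n₀ : ℤ) (h1 : (p₀ : ℤ) ∣ F.eval n₀)
    (h2 : ¬ (p₀ : ℤ) ∣ F.derivative.eval n₀) (k : ℕ) (hk : (p₀ : ZMod m) ^ k = -1) :
    ∃ C Y₀ : ℝ, 1 ≤ Y₀ ∧ ∀ Y : ℝ, Y₀ ≤ Y → ∀ Z : ℕ, 1 ≤ Z → Y * Real.log Y ≤ Real.log Z →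
      1 / (2 * (F.natDegree * m : ℕ)) * Real.log Y - C ≤
        ∑ p ∈ (Finset.range (Z + 1)).filter (fun p : ℕ => p.Prime ∧ ((p : ℕ) : ZMod m) = -1 ∧
          ∃ n : ℤ, (p : ℤ) ∣ F.eval n), (p : ℝ)⁻¹ := by
  obtain ⟨C, δ, hδ, hmain⟩ := neg_one_poly F m hm hp₀ hpm n₀ h1 h2 k hk
  refine ⟨C + 1, max 1 (1 / δ + 1), le_max_left _ _, fun Y hY Z hZ1 hZ => ?_⟩
  have hY1 : 1 ≤ Y := (le_max_left _ _).trans hY
  have hY2 : 1 / δ + 1 ≤ Y := (le_max_right _ _).trans hY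
  have hY0 : 0 < Y := by linarith
  set x : ℝ := 1 + 1 / Y with hx
  have hx1 : 1 < x := by
    have : 0 < 1 / Y := by positivity
    linarith
  have hxδ : x < 1 + δ := by
    have h3 : 1 / Y < δ := by
      rw [div_lt_iff₀ hY0]
      have h4 : δ * (1 / δ + 1) ≤ δ * Y := mul_le_mul_of_nonneg_left hY2 hδ.le
      have h5 : δ * (1 / δ + 1) = 1 + δ := by field_simp
      linarith
    linarith
  obtain ⟨S, hS, hSs⟩ := hmain x hx1 hxδ
  have hxY : 1 / (x - 1) = Y := by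
    rw [hx]
    field_simp
    ring
  rw [hxY] at hSs
  have hsplit : ∑ p ∈ S, (p : ℝ) ^ (-x) = ∑ p ∈ S with p ≤ Z, (p : ℝ) ^ (-x) +
      ∑ p ∈ S with ¬ p ≤ Z, (p : ℝ) ^ (-x) :=
    (Finset.sum_filter_add_sum_filter_not S _ _).symm
  have hsmall : ∑ p ∈ S with p ≤ Z, (p : ℝ) ^ (-x) ≤
      ∑ p ∈ (Finset.range (Z + 1)).filter (fun p : ℕ => p.Prime ∧ ((p : ℕ) : ZMod m) = -1 ∧
          ∃ n : ℤ, (p : ℤ) ∣ F.eval n), (p : ℝ)⁻¹ := by
    have h3 : ∑ p ∈ S with p ≤ Z, (p : ℝ) ^ (-x) ≤ ∑ p ∈ S with p ≤ Z, (p : ℝ)⁻¹ := by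
      refine Finset.sum_le_sum fun p hp => ?_
      have h4 : (1 : ℝ) ≤ p := by
        exact_mod_cast (hS p (Finset.mem_filter.1 hp).1).1.one_lt.le
      rw [← Real.rpow_neg_one]
      exact Real.rpow_le_rpow_of_exponent_le h4 (by linarith)
    refine h3.trans (Finset.sum_le_sum_of_subset_of_nonneg ?_ fun _ _ _ => by positivity)
    intro p hp
    rw [Finset.mem_filter] at hp
    rw [Finset.mem_filter, Finset.mem_range]
    exact ⟨by omega, hS p hp.1⟩
  have hlarge : ∑ p ∈ S with ¬ p ≤ Z, (p : ℝ) ^ (-x) ≤ 1 := by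
    have h3 : ∑ p ∈ S with ¬ p ≤ Z, (p : ℝ) ^ (-x) ≤
        ∑ n ∈ Finset.Ioc Z (S.sup id), (n : ℝ) ^ (-x) := by
      refine Finset.sum_le_sum_of_subset_of_nonneg ?_ fun _ _ _ => by positivity
      intro p hp
      rw [Finset.mem_filter] at hp
      rw [Finset.mem_Ioc]
      exact ⟨by omega, Finset.le_sup (f := id) hp.1⟩
    refine h3.trans ((tail_le hx1 hZ1 _).trans ?_)
    have hxm : x - 1 = 1 / Y := by rw [hx]; ring
    have h1x : 1 - x = -(1 / Y) := by rw [hx]; ring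
    have hZpos : (0 : ℝ) < Z := by exact_mod_cast hZ1
    rw [hxm, h1x, Real.rpow_def_of_pos hZpos]
    have h4 : Real.log Z * -(1 / Y) ≤ -Real.log Y := by
      have h5 : Real.log Y ≤ Real.log Z * (1 / Y) := by
        rw [mul_one_div, le_div_iff₀ hY0]
        linarith
      linarith
    have h5 : Real.exp (Real.log Z * -(1 / Y)) ≤ 1 / Y := by
      refine (Real.exp_le_exp.2 h4).trans ?_
      rw [Real.exp_neg, Real.exp_log hY0, one_div]
    rw [div_le_one (by positivity)]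
    exact h5
  linarith

end Pool.Agent.Helper37.PV
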