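import Mathlib
import Pool.Agent.Helper37.PV.Main
import Pool.Agent.Helper37.PV.Tr
import Pool.Agent.Helper37.PV.Pa
import Pool.Agent.Helper37.PV.Br

/-!
# PV: the quantitative theorem
-/

set_option autoImplicit false

namespace Pool.Agent.Helper37.PV

open Filter Topology Pool.Agent.Helper95.FC

/-- `p` is a prime `= -1 mod a l` with a root of `g + l` -/
def Tp (g : Polynomial ℤ) (a l p : ℕ) : Prop :=
  p.Prime ∧ ((p : ℕ) : ZMod (a * l)) = -1 ∧
    ∃ n : ℤ, (p : ℤ) ∣ (g + Polynomial.C (l : ℤ)).eval n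

open Classical in
theorem exists_shifts (g : Polynomial ℤ) (hirr : Irreducible (g.map (Int.castRingHom ℚ)))
    (hlc : 0 < g.leadingCoeff) (a : ℕ) (ha : 0 < a) (κ : ℝ) :
    ∃ (S : Finset ℕ) (C Y₀ : ℝ), (∀ l ∈ S, 0 < l) ∧ S.Nonempty ∧ 1 ≤ Y₀ ∧
      ∀ Y : ℝ, Y₀ ≤ Y → ∀ Z : ℕ, 1 ≤ Z → Y * Real.log Y ≤ Real.log Z →
        κ * Real.log Y - C ≤
          ∑ l ∈ S, ∑ p ∈ (Finset.range (Z + 1)).filter (Tp g a l), (p : ℝ)⁻¹ := by
  have hinj : Function.Injective (Int.castRingHom ℚ) := Int.cast_injective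
  have hd : 0 < g.natDegree := by
    have h1 : 0 < (g.map (Int.castRingHom ℚ)).natDegree := hirr.natDegree_pos
    rwa [Polynomial.natDegree_map_eq_of_injective hinj] at h1
  obtain ⟨p₀, x₀, q, c, b, hp₀, hq, hc, hx₀, hl⟩ := exists_params2 g hirr hlc a ha
  obtain ⟨S, hS, hSκ⟩ := exists_fin q hq c hc (max b 3) (2 * (g.natDegree * a : ℕ) * |κ| + 1)
  have hSne : S.Nonempty := by
    rw [Finset.nonempty_iff_ne_empty]
    rintro rfl
    rw [Finset.sum_empty] at hSκ
    have : 0 ≤ 2 * ((g.natDegree * a : ℕ) : ℝ) * |κ| := by positivity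
    linarith
  have hall : ∀ l : ℕ, ∃ C Y₀ : ℝ, 1 ≤ Y₀ ∧ (l ∈ S → ∀ Y : ℝ, Y₀ ≤ Y → ∀ Z : ℕ, 1 ≤ Z →
      Y * Real.log Y ≤ Real.log Z →
      1 / (2 * (g.natDegree * (a * l) : ℕ)) * Real.log Y - C ≤
        ∑ p ∈ (Finset.range (Z + 1)).filter (Tp g a l), (p : ℝ)⁻¹) := by
    intro l
    by_cases hlS : l ∈ S
    · obtain ⟨h1, h2, h3⟩ := hS l hlS
      have hb1 : b < l := lt_of_le_of_lt (le_max_left _ _) h1
      have hb2 : 3 < l := lt_of_le_of_lt (le_max_right _ _) h1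
      obtain ⟨h4, h5, h6⟩ := hl l hb1 h2 h3
      obtain ⟨C, Y₀, hY₀, hmain⟩ := neg_one_trunc (g + Polynomial.C (l : ℤ)) (a * l)
        (by nlinarith) hp₀ h4 x₀ (by rw [Polynomial.eval_add, Polynomial.eval_C]; exact h5)
        (by rw [Polynomial.derivative_add, Polynomial.derivative_C, add_zero]; exact hx₀)
        (l / 2) h6
      rw [Polynomial.natDegree_add_C] at hmain
      refine ⟨C, Y₀, hY₀, fun _ Y hY Z hZ1 hZ => (hmain Y hY Z hZ1 hZ).trans (le_of_eq ?_)⟩
      refine Finset.sum_congr ?_ fun _ _ => rfl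
      ext p
      simp only [Finset.mem_filter, Tp]
    · exact ⟨0, 1, le_rfl, fun h => absurd h hlS⟩
  choose C Y₀ hY₀ hmain using hall
  refine ⟨S, ∑ l ∈ S, C l, 1 + ∑ l ∈ S, Y₀ l, fun l hl => (hS l hl).2.1.pos, hSne, ?_,
    fun Y hY Z hZ1 hZ => ?_⟩
  · have : 0 ≤ ∑ l ∈ S, Y₀ l := Finset.sum_nonneg fun l _ => zero_le_one.trans (hY₀ l)
    linarith
  · have hYl : ∀ l ∈ S, Y₀ l ≤ Y := by
      intro l hl
      have h1 : Y₀ l ≤ ∑ l ∈ S, Y₀ l :=
        Finset.single_le_sum (f := Y₀) (fun l _ => zero_le_one.trans (hY₀ l)) hl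
      linarith
    have hY1 : 1 ≤ Y := by
      obtain ⟨l, hl⟩ := hSne
      exact (hY₀ l).trans (hYl l hl)
    have h1 : ∑ l ∈ S, (1 / (2 * ((g.natDegree * (a * l) : ℕ) : ℝ)) * Real.log Y - C l) ≤
        ∑ l ∈ S, ∑ p ∈ (Finset.range (Z + 1)).filter (Tp g a l), (p : ℝ)⁻¹ :=
      Finset.sum_le_sum fun l hl => hmain l hl Y (hYl l hl) Z hZ1 hZ
    refine le_trans ?_ h1
    rw [Finset.sum_sub_distrib, ← Finset.sum_mul]
    have h2 : κ ≤ ∑ l ∈ S, 1 / (2 * ((g.natDegree * (a * l) : ℕ) : ℝ)) := by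
      have h3 : ∑ l ∈ S, 1 / (2 * ((g.natDegree * (a * l) : ℕ) : ℝ)) =
          1 / (2 * ((g.natDegree * a : ℕ) : ℝ)) * ∑ l ∈ S, (1 : ℝ) / l := by
        rw [Finset.mul_sum]
        refine Finset.sum_congr rfl fun l hl => ?_
        have h4 : (l : ℝ) ≠ 0 := by exact_mod_cast (hS l hl).2.1.ne_zero
        have h5 : (g.natDegree : ℝ) ≠ 0 := by exact_mod_cast hd.ne'
        have h6 : (a : ℝ) ≠ 0 := by exact_mod_cast ha.ne'
        push_cast
        field_simp
      rw [h3]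
      have h4 : (0 : ℝ) < 2 * ((g.natDegree * a : ℕ) : ℝ) := by
        have : 0 < g.natDegree * a := Nat.mul_pos hd ha
        have : (0 : ℝ) < ((g.natDegree * a : ℕ) : ℝ) := by exact_mod_cast this
        linarith
      have h5 : κ ≤ |κ| := le_abs_self κ
      rw [one_div, ← div_eq_inv_mul, le_div_iff₀ h4]
      have h6 := abs_nonneg κ
      nlinarith
    have h3 : κ * Real.log Y ≤ (∑ l ∈ S, 1 / (2 * ((g.natDegree * (a * l) : ℕ) : ℝ))) *
        Real.log Y := mul_le_mul_of_nonneg_right h2 (Real.log_nonneg hY1)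
    linarith

private lemma qt_r1 {Λ t r : ℝ} (hΛ : 1 ≤ Λ) (ht : 3 ≤ t) (hr : r ≤ 18 * Λ * t) :
    r * (2 * t) ≤ 40 * Λ * t ^ 2 := by
  have h1 : r * (2 * t) ≤ 18 * Λ * t * (2 * t) := mul_le_mul_of_nonneg_right hr (by linarith)
  have h2 : 18 * Λ * t * (2 * t) = 36 * (Λ * t ^ 2) := by ring
  have h3 : 0 ≤ Λ * t ^ 2 := by positivity
  have h4 : 40 * Λ * t ^ 2 = 40 * (Λ * t ^ 2) := by ring
  linarith

private lemma qt_r2 {Λ Z e : ℝ} (hΛ : 1 ≤ Λ) (hZ : Z ≤ e) (h3 : 3 * Λ ≤ e) (h1 : 1 ≤ e) :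
    1 + Λ * (Z + 1) ≤ e * e := by
  have h2 : Λ * (Z + 1) ≤ Λ * (2 * e) := mul_le_mul_of_nonneg_left (by linarith) (by linarith)
  have h4 : 3 * Λ * e ≤ e * e := mul_le_mul_of_nonneg_right h3 (by linarith)
  have h5 : 1 ≤ Λ * e := by
    have := mul_le_mul hΛ h1 zero_le_one (by linarith)
    linarith
  linarith

private lemma qt_r3 {Λ t c : ℝ} (hΛ : 1 ≤ Λ) (ht : 3 ≤ t) (hc : c < 4 * Λ * (1 + t) + 1) :
    2 * c ≤ 18 * Λ * t := by
  have h1 : Λ ≤ Λ * t := by
    have := mul_le_mul_of_nonneg_left (by linarith : (1 : ℝ) ≤ t) (by linarith : 0 ≤ Λ)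
    linarith
  have h2 : 18 * Λ * t = 18 * (Λ * t) := by ring
  have h3 : 4 * Λ * (1 + t) = 4 * Λ + 4 * (Λ * t) := by ring
  linarith

private lemma qt_r4 {Λ t r : ℝ} (hΛ : 1 ≤ Λ) (ht : 3 ≤ t) (hr : 8 * Λ * (1 + t) ≤ r) :
    t ≤ r := by
  have h1 : 8 * (1 + t) ≤ 8 * Λ * (1 + t) :=
    mul_le_mul_of_nonneg_right (by linarith) (by linarith)
  linarith

open Classical in
theorem sieve_shift (g : Polynomial ℤ) (a : ℕ) (S : Finset ℕ) (hne : S.Nonempty) :
    ∃ C₁ Λ : ℝ, 1 ≤ Λ ∧ ∀ (t : ℝ), 3 * Λ ≤ t → ∀ N M : ℕ,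
      (((Finset.range N).filter fun n : ℕ => ∀ l ∈ S, ∀ p : ℕ, Tp g a l p →
        ¬ (p : ℤ) ∣ (g + Polynomial.C (l : ℤ)).eval ((M : ℤ) + n)).card : ℝ) ≤
      N * (Real.exp (C₁ - ∑ l ∈ S, ∑ p ∈ (Finset.range (⌊Real.exp t⌋₊ + 1)).filter (Tp g a l),
        (p : ℝ)⁻¹) + Real.exp (-t)) + Real.exp (40 * Λ * t ^ 2) := by
  have hcard1 : 1 ≤ S.card := Finset.card_pos.2 hne
  set Λ : ℝ := (S.card : ℝ) with hΛ
  have hΛ1 : 1 ≤ Λ := by rw [hΛ]; exact_mod_cast hcard1
  set y₀ : ℕ := 2 * S.card + ∑ l ∈ S, l with hy₀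
  refine ⟨Λ * (y₀ + 1), Λ, hΛ1, fun t ht N M => ?_⟩
  have ht3 : 3 ≤ t := by linarith
  set Z : ℕ := ⌊Real.exp t⌋₊ with hZ
  have hexpt : 1 ≤ Real.exp t := Real.one_le_exp (by linarith)
  have hZ1 : 1 ≤ Z := by
    rw [hZ]
    exact Nat.le_floor (by exact_mod_cast hexpt)
  have hZe : (Z : ℝ) ≤ Real.exp t := Nat.floor_le (by positivity)
  have hlogZ : Real.log Z ≤ t := by
    have := Real.log_le_log (by exact_mod_cast hZ1) hZe
    rwa [Real.log_exp] at this
  set P : Finset ℕ := (Finset.range (Z + 1)).filter (fun p => p.Prime ∧ y₀ < p) with hP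
  -- roots
  have hroot : ∀ l p : ℕ, ∃ r : ℕ, Tp g a l p → r < p ∧
      (p : ℤ) ∣ (g + Polynomial.C (l : ℤ)).eval ((M : ℤ) + r) := by
    intro l p
    by_cases hT : Tp g a l p
    · obtain ⟨h1, -, n, hn⟩ := hT
      refine ⟨((n - M) % p).toNat, fun _ => ?_⟩
      have h6 : 0 ≤ (n - M) % p := Int.emod_nonneg _ (by exact_mod_cast h1.ne_zero)
      have h7 : (n - M) % p < p := Int.emod_lt_of_pos _ (by exact_mod_cast h1.pos)
      refine ⟨by omega, ?_⟩
      rw [Int.toNat_of_nonneg h6]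
      have h8 : (p : ℤ) ∣ (n - M) % p - (n - M) :=
        Int.modEq_iff_dvd.1 (Int.mod_modEq (n - M) p).symm
      have h8' : (p : ℤ) ∣ ((M : ℤ) + (n - M) % p) - n := by
        have e : ((M : ℤ) + (n - M) % p) - n = (n - M) % p - (n - M) := by ring
        rw [e]
        exact h8
      have h9 : ((M : ℤ) + (n - M) % p) - n ∣
          (g + Polynomial.C (l : ℤ)).eval ((M : ℤ) + (n - M) % p) -
          (g + Polynomial.C (l : ℤ)).eval n := Polynomial.sub_dvd_eval_sub _ _ _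
      have h10 := dvd_add (h8'.trans h9) hn
      rwa [sub_add_cancel] at h10
    · exact ⟨0, fun h => absurd h hT⟩
  choose ρ hρ using hroot
  set E : ℕ → Finset ℕ := fun p => (S.filter fun l => Tp g a l p).image fun l => ρ l p with hE
  have hlS : ∀ l ∈ S, l ≤ y₀ := by
    intro l hl
    have h1 : l ≤ ∑ l ∈ S, l := Finset.single_le_sum (f := fun l : ℕ => l)
      (fun _ _ => Nat.zero_le _) hl
    omega
  have hEc : ∀ p ∈ P, (E p).card = (S.filter fun l => Tp g a l p).card := by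
    intro p hp
    rw [hE]
    refine Finset.card_image_of_injOn ?_
    intro l hl l' hl' heq
    rw [Finset.mem_coe, Finset.mem_filter] at hl hl'
    have heq' : ρ l p = ρ l' p := heq
    have h1 := (hρ l p hl.2).2
    have h2 := (hρ l' p hl'.2).2
    rw [← heq'] at h2
    rw [Polynomial.eval_add, Polynomial.eval_C] at h1 h2
    have h3 := dvd_sub h1 h2
    rw [add_sub_add_left_eq_sub] at h3
    rw [hP, Finset.mem_filter] at hp
    have h4 := hlS l hl.1
    have h5 := hlS l' hl'.1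
    have h6 := Int.eq_zero_of_abs_lt_dvd h3 (by
      rw [abs_lt]
      constructor <;> omega)
    omega
  have hEle : ∀ p, (E p).card ≤ S.card := fun p =>
    Finset.card_image_le.trans (Finset.card_filter_le _ _)
  have hQmem : ∀ q ∈ P.toList, q.Prime ∧ y₀ < q := by
    intro q hq
    rw [Finset.mem_toList, hP, Finset.mem_filter] at hq
    exact hq.2
  have hQ : ∀ q ∈ P.toList, 0 < q ∧ (∀ e ∈ E q, e < q) ∧ ((E q).card : ℝ) / q ≤ 1 / 2 := by
    intro q hq
    obtain ⟨h1, h2⟩ := hQmem q hq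
    refine ⟨h1.pos, fun e he => ?_, ?_⟩
    · rw [hE, Finset.mem_image] at he
      obtain ⟨l, hl, rfl⟩ := he
      exact (hρ l q (Finset.mem_filter.1 hl).2).1
    · rw [div_le_iff₀ (by exact_mod_cast h1.pos)]
      have h3 : 2 * (E q).card ≤ q := by
        have := hEle q
        omega
      have h4 : (2 : ℝ) * ((E q).card : ℝ) ≤ q := by exact_mod_cast h3
      linarith
  have hPc : P.toList.Pairwise Nat.Coprime := by
    refine List.Nodup.pairwise_of_forall_ne (Finset.nodup_toList P) fun x hx y hy hxy => ?_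
    exact (Nat.coprime_primes (hQmem x hx).1 (hQmem y hy).1).2 hxy
  set x : ℕ → ℝ := fun q => ((E q).card : ℝ) / q with hx
  set L : ℝ := LL x P.toList with hL
  have hLs : L = ∑ p ∈ P, x p := by
    rw [hL, LL, Finset.sum_map_toList]
  have hWs : LL (fun q => ((E q).card : ℝ)) P.toList = ∑ p ∈ P, ((E p).card : ℝ) := by
    rw [LL, Finset.sum_map_toList]
  have hL0 : 0 ≤ L := by
    rw [hLs]
    exact Finset.sum_nonneg fun p _ => by positivity
  -- the exponent
  set r : ℕ := 2 * ⌈4 * Λ * (1 + t)⌉₊ with hr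
  have hreven : Even r := even_two_mul _
  have hr1 : 8 * Λ * (1 + t) ≤ r := by
    have := Nat.le_ceil (4 * Λ * (1 + t))
    rw [hr]
    push_cast
    linarith
  have hr2 : (r : ℝ) ≤ 18 * Λ * t := by
    have h1 := Nat.ceil_lt_add_one (a := 4 * Λ * (1 + t)) (by positivity)
    rw [hr]
    push_cast
    exact qt_r3 hΛ1 ht3 h1
  have hmain := sieve_upper E N P.toList r hreven hQ hPc
  -- the counted set
  have hsub : ((Finset.range N).filter fun n : ℕ => ∀ l ∈ S, ∀ p : ℕ, Tp g a l p →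
        ¬ (p : ℤ) ∣ (g + Polynomial.C (l : ℤ)).eval ((M : ℤ) + n)) ⊆
          good E N P.toList 1 0 := by
    intro n hn
    rw [Finset.mem_filter] at hn
    rw [good, Finset.mem_filter]
    refine ⟨hn.1, Nat.modEq_one, fun q hq hqE => ?_⟩
    rw [hE, Finset.mem_image] at hqE
    obtain ⟨l, hl, hle⟩ := hqE
    rw [Finset.mem_filter] at hl
    apply hn.2 l hl.1 q hl.2
    have h1 := (hρ l q hl.2).2
    have h2 : (q : ℤ) ∣ ((M : ℤ) + n) - ((M : ℤ) + (ρ l q : ℤ)) := by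
      have h3 : (ρ l q) ≡ n [MOD q] := by
        rw [Nat.ModEq, hle]
        exact Nat.mod_mod _ _
      rw [add_sub_add_left_eq_sub]
      exact (Nat.modEq_iff_dvd.1 h3)
    have h3 : ((M : ℤ) + n) - ((M : ℤ) + (ρ l q : ℤ)) ∣
        (g + Polynomial.C (l : ℤ)).eval ((M : ℤ) + n) -
        (g + Polynomial.C (l : ℤ)).eval ((M : ℤ) + (ρ l q : ℤ)) :=
      Polynomial.sub_dvd_eval_sub _ _ _
    have h4 := dvd_add (h2.trans h3) h1
    rwa [sub_add_cancel] at h4
  have hc : (((Finset.range N).filter fun n : ℕ => ∀ l ∈ S, ∀ p : ℕ, Tp g a l p →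
        ¬ (p : ℤ) ∣ (g + Polynomial.C (l : ℤ)).eval ((M : ℤ) + n)).card : ℝ) ≤
      ((good E N P.toList 1 0).card : ℝ) := by
    exact_mod_cast Finset.card_le_card hsub
  refine hc.trans (hmain.trans ?_)
  -- lower bound for L
  have hlow : (∑ l ∈ S, ∑ p ∈ (Finset.range (Z + 1)).filter (Tp g a l), (p : ℝ)⁻¹) -
      Λ * (y₀ + 1) ≤ L := by
    have h1 : ∀ l ∈ S, ∑ p ∈ (Finset.range (Z + 1)).filter (Tp g a l), (p : ℝ)⁻¹ ≤
        ∑ p ∈ P.filter (Tp g a l), (p : ℝ)⁻¹ + (y₀ + 1) := by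
      intro l hl
      rw [← Finset.sum_filter_add_sum_filter_not ((Finset.range (Z + 1)).filter (Tp g a l))
        (fun p => y₀ < p)]
      refine add_le_add ?_ ?_
      · refine Finset.sum_le_sum_of_subset_of_nonneg ?_ fun _ _ _ => by positivity
        intro p hp
        rw [Finset.mem_filter, Finset.mem_filter] at hp
        rw [Finset.mem_filter, hP, Finset.mem_filter]
        exact ⟨⟨hp.1.1, hp.1.2.1, hp.2⟩, hp.1.2⟩
      · have h2 : ∑ p ∈ ((Finset.range (Z + 1)).filter (Tp g a l)).filter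
            (fun p => ¬ y₀ < p), (p : ℝ)⁻¹ ≤ ∑ p ∈ Finset.range (y₀ + 1), (1 : ℝ) := by
          refine (Finset.sum_le_sum_of_subset_of_nonneg (t := Finset.range (y₀ + 1)) ?_
            fun _ _ _ => by positivity).trans (Finset.sum_le_sum fun p _ => ?_)
          · intro p hp
            rw [Finset.mem_filter] at hp
            rw [Finset.mem_range]
            omega
          · exact Nat.cast_inv_le_one p
        refine h2.trans (le_of_eq ?_)
        rw [Finset.sum_const, Finset.card_range, nsmul_eq_mul, mul_one]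
        push_cast
        ring
    have h2 := Finset.sum_le_sum h1
    rw [Finset.sum_add_distrib, Finset.sum_const, nsmul_eq_mul] at h2
    have h3 : ∑ l ∈ S, ∑ p ∈ P.filter (Tp g a l), (p : ℝ)⁻¹ = L := by
      rw [hLs]
      have h4 : ∀ l ∈ S, ∑ p ∈ P.filter (Tp g a l), (p : ℝ)⁻¹ =
          ∑ p ∈ P, if Tp g a l p then (p : ℝ)⁻¹ else 0 := fun l _ => Finset.sum_filter _ _
      rw [Finset.sum_congr rfl h4, Finset.sum_comm]
      refine Finset.sum_congr rfl fun p hp => ?_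
      rw [hx]
      simp only
      rw [hEc p hp, ← Finset.sum_filter, Finset.sum_const, nsmul_eq_mul, div_eq_mul_inv]
    rw [h3] at h2
    linarith
  -- upper bound for L
  have hup : L ≤ Λ * (1 + t) := by
    rw [hLs]
    have h1 : ∑ p ∈ P, x p ≤ ∑ p ∈ Finset.Icc 1 Z, Λ * (p : ℝ)⁻¹ := by
      refine (Finset.sum_le_sum_of_subset_of_nonneg (t := Finset.Icc 1 Z) ?_
        fun _ _ _ => by positivity).trans (Finset.sum_le_sum fun p _ => ?_)
      · intro p hp
        rw [hP, Finset.mem_filter, Finset.mem_range] at hp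
        rw [Finset.mem_Icc]
        exact ⟨hp.2.1.pos, by omega⟩
      · rw [hx]
        simp only
        rw [div_eq_mul_inv]
        refine mul_le_mul_of_nonneg_right ?_ (by positivity)
        rw [hΛ]
        exact_mod_cast hEle p
    refine h1.trans ?_
    rw [← Finset.mul_sum]
    refine mul_le_mul_of_nonneg_left ?_ (by linarith)
    have h2 := harmonic_le_one_add_log Z
    rw [harmonic_eq_sum_Icc] at h2
    push_cast at h2
    linarith
  -- the first two terms
  have hfac : L ^ (r + 1) / (r + 1).factorial ≤ Real.exp (-t) := by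
    have h1 := Real.pow_div_factorial_le_exp (8 * L) (by positivity) (r + 1)
    have h2 : L ^ (r + 1) / (r + 1).factorial ≤ Real.exp (8 * L) / 8 ^ (r + 1) := by
      rw [le_div_iff₀ (by positivity)]
      refine le_trans (le_of_eq ?_) h1
      rw [mul_pow]
      ring
    have h3 : Real.exp (2 * ((r : ℝ) + 1)) ≤ 8 ^ (r + 1) := by
      have h4 : Real.exp 2 ≤ 8 := by
        have h5 : Real.exp 2 = Real.exp 1 * Real.exp 1 := by
          rw [← Real.exp_add]
          norm_num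
        have h6 := Real.exp_one_lt_d9
        have h7 := Real.exp_pos 1
        rw [h5]
        nlinarith
      have h5 : Real.exp (2 * ((r : ℝ) + 1)) = (Real.exp 2) ^ (r + 1) := by
        rw [← Real.exp_nat_mul]
        congr 1
        push_cast
        ring
      rw [h5]
      exact pow_le_pow_left₀ (Real.exp_pos _).le h4 _
    refine h2.trans ?_
    rw [div_le_iff₀ (by positivity)]
    have h4 : Real.exp (8 * L) ≤ Real.exp (-t) * Real.exp (2 * ((r : ℝ) + 1)) := by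
      rw [← Real.exp_add]
      refine Real.exp_le_exp.2 ?_
      have h5 : 8 * L ≤ r := by
        have := mul_le_mul_of_nonneg_left hup (by norm_num : (0 : ℝ) ≤ 8)
        linarith
      have h6 : t ≤ r := qt_r4 hΛ1 ht3 hr1
      linarith
    exact h4.trans (mul_le_mul_of_nonneg_left h3 (Real.exp_pos _).le)
  -- the error term
  have herr : (1 + LL (fun q => ((E q).card : ℝ)) P.toList) ^ r ≤ Real.exp (40 * Λ * t ^ 2) := by
    rw [hWs]
    have h1 : ∑ p ∈ P, ((E p).card : ℝ) ≤ Λ * (Z + 1) := by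
      calc ∑ p ∈ P, ((E p).card : ℝ) ≤ ∑ p ∈ P, Λ := Finset.sum_le_sum fun p _ => by
            rw [hΛ]
            exact_mod_cast hEle p
        _ = P.card * Λ := by rw [Finset.sum_const, nsmul_eq_mul]
        _ ≤ ((Z + 1 : ℕ) : ℝ) * Λ := by
            refine mul_le_mul_of_nonneg_right ?_ (by linarith)
            have : P.card ≤ Z + 1 := by
              rw [hP]
              refine (Finset.card_filter_le _ _).trans ?_
              rw [Finset.card_range]
            exact_mod_cast this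
        _ = Λ * (Z + 1) := by push_cast; ring
    have h2 : 1 + ∑ p ∈ P, ((E p).card : ℝ) ≤ Real.exp (2 * t) := by
      have h3 : 3 * Λ ≤ Real.exp t := by
        have := Real.add_one_le_exp t
        linarith
      have h4 : Real.exp (2 * t) = Real.exp t * Real.exp t := by
        rw [← Real.exp_add]
        congr 1
        ring
      rw [h4]
      exact (add_le_add_right h1 1).trans (qt_r2 hΛ1 hZe h3 hexpt)
    have h0 : 0 ≤ 1 + ∑ p ∈ P, ((E p).card : ℝ) :=
      add_nonneg zero_le_one (Finset.sum_nonneg fun p _ => Nat.cast_nonneg _)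
    refine (pow_le_pow_left₀ h0 h2 r).trans ?_
    rw [← Real.exp_nat_mul]
    exact Real.exp_le_exp.2 (qt_r1 hΛ1 ht3 hr2)
  have hfirst : Real.exp (-L) ≤ Real.exp (Λ * (y₀ + 1) -
      ∑ l ∈ S, ∑ p ∈ (Finset.range (Z + 1)).filter (Tp g a l), (p : ℝ)⁻¹) :=
    Real.exp_le_exp.2 (by linarith)
  exact add_le_add (mul_le_mul_of_nonneg_left (add_le_add hfirst hfac) (Nat.cast_nonneg _)) herr

end Pool.Agent.Helper37.PV
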