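import Mathlib
import Pool.Agent.Helper37.PV.Qt

/-!
# PV: the quantitative theorem, final form
-/

set_option autoImplicit false

namespace Pool.Agent.Helper37.PV

open Filter Topology

/-- the analytic comparison: `t ^ 3 = log N` -/
private lemma fin_real (A : ℕ) (C Λ B : ℝ) (hΛ : 1 ≤ Λ) :
    ∃ t₀ : ℝ, 3 * Λ ≤ t₀ ∧ ∀ t : ℝ, t₀ ≤ t → ∀ N : ℝ, N = Real.exp (t ^ 3) →
      B + (N * (Real.exp (C - (6 * (A : ℝ) + 2) * Real.log (Real.sqrt t)) + Real.exp (-t)) +
        Real.exp (40 * Λ * t ^ 2)) ≤ N / (t ^ 3) ^ A := by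
  have h1 : ∀ᶠ t : ℝ in atTop, t ^ (3 * A) * Real.exp (-t) < 1 / 4 :=
    (Real.tendsto_pow_mul_exp_neg_atTop_nhds_zero (3 * A)).eventually
      (gt_mem_nhds (by norm_num))
  obtain ⟨t₁, ht₁⟩ := h1.exists_forall_of_atTop
  refine ⟨max (max t₁ (3 * Λ)) (max (4 * Real.exp C) (max (40 * Λ + 1) (B + 2))),
    (le_max_right _ _).trans (le_max_left _ _), fun t ht N hN => ?_⟩
  have a1 : t₁ ≤ t := ((le_max_left _ _).trans (le_max_left _ _)).trans ht
  have a2 : 3 * Λ ≤ t := ((le_max_right _ _).trans (le_max_left _ _)).trans ht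
  have a3 : 4 * Real.exp C ≤ t := ((le_max_left _ _).trans (le_max_right _ _)).trans ht
  have a4 : 40 * Λ + 1 ≤ t :=
    (((le_max_left _ _).trans (le_max_right _ _)).trans (le_max_right _ _)).trans ht
  have a5 : B + 2 ≤ t :=
    (((le_max_right _ _).trans (le_max_right _ _)).trans (le_max_right _ _)).trans ht
  have ht0 : 0 < t := by linarith
  have ht1 : 1 ≤ t := by linarith
  have hN0 : 0 < N := by rw [hN]; exact Real.exp_pos _
  have hb := (ht₁ t a1).le
  have hpow : (t ^ 3) ^ A = t ^ (3 * A) := (pow_mul t 3 A).symm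
  have hp : 0 < t ^ (3 * A) := pow_pos ht0 _
  -- `exp (-t) ≤ (1/4) / t ^ (3 A)`
  have h2 : Real.exp (-t) ≤ 1 / 4 / t ^ (3 * A) := by
    rw [le_div_iff₀ hp]
    linarith
  -- first term
  have h3 : Real.exp (C - (6 * (A : ℝ) + 2) * Real.log (Real.sqrt t)) ≤
      1 / 4 / t ^ (3 * A) := by
    have h4 : Real.log (Real.sqrt t) = Real.log t / 2 := Real.log_sqrt ht0.le
    have h5 : C - (6 * (A : ℝ) + 2) * Real.log (Real.sqrt t) =
        C - ((3 * A + 1 : ℕ) : ℝ) * Real.log t := by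
      rw [h4]
      push_cast
      ring
    rw [h5, Real.exp_sub, Real.exp_nat_mul, Real.exp_log ht0, div_le_div_iff₀ (by positivity) hp]
    have h6 : Real.exp C * t ^ (3 * A) ≤ t / 4 * t ^ (3 * A) :=
      mul_le_mul_of_nonneg_right (by linarith) hp.le
    refine h6.trans (le_of_eq ?_)
    ring
  have ht3 : t ≤ t ^ 3 := by
    calc t = t ^ 1 := (pow_one t).symm
      _ ≤ t ^ 3 := pow_le_pow_right₀ ht1 (by norm_num)
  -- error term
  have h4 : Real.exp (40 * Λ * t ^ 2) ≤ N * (1 / 4 / t ^ (3 * A)) := by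
    have h5 : Real.exp (40 * Λ * t ^ 2) ≤ N * Real.exp (-t) := by
      rw [hN, ← Real.exp_add]
      refine Real.exp_le_exp.2 ?_
      have h6 : (40 * Λ + 1) * t ^ 2 ≤ t * t ^ 2 := mul_le_mul_of_nonneg_right a4 (by positivity)
      have h7 : t * t ^ 2 = t ^ 3 := by ring
      have h8 : t ≤ t ^ 2 := by
        calc t = t ^ 1 := (pow_one t).symm
          _ ≤ t ^ 2 := pow_le_pow_right₀ ht1 (by norm_num)
      have h9 : (40 * Λ + 1) * t ^ 2 = 40 * Λ * t ^ 2 + t ^ 2 := by ring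
      linarith
    exact h5.trans (mul_le_mul_of_nonneg_left h2 hN0.le)
  have h5 : B ≤ N * (1 / 4 / t ^ (3 * A)) := by
    have h6 : B ≤ N * Real.exp (-t) := by
      rw [hN, ← Real.exp_add]
      have h7 : B ≤ Real.exp t := by
        have := Real.add_one_le_exp t
        linarith
      refine h7.trans (Real.exp_le_exp.2 ?_)
      have h8 : 2 * t ≤ t ^ 3 := by
        have h9 : 2 ≤ t := by linarith
        have h10 : 2 * t ≤ t * t := mul_le_mul_of_nonneg_right h9 ht0.le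
        have h11 : t * t ≤ t * t * t := by
          have := mul_le_mul_of_nonneg_left ht1 (mul_pos ht0 ht0).le
          linarith
        have h12 : t ^ 3 = t * t * t := by ring
        linarith
      linarith
    exact h6.trans (mul_le_mul_of_nonneg_left h2 hN0.le)
  have h6 : N * (Real.exp (C - (6 * (A : ℝ) + 2) * Real.log (Real.sqrt t)) + Real.exp (-t)) ≤
      N * (1 / 4 / t ^ (3 * A)) + N * (1 / 4 / t ^ (3 * A)) := by
    rw [← mul_add]
    exact mul_le_mul_of_nonneg_left (add_le_add h3 h2) hN0.le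
  rw [hpow]
  have h7 : N / t ^ (3 * A) = 4 * (N * (1 / 4 / t ^ (3 * A))) := by
    field_simp
  rw [h7]
  linarith

open Classical in
theorem main_quant (a : ℕ) (ha : 0 < a) (f : Polynomial ℤ) (hd : 0 < f.natDegree)
    (hlc : 0 < f.leadingCoeff) (A : ℕ) :
    ∃ N₀ : ℕ, ∀ N : ℕ, N₀ ≤ N → ∀ M : ℕ, (((Finset.range N).filter fun n : ℕ =>
      ¬ ∃ x y z : ℕ, 0 < x ∧ 0 < y ∧ 0 < z ∧
        (a : ℚ) / ((f.eval ((M : ℤ) + n) : ℤ) : ℚ) =
          1 / (x : ℚ) + 1 / (y : ℚ) + 1 / (z : ℚ)).card : ℝ) ≤ N / Real.log N ^ A := by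
  obtain ⟨g, h, hgh, hirr, hglc⟩ := exists_factor f hd
  have hgd : 0 < g.natDegree := by
    have hinj : Function.Injective (Int.castRingHom ℚ) := Int.cast_injective
    have h1 : 0 < (g.map (Int.castRingHom ℚ)).natDegree := hirr.natDegree_pos
    rwa [Polynomial.natDegree_map_eq_of_injective hinj] at h1
  obtain ⟨S, C, Y₀, hS, hSne, hY₀, hshift⟩ := exists_shifts g hirr hglc a ha (6 * (A : ℝ) + 2)
  obtain ⟨C₁, Λ, hΛ, hsieve⟩ := sieve_shift g a S hSne
  obtain ⟨B1, hB1⟩ := eval_large g hgd hglc 0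
  obtain ⟨B2, hB2⟩ := eval_large f hd hlc 0
  set B : ℕ := (max B1 B2).toNat with hB
  obtain ⟨t₀, ht₀, hreal⟩ := fin_real A (C₁ + C) Λ B hΛ
  set t₁ : ℝ := max t₀ (Y₀ ^ 2) with ht₁
  obtain ⟨N₀, hN₀⟩ := exists_nat_ge (Real.exp (t₁ ^ 3))
  refine ⟨N₀, fun N hN M => ?_⟩
  have hNe : Real.exp (t₁ ^ 3) ≤ N := hN₀.trans (by exact_mod_cast hN)
  have ht₁3 : 3 ≤ t₁ := by
    have : t₀ ≤ t₁ := le_max_left _ _
    linarith
  have hNpos : (0 : ℝ) < N := (Real.exp_pos _).trans_le hNe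
  have hlogN : t₁ ^ 3 ≤ Real.log N := by
    have := Real.log_le_log (Real.exp_pos _) hNe
    rwa [Real.log_exp] at this
  have hlog0 : 0 ≤ Real.log N := le_trans (by positivity) hlogN
  set t : ℝ := Real.log N ^ ((1 : ℝ) / 3) with ht
  have ht0 : 0 ≤ t := Real.rpow_nonneg hlog0 _
  have ht3 : t ^ 3 = Real.log N := by
    rw [ht, ← Real.rpow_natCast, ← Real.rpow_mul hlog0]
    norm_num
  have htt : t₁ ≤ t := by
    refine le_of_pow_le_pow_left₀ (by norm_num : (3 : ℕ) ≠ 0) ht0 ?_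
    rw [ht3]
    exact hlogN
  have htt0 : t₀ ≤ t := (le_max_left _ _).trans htt
  have httY : Y₀ ^ 2 ≤ t := (le_max_right _ _).trans htt
  have hNt : (N : ℝ) = Real.exp (t ^ 3) := by
    rw [ht3, Real.exp_log hNpos]
  have ht1 : 3 ≤ t := ht₁3.trans htt
  -- the parameters `Y` and `Z`
  set Z : ℕ := ⌊Real.exp t⌋₊ with hZ
  have hZ1 : 1 ≤ Z := Nat.le_floor (by
    have := Real.one_le_exp ht0
    exact_mod_cast this)
  have hYt : Y₀ ≤ Real.sqrt t := by
    have h1 := Real.sqrt_le_sqrt httY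
    rwa [Real.sqrt_sq (by linarith)] at h1
  have hst1 : 1 ≤ Real.sqrt t := hY₀.trans hYt
  have hZlog : Real.sqrt t * Real.log (Real.sqrt t) ≤ Real.log Z := by
    have h1 : Real.log (Real.sqrt t) ≤ Real.sqrt t - 1 :=
      Real.log_le_sub_one_of_pos (by linarith)
    have h2 : Real.sqrt t * Real.log (Real.sqrt t) ≤ Real.sqrt t * (Real.sqrt t - 1) :=
      mul_le_mul_of_nonneg_left h1 (by linarith)
    have h3 : Real.sqrt t * Real.sqrt t = t := Real.mul_self_sqrt ht0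
    have h4 : Real.exp (t - 1) ≤ Z := by
      have h5 := Nat.sub_one_lt_floor (Real.exp t)
      have h6 : Real.exp (t - 1) ≤ Real.exp t - 1 := by
        have h7 : Real.exp t = Real.exp (t - 1) * Real.exp 1 := by
          rw [← Real.exp_add]
          congr 1
          ring
        have h8 : 2 ≤ Real.exp 1 := by
          have := Real.add_one_le_exp (1 : ℝ)
          linarith
        have h9 : 1 ≤ Real.exp (t - 1) := Real.one_le_exp (by linarith)
        rw [h7]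
        nlinarith
      linarith
    have h5 : t - 1 ≤ Real.log Z := by
      have := Real.log_le_log (Real.exp_pos _) h4
      rwa [Real.log_exp] at this
    have h6 : Real.sqrt t * (Real.sqrt t - 1) ≤ t - 1 := by
      rw [mul_sub, h3, mul_one]
      linarith
    linarith
  have hlow := hshift (Real.sqrt t) hYt Z hZ1 hZlog
  have hup := hsieve t (ht₀.trans htt0) N M
  rw [← hZ] at hup
  have hrr := hreal t htt0 N hNt
  have hsub : ((Finset.range N).filter fun n : ℕ =>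
      ¬ ∃ x y z : ℕ, 0 < x ∧ 0 < y ∧ 0 < z ∧
        (a : ℚ) / ((f.eval ((M : ℤ) + n) : ℤ) : ℚ) =
          1 / (x : ℚ) + 1 / (y : ℚ) + 1 / (z : ℚ)) ⊆
      Finset.range B ∪ (Finset.range N).filter fun n : ℕ => ∀ l ∈ S, ∀ p : ℕ, Tp g a l p →
        ¬ (p : ℤ) ∣ (g + Polynomial.C (l : ℤ)).eval ((M : ℤ) + n) := by
    intro n hn
    rw [Finset.mem_filter] at hn
    rw [Finset.mem_union, Finset.mem_range, Finset.mem_filter]
    by_contra hcon
    rw [not_or] at hcon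
    obtain ⟨hnB, hnH⟩ := hcon
    have hn1 : B1 ≤ (M : ℤ) + n := by omega
    have hn2 : B2 ≤ (M : ℤ) + n := by omega
    apply hnH
    refine ⟨hn.1, fun l hl p hp hdF => ?_⟩
    apply hn.2
    have hg0 := hB1 _ hn1
    have hf0 := hB2 _ hn2
    have hh0 : 0 < h.eval ((M : ℤ) + n) := by
      rw [hgh, Polynomial.eval_mul] at hf0
      exact (mul_pos_iff_of_pos_left hg0).1 hf0
    obtain ⟨hpp, hpu, -⟩ := hp
    obtain ⟨D, hD⟩ : ∃ D : ℕ, g.eval ((M : ℤ) + n) = D := ⟨(g.eval ((M : ℤ) + n)).toNat, by omega⟩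
    obtain ⟨h', hh'⟩ : ∃ h' : ℕ, h.eval ((M : ℤ) + n) = h' :=
      ⟨(h.eval ((M : ℤ) + n)).toNat, by omega⟩
    rw [Polynomial.eval_add, Polynomial.eval_C, hD] at hdF
    have hdF' : p ∣ D + l := by exact_mod_cast hdF
    obtain ⟨e, he⟩ := hdF'
    have hds : (a * l) ∣ p + 1 := by
      rw [← ZMod.natCast_eq_zero_iff]
      push_cast
      rw [hpu]
      ring
    obtain ⟨s, hs⟩ := hds
    have hfe : ((f.eval ((M : ℤ) + n) : ℤ) : ℚ) = ((D * h' : ℕ) : ℚ) := by
      rw [hgh, Polynomial.eval_mul, hD, hh']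
      push_cast
      ring
    rw [hfe]
    exact rep_of_div (hS l hl) (by omega) (by omega) hpp.pos he hs
  have hcard := (Finset.card_le_card hsub).trans (Finset.card_union_le _ _)
  rw [Finset.card_range] at hcard
  have hcard' : (((Finset.range N).filter fun n : ℕ =>
      ¬ ∃ x y z : ℕ, 0 < x ∧ 0 < y ∧ 0 < z ∧
        (a : ℚ) / ((f.eval ((M : ℤ) + n) : ℤ) : ℚ) =
          1 / (x : ℚ) + 1 / (y : ℚ) + 1 / (z : ℚ)).card : ℝ) ≤
      B + (((Finset.range N).filter fun n : ℕ => ∀ l ∈ S, ∀ p : ℕ, Tp g a l p →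
        ¬ (p : ℤ) ∣ (g + Polynomial.C (l : ℤ)).eval ((M : ℤ) + n)).card : ℝ) := by
    exact_mod_cast hcard
  rw [ht3] at hrr
  refine hcard'.trans (le_trans ?_ hrr)
  refine add_le_add le_rfl (hup.trans (add_le_add (mul_le_mul_of_nonneg_left
    (add_le_add (Real.exp_le_exp.2 ?_) le_rfl) (Nat.cast_nonneg _)) le_rfl))
  linarith

open Classical in
theorem main_rat (a : ℕ) (ha : 0 < a) (f : Polynomial ℚ) (hd : 0 < f.natDegree)
    (hlc : 0 < f.leadingCoeff) (A : ℕ) :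
    ∃ N₀ : ℕ, ∀ N : ℕ, N₀ ≤ N → ∀ M : ℕ, (((Finset.Ico M (M + N)).filter fun n : ℕ =>
      ¬ ∃ x y z : ℕ, 0 < x ∧ 0 < y ∧ 0 < z ∧
        (a : ℚ) / f.eval (n : ℚ) = 1 / (x : ℚ) + 1 / (y : ℚ) + 1 / (z : ℚ)).card : ℝ) ≤
      N / Real.log N ^ A := by
  obtain ⟨b, hbm, hb⟩ := IsLocalization.integerNormalization_spec (nonZeroDivisors ℤ) f
  set F₀ := IsLocalization.integerNormalization (nonZeroDivisors ℤ) f with hF₀
  have hb0 : b ≠ 0 := nonZeroDivisors.ne_zero hbm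
  have hinj : Function.Injective (Int.castRingHom ℚ) := Int.cast_injective
  have hb' : F₀.map (Int.castRingHom ℚ) = Polynomial.C (b : ℚ) * f := by
    have h1 : (algebraMap ℤ ℚ) = Int.castRingHom ℚ := rfl
    rw [← h1, hb, ← Int.cast_smul_eq_zsmul ℚ, Polynomial.smul_eq_C_mul]
  set F : Polynomial ℤ := Polynomial.C b * F₀ with hF
  have hFm : F.map (Int.castRingHom ℚ) = Polynomial.C ((b : ℚ) ^ 2) * f := by
    rw [hF, Polynomial.map_mul, Polynomial.map_C, hb', ← mul_assoc, ← Polynomial.C_mul]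
    congr 2
    simp only [Int.coe_castRingHom]
    ring
  have hbq : (b : ℚ) ≠ 0 := by exact_mod_cast hb0
  have hb2 : (0 : ℚ) < (b : ℚ) ^ 2 := by positivity
  have hFd : F.natDegree = f.natDegree := by
    rw [← Polynomial.natDegree_map_eq_of_injective hinj, hFm, Polynomial.natDegree_C_mul hb2.ne']
  have hFlc : 0 < F.leadingCoeff := by
    have h1 : ((F.leadingCoeff : ℤ) : ℚ) = (b : ℚ) ^ 2 * f.leadingCoeff := by
      have h2 := Polynomial.leadingCoeff_map_of_injective hinj F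
      rw [hFm, Polynomial.leadingCoeff_mul, Polynomial.leadingCoeff_C] at h2
      exact h2.symm
    have h2 : (0 : ℚ) < ((F.leadingCoeff : ℤ) : ℚ) := by
      rw [h1]
      positivity
    exact_mod_cast h2
  obtain ⟨N₀, hN₀⟩ := main_quant (a * b.natAbs ^ 2)
    (Nat.mul_pos ha (pow_pos (Int.natAbs_pos.2 hb0) 2)) F (by rw [hFd]; exact hd) hFlc A
  refine ⟨N₀, fun N hN M => le_trans ?_ (hN₀ N hN M)⟩
  have hev : ∀ n : ℕ, ((F.eval (n : ℤ) : ℤ) : ℚ) = (b : ℚ) ^ 2 * f.eval (n : ℚ) := by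
    intro n
    have h1 := Polynomial.eval_natCast_map (Int.castRingHom ℚ) F n
    rw [hFm, Polynomial.eval_mul, Polynomial.eval_C] at h1
    exact h1.symm
  have hcard : ((Finset.Ico M (M + N)).filter fun n : ℕ =>
      ¬ ∃ x y z : ℕ, 0 < x ∧ 0 < y ∧ 0 < z ∧
        (a : ℚ) / f.eval (n : ℚ) = 1 / (x : ℚ) + 1 / (y : ℚ) + 1 / (z : ℚ)).card ≤
      ((Finset.range N).filter fun n : ℕ =>
      ¬ ∃ x y z : ℕ, 0 < x ∧ 0 < y ∧ 0 < z ∧
        ((a * b.natAbs ^ 2 : ℕ) : ℚ) / ((F.eval ((M : ℤ) + n) : ℤ) : ℚ) =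
          1 / (x : ℚ) + 1 / (y : ℚ) + 1 / (z : ℚ)).card := by
    refine Finset.card_le_card_of_injOn (fun n => n - M) ?_ ?_
    · intro n hn
      rw [Finset.mem_coe, Finset.mem_filter, Finset.mem_Ico] at hn
      rw [Finset.mem_coe, Finset.mem_filter, Finset.mem_range]
      obtain ⟨⟨hn1, hn2⟩, hn3⟩ := hn
      refine ⟨show n - M < N by omega, fun hex => hn3 ?_⟩
      have h1 : (M : ℤ) + ((n - M : ℕ) : ℤ) = (n : ℤ) := by omega
      rw [h1, hev] at hex
      have h2 : ((a * b.natAbs ^ 2 : ℕ) : ℚ) / ((b : ℚ) ^ 2 * f.eval (n : ℚ)) =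
          (a : ℚ) / f.eval (n : ℚ) := by
        have h3 : ((a * b.natAbs ^ 2 : ℕ) : ℚ) = (b : ℚ) ^ 2 * a := by
          push_cast
          rw [Nat.cast_natAbs]
          push_cast
          rw [sq_abs]
          ring
        rw [h3, mul_div_mul_left _ _ hb2.ne']
      rw [h2] at hex
      exact hex
    · intro n hn n' hn' heq
      rw [Finset.mem_coe, Finset.mem_filter, Finset.mem_Ico] at hn hn'
      have heq' : n - M = n' - M := heq
      omega
  exact_mod_cast hcard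

end Pool.Agent.Helper37.PV
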